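import Mathlib

open Set MeasureTheory

namespace Pool.Agent.helper47.SAlpha

/-- The Euclidean plane. -/
abbrev Plane := EuclideanSpace ℝ (Fin 2)

/-- The area of the triangle with vertices `a`, `b`, `c` (zero if they are collinear). -/
noncomputable def triArea (a b c : Plane) : ℝ :=
  |(b 0 - a 0) * (c 1 - a 1) - (c 0 - a 0) * (b 1 - a 1)| / 2

/-- A convex figure: a compact convex subset of the plane with nonempty interior. -/
structure IsFigure (F : Set Plane) : Prop where
  convex : Convex ℝ F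
  compact : IsCompact F
  interior_nonempty : (interior F).Nonempty

/-- Among any `n` points of `F` some three (distinct ones) are the vertices of a triangle of
area at most `β`. -/
def Forced (n : ℕ) (F : Set Plane) (β : ℝ) : Prop :=
  ∀ s : Finset Plane, (s : Set Plane) ⊆ F → s.card = n →
    ∃ a ∈ s, ∃ b ∈ s, ∃ c ∈ s, a ≠ b ∧ a ≠ c ∧ b ≠ c ∧ triArea a b c ≤ β

lemma triArea_nonneg (a b c : Plane) : 0 ≤ triArea a b c := by
  unfold triArea; positivity

lemma triArea_perm1 (a b c : Plane) : triArea a b c = triArea a c b := by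
  unfold triArea
  rw [← abs_neg]; congr 2; ring

lemma triArea_rot (a b c : Plane) : triArea a b c = triArea b c a := by
  unfold triArea
  congr 2; ring

lemma triArea_le (a b c : Plane) : triArea a b c ≤ dist a b * dist a c / 2 := by
  unfold triArea
  have h1 : dist a b = Real.sqrt ((a 0 - b 0)^2 + (a 1 - b 1)^2) := by
    rw [EuclideanSpace.dist_eq]; simp [Fin.sum_univ_two, Real.dist_eq, sq_abs]
  have h2 : dist a c = Real.sqrt ((a 0 - c 0)^2 + (a 1 - c 1)^2) := by
    rw [EuclideanSpace.dist_eq]; simp [Fin.sum_univ_two, Real.dist_eq, sq_abs]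
  rw [h1, h2, ← Real.sqrt_mul (by positivity)]
  have : |(b 0 - a 0) * (c 1 - a 1) - (c 0 - a 0) * (b 1 - a 1)| ≤
      Real.sqrt (((a 0 - b 0)^2 + (a 1 - b 1)^2) * ((a 0 - c 0)^2 + (a 1 - c 1)^2)) := by
    apply Real.abs_le_sqrt
    nlinarith [sq_nonneg ((a 0 - b 0) * (a 0 - c 0) + (a 1 - b 1) * (a 1 - c 1))]
  linarith

lemma triArea_smul (r : ℝ) (a b c : Plane) :
    triArea (r • a) (r • b) (r • c) = r^2 * triArea a b c := by
  unfold triArea
  simp only [PiLp.smul_apply, smul_eq_mul]
  rw [← abs_of_nonneg (sq_nonneg r), mul_div_assoc', ← abs_mul]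
  congr 2; ring

lemma triArea_vadd (v a b c : Plane) :
    triArea (v + a) (v + b) (v + c) = triArea a b c := by
  unfold triArea
  simp only [PiLp.add_apply]
  congr 2; ring

lemma Forced.mono_n {n n' : ℕ} {F : Set Plane} {β : ℝ} (h : Forced n F β) (hn : n ≤ n') :
    Forced n' F β := by
  intro s hs hc
  obtain ⟨t, hts, htc⟩ := Finset.exists_subset_card_eq (hc ▸ hn : n ≤ s.card)
  obtain ⟨a, ha, b, hb, c, hc', h1, h2, h3, h4⟩ := h t (fun x hx => hs (hts hx)) htc
  exact ⟨a, hts ha, b, hts hb, c, hts hc', h1, h2, h3, h4⟩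

lemma Forced.mono_β {n : ℕ} {F : Set Plane} {β β' : ℝ} (h : Forced n F β) (hβ : β ≤ β') :
    Forced n F β' := by
  intro s hs hc
  obtain ⟨a, ha, b, hb, c, hc', h1, h2, h3, h4⟩ := h s hs hc
  exact ⟨a, ha, b, hb, c, hc', h1, h2, h3, h4.trans hβ⟩

lemma Forced.anti_F {n : ℕ} {F F' : Set Plane} {β : ℝ} (h : Forced n F β) (hF : F' ⊆ F) :
    Forced n F' β := fun s hs hc => h s (hs.trans hF) hc

/-- The occupancy lemma: if at most one point can lie outside `F`. -/
lemma Forced.succ_of_small {n : ℕ} (hn : 2 ≤ n) {F F' : Set Plane} {β : ℝ} (h : Forced n F β)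
    (hs : ∀ p ∈ F' \ F, ∀ q ∈ F' \ F, ∀ r ∈ F', triArea p q r ≤ β) :
    Forced (n + 1) F' β := by
  classical
  intro s hsF hcard
  by_cases hout : ∃ p ∈ s, ∃ q ∈ s, p ≠ q ∧ p ∉ F ∧ q ∉ F
  · obtain ⟨p, hp, q, hq, hpq, hpF, hqF⟩ := hout
    have : 2 < s.card := by omega
    obtain ⟨r, hr, hr'⟩ : ∃ r ∈ s, r ∉ ({p, q} : Finset Plane) := by
      apply Finset.exists_mem_notMem_of_card_lt_card
      calc ({p, q} : Finset Plane).card ≤ 2 := Finset.card_le_two
        _ < s.card := this
    simp only [Finset.mem_insert, Finset.mem_singleton, not_or] at hr'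
    exact ⟨p, hp, q, hq, r, hr, hpq, fun h => hr'.1 h.symm, fun h => hr'.2 h.symm,
      hs p ⟨hsF hp, hpF⟩ q ⟨hsF hq, hqF⟩ r (hsF hr)⟩
  · push Not at hout
    -- at most one point outside F
    have : ∃ t ⊆ s, t.card = n ∧ (t : Set Plane) ⊆ F := by
      by_cases hex : ∃ p ∈ s, p ∉ F
      · obtain ⟨p, hp, hpF⟩ := hex
        refine ⟨s.erase p, Finset.erase_subset _ _, ?_, ?_⟩
        · rw [Finset.card_erase_of_mem hp, hcard]; rfl
        · intro q hq
          rw [Finset.mem_coe, Finset.mem_erase] at hq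
          exact hout p hp q hq.2 (Ne.symm hq.1) hpF
      · push Not at hex
        obtain ⟨t, hts, htc⟩ := Finset.exists_subset_card_eq (by omega : n ≤ s.card)
        exact ⟨t, hts, htc, fun x hx => hex x (hts hx)⟩
    obtain ⟨t, hts, htc, htF⟩ := this
    obtain ⟨a, ha, b, hb, c, hc', h1, h2, h3, h4⟩ := h t htF htc
    exact ⟨a, hts ha, b, hts hb, c, hts hc', h1, h2, h3, h4⟩

/-- Key convexity estimate: adding one point `y` of maximal `f`-value to a hull which contains a
slightly smaller sublevel set changes the hull only near `y`. -/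
lemma hull_local {f : Plane → ℝ} {m : ℝ} (hm : 0 < m)
    (hsc : StrongConvexOn univ m f) {S' : Set Plane} (hS' : S'.Nonempty) {y : Plane} {η ε : ℝ}
    (hε : 0 < ε) (hηε : η ≤ m * ε^2 / 8)
    (hmax : ∀ z ∈ S', f z ≤ f y)
    (hnet : ∀ x, f x ≤ f y - η → x ∈ convexHull ℝ S') :
    ∀ w ∈ convexHull ℝ (insert y S'), w ∉ convexHull ℝ S' → dist w y ≤ ε := by
  intro w hw hw'
  by_contra hlt
  push Not at hlt
  rw [convexHull_insert hS', mem_convexJoin] at hw
  obtain ⟨y', hy', b, hb, hwseg⟩ := hw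
  rw [mem_singleton_iff] at hy'
  subst hy'
  -- f b ≤ f y
  have hconv : ConvexOn ℝ univ f := hsc.convexOn (by intro x; positivity)
  have hfb : f b ≤ f y' := by
    have hsub : convexHull ℝ S' ⊆ {x | x ∈ univ ∧ f x ≤ f y'} :=
      convexHull_min (fun z hz => ⟨mem_univ _, hmax z hz⟩) (hconv.convex_le _)
    exact (hsub hb).2
  obtain ⟨s, t, hs, ht, hst, rfl⟩ := hwseg
  -- w = s y + t b
  have hDw : dist (s • y' + t • b) y' = t * dist b y' := by
    rw [dist_eq_norm, dist_eq_norm]
    have : s • y' + t • b - y' = t • (b - y') := by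
      have : s = 1 - t := by linarith
      subst this; module
    rw [this, norm_smul, Real.norm_of_nonneg ht]
  rw [hDw] at hlt
  set D := dist b y' with hD
  have hDpos : 0 ≤ D := dist_nonneg
  have ht1 : t ≤ 1 := by linarith
  have hDε : ε < D := by nlinarith
  -- the midpoint v of w and y'
  set v : Plane := ((1 + s) / 2) • y' + (t / 2) • b with hv
  have hfv : f v ≤ f y' - η := by
    have h1 := hsc.2 (mem_univ y') (mem_univ b) (show (0:ℝ) ≤ (1 + s)/2 by linarith)
      (show (0:ℝ) ≤ t/2 by linarith) (by linarith)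
    simp only [smul_eq_mul] at h1
    have h2 : ‖y' - b‖ = D := by rw [hD, dist_comm, dist_eq_norm]
    rw [h2] at h1
    have h3 : ε ^ 2 / 4 ≤ (1 + s)/2 * (t/2) * D^2 := by
      have : ε ^ 2 ≤ (t * D) * D := by nlinarith
      nlinarith [mul_nonneg hs (mul_nonneg ht (sq_nonneg D))]
    have h4 : (1 + s)/2 * f y' + t/2 * f b ≤ f y' := by
      have h5 : t/2 * f b ≤ t/2 * f y' := mul_le_mul_of_nonneg_left hfb (by linarith)
      have h6 : (1+s)/2 * f y' + t/2 * f y' = f y' := by
        have : (1+s)/2 + t/2 = 1 := by linarith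
        rw [← add_mul, this, one_mul]
      linarith
    calc f v ≤ (1 + s)/2 * f y' + t/2 * f b - (1 + s)/2 * (t/2) * (m / 2 * D^2) := h1
      _ ≤ f y' - m * ε^2 / 8 := by nlinarith
      _ ≤ f y' - η := by linarith
  have hvmem := hnet v hfv
  apply hw'
  -- w lies between b and v
  have hconvS := convex_convexHull ℝ S'
  -- w = c • v + (1-c) • b, where c (1+s)/2 = s
  have h1s : (0:ℝ) < 1 + s := by linarith
  have key : s • y' + t • b = (2 * s / (1 + s)) • v + (1 - 2 * s / (1 + s)) • b := by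
    have e1 : (2 * s / (1 + s)) * ((1 + s) / 2) = s := by field_simp
    have e2 : (2 * s / (1 + s)) * (t / 2) + (1 - 2 * s / (1 + s)) = t := by
      have : t = 1 - s := by linarith
      subst this; field_simp; ring
    rw [hv, smul_add, smul_smul, smul_smul, add_assoc, ← add_smul, e1, e2]
  rw [key]
  have hc1 : 2 * s / (1 + s) ≤ 1 := by rw [div_le_one h1s]; linarith
  exact hconvS hvmem hb (by positivity) (by linarith) (by ring)

end Pool.Agent.helper47.SAlpha
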