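import Pool.Agent.helper47.SAlphaA

open Set MeasureTheory

namespace Pool.Agent.helper47.SAlpha

/-- area of a plane set, as a real number -/
noncomputable def area (F : Set Plane) : ℝ := (volume F).toReal

lemma exists_net {K : Set Plane} (hK : IsCompact K) {f : Plane → ℝ} (hf : Continuous f)
    {η : ℝ} (hη : 0 < η) :
    ∃ Y : Finset Plane, ∀ x ∈ K, x ∈ convexHull ℝ {z | z ∈ Y ∧ f z < f x + η} := by
  classical
  have hU : ∀ p : Plane, {z | |f z - f p| < η / 2} ∈ nhds p := by
    intro p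
    have : Continuous fun z => |f z - f p| := (hf.sub continuous_const).abs
    exact (isOpen_lt this continuous_const).mem_nhds (by simp; positivity)
  choose b hb1 hb2 using fun p => exists_mem_interior_convexHull_affineBasis (hU p)
  obtain ⟨t, ht⟩ := hK.elim_nhds_subcover (fun p => interior (convexHull ℝ (range (b p))))
    (fun p _ => isOpen_interior.mem_nhds (hb1 p))
  refine ⟨t.biUnion fun p => Finset.univ.image (b p), ?_⟩
  intro x hx
  obtain ⟨p, hp, hxp⟩ := mem_iUnion₂.1 (ht.2 hx)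
  have hx' : x ∈ convexHull ℝ (range (b p)) := interior_subset hxp
  refine convexHull_mono ?_ hx'
  rintro z ⟨i, rfl⟩
  refine ⟨?_, ?_⟩
  · simp only [Finset.mem_biUnion, Finset.mem_image, Finset.mem_univ, true_and]
    exact ⟨p, hp, i, rfl⟩
  · have h1 := hb2 p (subset_convexHull ℝ _ (mem_range_self i))
    have h2 := hb2 p hx'
    simp only [mem_ofPred_eq, abs_lt] at h1 h2
    linarith [h1.2, h2.1]

lemma area_mono {A B : Set Plane} (h : A ⊆ B) (hB : Bornology.IsBounded B) : area A ≤ area B :=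
  ENNReal.toReal_mono hB.measure_lt_top.ne (measure_mono h)

lemma area_nonneg (A : Set Plane) : 0 ≤ area A := ENNReal.toReal_nonneg

/-- The main chain theorem. -/
theorem chain {α β : ℝ} (hα : 0 < α) {n : ℕ} (hn : 2 ≤ n) {f : Plane → ℝ} {m : ℝ}
    (hf : Continuous f) (hm : 0 < m) (hsc : StrongConvexOn univ m f) {t₀ t₁ η₀ : ℝ}
    (h01 : t₀ < t₁) (hη₀ : 0 < η₀) (hbdd : Bornology.IsBounded {x | f x ≤ t₁})
    (hI : (interior {x | f x ≤ t₀ - η₀}).Nonempty)
    (hβ : β ≤ α * area {x | f x ≤ t₀ - η₀})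
    (hF : Forced (n + 1) {x | f x ≤ t₀} β)
    {Q : Finset Plane} (hQ : ∀ x ∈ Q, f x ≤ t₁ - η₀) (hQc : Q.card = n)
    (hQa : ∀ a ∈ Q, ∀ b ∈ Q, ∀ c ∈ Q, a ≠ b → a ≠ c → b ≠ c →
      α * area {x | f x ≤ t₁} < triArea a b c) :
    ∃ C, IsFigure C ∧ Forced (n + 1) C (α * area C) ∧ ¬ Forced n C (α * area C) := by
  classical
  have hconv : ConvexOn ℝ univ f := hsc.convexOn (by intro x; positivity)
  have hcl : ∀ t, IsClosed {x | f x ≤ t} := fun t => isClosed_le hf continuous_const
  have hcv : ∀ t, Convex ℝ {x | f x ≤ t} := by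
    intro t
    have := hconv.convex_le t
    simpa using this
  set K := {x | f x ≤ t₁} with hK
  have hKc : IsCompact K := Metric.isCompact_of_isClosed_isBounded (hcl t₁) hbdd
  -- a bound on the diameter
  obtain ⟨D, hD, hDb⟩ : ∃ D : ℝ, 0 < D ∧ ∀ p ∈ K, ∀ q ∈ K, dist p q ≤ D := by
    refine ⟨Metric.diam K + 1, by have := Metric.diam_nonneg (s := K); linarith, ?_⟩
    intro p hp q hq
    have := Metric.dist_le_diam_of_mem hbdd hp hq
    linarith
  set v₀ := area {x | f x ≤ t₀ - η₀} with hv₀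
  have hv₀pos : 0 < v₀ := by
    rw [hv₀, area]
    apply ENNReal.toReal_pos
    · exact (Measure.measure_pos_of_nonempty_interior volume hI).ne'
    · refine (hbdd.subset (fun x hx => ?_)).measure_lt_top.ne
      have hx' : f x ≤ t₀ - η₀ := hx
      show f x ≤ t₁
      linarith
  obtain ⟨ε, hε, hεD⟩ : ∃ ε : ℝ, 0 < ε ∧ ε * D ≤ α * v₀ :=
    ⟨α * v₀ / D, by positivity, by rw [div_mul_cancel₀ _ hD.ne']⟩
  obtain ⟨η, hη, hη1, hη2⟩ : ∃ η : ℝ, 0 < η ∧ η ≤ η₀ ∧ η ≤ m * ε^2 / 8 :=
    ⟨min η₀ (m * ε^2/8), lt_min hη₀ (by positivity), min_le_left _ _, min_le_right _ _⟩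
  obtain ⟨Y, hY⟩ := exists_net hKc hf hη
  -- restrict Y to K
  set S₀ := Y.filter (fun z => f z ≤ t₀) with hS₀
  -- sublevel sets are covered
  have hcov : ∀ (S : Finset Plane) (t : ℝ), t ≤ t₁ → (∀ z ∈ Y, f z ≤ t → z ∈ S) →
      {x | f x ≤ t - η} ⊆ convexHull ℝ (S : Set Plane) := by
    intro S t htt hS x hx
    simp only [mem_ofPred_eq] at hx
    have hxK : x ∈ K := by simp only [hK, mem_ofPred_eq]; linarith
    refine convexHull_mono ?_ (hY x hxK)
    rintro z ⟨hz1, hz2⟩
    exact hS z hz1 (by linarith)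
  have hS₀cov : {x | f x ≤ t₀ - η₀} ⊆ convexHull ℝ (S₀ : Set Plane) := by
    refine Subset.trans ?_ (hcov S₀ t₀ h01.le (fun z hz hz' => by simp [hS₀, hz, hz']))
    intro x hx; simp only [mem_ofPred_eq] at hx ⊢; linarith
  -- the family
  let P : Finset Plane → Prop := fun S => S₀ ⊆ S ∧ S ⊆ Y ∧ (∀ z ∈ S, f z ≤ t₁) ∧
    (∀ y ∈ S, ∀ z ∈ Y, f z < f y → z ∈ S) ∧
    ¬ Forced n (convexHull ℝ (S : Set Plane)) (α * area (convexHull ℝ (S : Set Plane)))
  have hhullK : ∀ S : Finset Plane, (∀ z ∈ S, f z ≤ t₁) → convexHull ℝ (S : Set Plane) ⊆ K :=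
    fun S hS => convexHull_min (fun z hz => hS z hz) (hcv t₁)
  have hfig : ∀ S : Finset Plane, S₀ ⊆ S → (∀ z ∈ S, f z ≤ t₁) →
      IsFigure (convexHull ℝ (S : Set Plane)) := by
    intro S h1 h2
    refine ⟨convex_convexHull ℝ _, (S.finite_toSet).isCompact_convexHull ℝ, ?_⟩
    exact hI.mono (interior_mono (hS₀cov.trans (convexHull_mono (by exact_mod_cast h1))))
  have hareaS : ∀ S : Finset Plane, S₀ ⊆ S → (∀ z ∈ S, f z ≤ t₁) →
      v₀ ≤ area (convexHull ℝ (S : Set Plane)) := by
    intro S h1 h2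
    exact area_mono (hS₀cov.trans (convexHull_mono (by exact_mod_cast h1)))
      (hbdd.subset (hhullK S h2))
  -- the top element
  set S₁ := Y.filter (fun z => f z ≤ t₁) with hS₁
  have hPS₁ : P S₁ := by
    refine ⟨?_, Finset.filter_subset _ _, ?_, ?_, ?_⟩
    · intro z hz
      simp only [hS₀, hS₁, Finset.mem_filter] at hz ⊢
      exact ⟨hz.1, by linarith [hz.2]⟩
    · intro z hz; exact (Finset.mem_filter.1 hz).2
    · intro y hy z hz hzy
      simp only [hS₁, Finset.mem_filter] at hy ⊢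
      exact ⟨hz, by linarith [hy.2]⟩
    · intro hforced
      have hQsub : (Q : Set Plane) ⊆ convexHull ℝ (S₁ : Set Plane) := by
        intro x hx
        refine hcov S₁ t₁ le_rfl (fun z hz hz' => by simp [hS₁, hz, hz']) ?_
        have := hQ x hx
        simp only [mem_ofPred_eq]; linarith
      obtain ⟨a, ha, b, hb, c, hc, h1, h2, h3, h4⟩ := hforced Q hQsub hQc
      have h5 := hQa a ha b hb c hc h1 h2 h3
      have h6 : area (convexHull ℝ (S₁ : Set Plane)) ≤ area K :=
        area_mono (hhullK S₁ (fun z hz => (Finset.mem_filter.1 hz).2)) hbdd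
      have h7 : α * area (convexHull ℝ (S₁ : Set Plane)) ≤ α * area K :=
        mul_le_mul_of_nonneg_left h6 hα.le
      linarith
  -- minimal cardinality
  obtain ⟨S, hPS, hmin⟩ : ∃ S, P S ∧ ∀ S', P S' → S.card ≤ S'.card := by
    have hex : ∃ k, ∃ S, P S ∧ S.card = k := ⟨_, S₁, hPS₁, rfl⟩
    obtain ⟨S, hS, hSc⟩ := Nat.find_spec hex
    refine ⟨S, hS, fun S' hS' => ?_⟩
    rw [hSc]
    exact Nat.find_min' hex ⟨S', hS', rfl⟩
  obtain ⟨hS0S, hSY, hSt, hSinit, hSnot⟩ := hPS
  refine ⟨convexHull ℝ (S : Set Plane), hfig S hS0S hSt, ?_, hSnot⟩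
  by_cases hEq : S = S₀
  · -- the starting hull is contained in the sublevel set
    have hsub : convexHull ℝ (S : Set Plane) ⊆ {x | f x ≤ t₀} := by
      rw [hEq]
      exact convexHull_min (fun z hz => (Finset.mem_filter.1 hz).2) (hcv t₀)
    refine (hF.anti_F hsub).mono_β (hβ.trans ?_)
    exact mul_le_mul_of_nonneg_left (hareaS S hS0S hSt) hα.le
  · have hne : (S \ S₀).Nonempty := by
      rw [Finset.sdiff_nonempty]
      intro h
      exact hEq (Finset.Subset.antisymm h hS0S)
    obtain ⟨y, hy, hymax⟩ := Finset.exists_max_image (S \ S₀) f hne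
    rw [Finset.mem_sdiff] at hy
    have hyt₀ : t₀ < f y := by
      by_contra hcon
      push Not at hcon
      exact hy.2 (by simp only [hS₀, Finset.mem_filter]; exact ⟨hSY hy.1, hcon⟩)
    have hmax : ∀ z ∈ S, f z ≤ f y := by
      intro z hz
      by_cases hz0 : z ∈ S₀
      · exact ((Finset.mem_filter.1 hz0).2).trans hyt₀.le
      · exact hymax z (Finset.mem_sdiff.2 ⟨hz, hz0⟩)
    set S' := S.erase y with hS'
    have hS0S' : S₀ ⊆ S' := by
      intro z hz
      rw [hS', Finset.mem_erase]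
      exact ⟨fun h => hy.2 (h ▸ hz), hS0S hz⟩
    have hS't : ∀ z ∈ S', f z ≤ t₁ := fun z hz => hSt z (Finset.mem_of_mem_erase hz)
    have hforced' : Forced n (convexHull ℝ (S' : Set Plane))
        (α * area (convexHull ℝ (S' : Set Plane))) := by
      by_contra hcon
      have hP' : P S' := by
        refine ⟨hS0S', (Finset.erase_subset _ _).trans hSY, hS't, ?_, hcon⟩
        intro y' hy' z hz hzy
        have hy'S : y' ∈ S := Finset.mem_of_mem_erase hy'
        rw [hS', Finset.mem_erase]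
        refine ⟨?_, hSinit y' hy'S z hz hzy⟩
        rintro rfl
        exact absurd (hmax y' hy'S) (not_le.2 hzy)
      have h1 := hmin S' hP'
      have h2 : S'.card < S.card := Finset.card_erase_lt_of_mem hy.1
      omega
    have hins : insert y (S' : Set Plane) = (S : Set Plane) := by
      rw [hS', ← Finset.coe_insert, Finset.insert_erase hy.1]
    have hS'ne : (S' : Set Plane).Nonempty := by
      obtain ⟨x, hx⟩ := hI
      have h1 := hS₀cov (interior_subset hx)
      have h2 : (S₀ : Set Plane).Nonempty := convexHull_nonempty_iff.1 ⟨x, h1⟩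
      exact h2.mono (by exact_mod_cast hS0S')
    have hnet : ∀ x, f x ≤ f y - η → x ∈ convexHull ℝ (S' : Set Plane) := by
      intro x hx
      have hyt₁ := hSt y hy.1
      have hxK : x ∈ K := by simp only [hK, mem_ofPred_eq]; linarith
      refine convexHull_mono ?_ (hY x hxK)
      rintro z ⟨hz1, hz2⟩
      have hzy : f z < f y := by linarith
      rw [Finset.mem_coe, hS', Finset.mem_erase]
      exact ⟨fun h => by rw [h] at hzy; exact lt_irrefl _ hzy, hSinit y hy.1 z hz1 hzy⟩
    have hloc := hull_local hm hsc hS'ne (y := y) hε hη2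
      (fun z hz => hmax z (Finset.mem_of_mem_erase (Finset.mem_coe.1 hz))) hnet
    rw [hins] at hloc
    have hKS := hhullK S hSt
    have hstep : Forced (n + 1) (convexHull ℝ (S : Set Plane))
        (α * area (convexHull ℝ (S' : Set Plane))) := by
      refine hforced'.succ_of_small hn ?_
      rintro p ⟨hp, hp'⟩ q ⟨hq, hq'⟩ r hr
      have h1 := hloc p hp hp'
      have h2 := hloc q hq hq'
      have h3 : dist p q ≤ 2 * ε := by
        have := dist_triangle_right p q y
        linarith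
      have h4 := hDb p (hKS hp) r (hKS hr)
      have h5 := triArea_le p q r
      have h6 : dist p q * dist p r ≤ (2 * ε) * D := by
        apply mul_le_mul h3 h4 dist_nonneg (by positivity)
      have h7 := mul_le_mul_of_nonneg_left (hareaS S' hS0S' hS't) hα.le
      linarith
    refine hstep.mono_β (mul_le_mul_of_nonneg_left ?_ hα.le)
    exact area_mono (convexHull_mono (by rw [← hins]; exact subset_insert _ _))
      (hbdd.subset hKS)

end Pool.Agent.helper47.SAlpha
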