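import Pool.Agent.helper47.SAlphaB

open Set MeasureTheory Topology Filter Pointwise

namespace Pool.Agent.helper47.SAlpha

/-- similarity `x ↦ v + r • x` -/
def sim (v : Plane) (r : ℝ) (x : Plane) : Plane := v + r • x

lemma sim_injective (v : Plane) {r : ℝ} (hr : r ≠ 0) : Function.Injective (sim v r) := by
  intro x y h
  simp only [sim, add_right_inj] at h
  exact smul_right_injective _ hr h

lemma triArea_sim (v : Plane) (r : ℝ) (a b c : Plane) :
    triArea (sim v r a) (sim v r b) (sim v r c) = r^2 * triArea a b c := by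
  simp only [sim, triArea_vadd, triArea_smul]

lemma Forced.sim {n : ℕ} {F : Set Plane} {β : ℝ} (h : Forced n F β) (v : Plane) {r : ℝ}
    (hr : r ≠ 0) : Forced n (sim v r '' F) (r^2 * β) := by
  classical
  intro s hs hc
  have hinj := sim_injective v hr
  obtain ⟨t, htF, hts⟩ := Finset.subset_set_image_iff.1 hs
  have htc : t.card = n := by
    rw [← hc, ← hts, Finset.card_image_of_injective _ hinj]
  obtain ⟨a, ha, b, hb, c, hc', h1, h2, h3, h4⟩ := h t htF htc
  refine ⟨_, hts ▸ Finset.mem_image_of_mem _ ha, _, hts ▸ Finset.mem_image_of_mem _ hb,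
    _, hts ▸ Finset.mem_image_of_mem _ hc', hinj.ne h1, hinj.ne h2, hinj.ne h3, ?_⟩
  rw [triArea_sim]
  exact mul_le_mul_of_nonneg_left h4 (sq_nonneg r)

lemma sim_image_eq (v : Plane) (r : ℝ) (F : Set Plane) :
    sim v r '' F = (fun x => v + x) '' (r • F) := by
  rw [← image_smul, image_image]; rfl

lemma area_sim (v : Plane) (r : ℝ) (F : Set Plane) : area (sim v r '' F) = r^2 * area F := by
  rw [area, sim_image_eq, image_add_left, measure_preimage_add, Measure.addHaar_smul]
  simp [area, ENNReal.toReal_mul]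
  exact Or.inl (sq_nonneg r)

lemma IsFigure.sim {F : Set Plane} (h : IsFigure F) (v : Plane) {r : ℝ} (hr : r ≠ 0) :
    IsFigure (sim v r '' F) := by
  rw [sim_image_eq]
  refine ⟨?_, ?_, ?_⟩
  · have := (h.convex.smul r).translate v
    simpa [add_comm] using this
  · exact (h.compact.smul r).image (continuous_const.add continuous_id)
  · have h1 : (fun x => v + x) '' (r • F) = (Homeomorph.addLeft v) '' (r • F) := rfl
    rw [h1, ← (Homeomorph.addLeft v).image_interior]
    apply Nonempty.image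
    rw [interior_smul₀ hr]
    exact h.interior_nonempty.smul_set

lemma sim_sim_inv (v : Plane) {r : ℝ} (hr : r ≠ 0) (F : Set Plane) :
    sim (-(r⁻¹ • v)) r⁻¹ '' (sim v r '' F) = F := by
  rw [image_image]
  have : ∀ x, sim (-(r⁻¹ • v)) r⁻¹ (sim v r x) = x := by
    intro x
    simp only [sim, smul_add, smul_smul, inv_mul_cancel₀ hr, one_smul]
    abel
  simp [this]

lemma forced_sim_iff {n : ℕ} {F : Set Plane} {β : ℝ} (v : Plane) {r : ℝ} (hr : r ≠ 0) :
    Forced n (sim v r '' F) (r^2 * β) ↔ Forced n F β := by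
  refine ⟨fun h => ?_, fun h => h.sim v hr⟩
  have := h.sim (-(r⁻¹ • v)) (inv_ne_zero hr)
  rw [sim_sim_inv v hr] at this
  convert this using 1
  field_simp

lemma convexOn_gauge {F : Set Plane} (hF : Convex ℝ F) (h0 : F ∈ 𝓝 (0 : Plane)) :
    ConvexOn ℝ univ (gauge F) := by
  refine ⟨convex_univ, ?_⟩
  intro x _ y _ a b ha hb hab
  calc gauge F (a • x + b • y) ≤ gauge F (a • x) + gauge F (b • y) :=
        gauge_add_le hF (absorbent_nhds_zero h0) _ _
    _ = a • gauge F x + b • gauge F y := by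
        rw [gauge_smul_of_nonneg ha, gauge_smul_of_nonneg hb]

lemma area_pos {F : Set Plane} (h : IsFigure F) : 0 < area F := by
  apply ENNReal.toReal_pos
  · exact (Measure.measure_pos_of_nonempty_interior volume h.interior_nonempty).ne'
  · exact h.compact.measure_lt_top.ne

/-- Interpolation theorem, case of figures with the origin in their interiors. -/
theorem interp₀ {α β : ℝ} (hα : 0 < α) {n : ℕ} (hn : 2 ≤ n) {F G : Set Plane}
    (hF : IsFigure F) (hG : IsFigure G) (hF0 : (0 : Plane) ∈ interior F)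
    (hG0 : (0 : Plane) ∈ interior G)
    (h1 : Forced (n + 1) F β) (hβ : β < α * area F) (h2 : ¬ Forced n G (α * area G)) :
    ∃ C, IsFigure C ∧ Forced (n + 1) C (α * area C) ∧ ¬ Forced n C (α * area C) := by
  classical
  have hFn : F ∈ 𝓝 (0 : Plane) := mem_interior_iff_mem_nhds.1 hF0
  have hGn : G ∈ 𝓝 (0 : Plane) := mem_interior_iff_mem_nhds.1 hG0
  have hgF := continuous_gauge hF.convex hFn
  have hgG := continuous_gauge hG.convex hGn
  -- the configuration in G
  obtain ⟨Q, hQG, hQc, hQa⟩ : ∃ Q : Finset Plane, (Q : Set Plane) ⊆ G ∧ Q.card = n ∧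
      ∀ a ∈ Q, ∀ b ∈ Q, ∀ c ∈ Q, a ≠ b → a ≠ c → b ≠ c → α * area G < triArea a b c := by
    simp only [Forced, not_forall, not_exists, not_and, not_le] at h2
    obtain ⟨Q, h1, h2, h3⟩ := h2
    exact ⟨Q, h1, h2, fun a ha b hb c hc => h3 a ha b hb c hc⟩
  -- ρ
  obtain ⟨B, hB⟩ := hF.compact.bddAbove_image hgG.continuousOn
  have hB' : ∀ x ∈ F, gauge G x ≤ B := fun x hx => hB (mem_image_of_mem _ hx)
  have hB0 : 0 ≤ B := (gauge_nonneg (s := G) 0).trans (hB' 0 (interior_subset hF0))
  set ρ : ℝ := 2 * B + 1 with hρ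
  have hρpos : 0 < ρ := by positivity
  set G' := ρ • G with hG'
  have hG'c : IsCompact G' := hG.compact.smul ρ
  have hG'area : area G' = ρ^2 * area G := by
    have := area_sim 0 ρ G
    rw [sim_image_eq] at this
    simpa using this
  -- bound of gauge F on G'
  obtain ⟨B₂, hB₂⟩ := hG'c.bddAbove_image hgF.continuousOn
  have hB₂' : ∀ x ∈ G', gauge F x ≤ B₂ := fun x hx => hB₂ (mem_image_of_mem _ hx)
  set a : ℝ := 1 / (|B₂| + 1) with ha
  have hapos : 0 < a := by positivity
  have ha1 : ∀ x ∈ G', a * gauge F x ≤ 1 := by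
    intro x hx
    have h := hB₂' x hx
    have : a * gauge F x ≤ a * (|B₂| + 1) := by
      apply mul_le_mul_of_nonneg_left _ hapos.le
      linarith [le_abs_self B₂]
    rw [ha, one_div, inv_mul_cancel₀ (by positivity)] at this
    rw [ha, one_div]
    exact this
  -- norm bound on G'
  obtain ⟨R, hR⟩ := hG'c.isBounded.exists_norm_le
  -- τ and ε₁
  have hτev : ∀ᶠ τ : ℝ in 𝓝[<] 1, ∀ a ∈ Q, ∀ b ∈ Q, ∀ c ∈ Q, a ≠ b → a ≠ c → b ≠ c →
      α * area G < τ^2 * triArea a b c := by
    simp only [Filter.eventually_all_finset]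
    intro a ha b hb c hc
    by_cases h : a ≠ b ∧ a ≠ c ∧ b ≠ c
    · have hlt := hQa a ha b hb c hc h.1 h.2.1 h.2.2
      have hcont : ContinuousAt (fun τ : ℝ => τ^2 * triArea a b c) 1 := by fun_prop
      have : ∀ᶠ τ : ℝ in 𝓝 1, α * area G < τ^2 * triArea a b c := by
        apply hcont.eventually_const_lt
        simpa using hlt
      exact (this.filter_mono nhdsWithin_le_nhds).mono (fun τ hτ _ _ _ => hτ)
    · refine Filter.Eventually.of_forall fun τ h1 h2 h3 => absurd ⟨h1, h2, h3⟩ h
  have hεev : ∀ᶠ τ : ℝ in 𝓝[<] 1, β < α * (τ^2 * area F) := by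
    have hcont : ContinuousAt (fun τ : ℝ => α * (τ^2 * area F)) 1 := by fun_prop
    have : ∀ᶠ τ : ℝ in 𝓝 1, β < α * (τ^2 * area F) := by
      apply hcont.eventually_const_lt
      simpa using hβ
    exact this.filter_mono nhdsWithin_le_nhds
  have hposev : ∀ᶠ τ : ℝ in 𝓝[<] 1, 0 < τ :=
    (eventually_gt_nhds (by norm_num : (0:ℝ) < 1)).filter_mono nhdsWithin_le_nhds
  obtain ⟨τ, hτ1, hτ2, hτ0, hτlt⟩ :=
    (hτev.and (hεev.and (hposev.and self_mem_nhdsWithin))).exists
  have hτlt : τ < 1 := hτlt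
  -- η₀
  set e := min (a * (1 - τ)) (1 - τ) with he
  have hepos : 0 < e := lt_min (mul_pos hapos (by linarith)) (by linarith)
  have hea : e ≤ a * (1 - τ) := min_le_left _ _
  have he1 : e ≤ 1 - τ := min_le_right _ _
  set μ : ℝ := e / 2 / (R^2 + 1) with hμ
  have hμpos : 0 < μ := by positivity
  have hμR : ∀ x ∈ G', μ * ‖x‖^2 ≤ e / 2 := by
    intro x hx
    have h1 : ‖x‖^2 ≤ R^2 + 1 := by
      have := hR x hx
      nlinarith [norm_nonneg x]
    calc μ * ‖x‖^2 ≤ μ * (R^2 + 1) := mul_le_mul_of_nonneg_left h1 hμpos.le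
      _ = e / 2 := by rw [hμ]; field_simp
  -- the function
  set f₀ : Plane → ℝ := fun x => max (a * (gauge F x - 1)) (4 * (ρ⁻¹ * gauge G x - 1) + 1)
    with hf₀
  set f : Plane → ℝ := fun x => f₀ x + μ * ‖x‖^2 with hf
  have hf₀conv : ConvexOn ℝ univ f₀ := by
    have c1 : ConvexOn ℝ univ (fun x => a * (gauge F x - 1)) := by
      have := ((convexOn_gauge hF.convex hFn).add_const (-1)).smul hapos.le
      simpa [sub_eq_add_neg] using this
    have c2 : ConvexOn ℝ univ (fun x => 4 * (ρ⁻¹ * gauge G x - 1) + 1) := by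
      have h := (((convexOn_gauge hG.convex hGn).smul (inv_nonneg.2 hρpos.le)).add_const
        (-1)).smul (by norm_num : (0:ℝ) ≤ 4)
      have h' : ConvexOn ℝ univ (fun x => (4:ℝ) • ((ρ⁻¹ • gauge G x) + -1) + 1) := h.add_const 1
      simpa [smul_eq_mul, sub_eq_add_neg] using h'
    exact c1.sup c2
  have hfcont : Continuous f := by
    rw [hf, hf₀]; fun_prop
  have hsc : StrongConvexOn univ (2 * μ) f := by
    rw [strongConvexOn_iff_convex]
    have : (fun x => f x - 2 * μ / 2 * ‖x‖^2) = f₀ := by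
      funext x
      show f₀ x + μ * ‖x‖^2 - 2 * μ / 2 * ‖x‖^2 = f₀ x
      ring
    rw [this]
    exact hf₀conv
  -- sublevel sets
  have hsubF : {x | f x ≤ 0} ⊆ F := by
    intro x hx
    have hx' : f x ≤ 0 := hx
    have h1 : f₀ x ≤ 0 := by
      have : 0 ≤ μ * ‖x‖^2 := by positivity
      simp only [hf] at hx'; linarith
    have h2 : a * (gauge F x - 1) ≤ 0 := (le_max_left _ _).trans h1
    have h3 : gauge F x ≤ 1 := by nlinarith
    have := (gauge_le_one_iff_mem_closure hF.convex hFn).1 h3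
    rwa [hF.compact.isClosed.closure_eq] at this
  have hsubG : {x | f x ≤ 1} ⊆ G' := by
    intro x hx
    have hx' : f x ≤ 1 := hx
    have h1 : f₀ x ≤ 1 := by
      have : 0 ≤ μ * ‖x‖^2 := by positivity
      simp only [hf] at hx'; linarith
    have h2 : 4 * (ρ⁻¹ * gauge G x - 1) + 1 ≤ 1 := (le_max_right _ _).trans h1
    have h3 : gauge G (ρ⁻¹ • x) ≤ 1 := by
      rw [gauge_smul_of_nonneg (inv_nonneg.2 hρpos.le), smul_eq_mul]; linarith
    have := (gauge_le_one_iff_mem_closure hG.convex hGn).1 h3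
    rw [hG.compact.isClosed.closure_eq] at this
    rw [hG', mem_smul_set_iff_inv_smul_mem₀ hρpos.ne']
    exact this
  have hFG' : ∀ x ∈ F, ρ⁻¹ * gauge G x ≤ 1 / 2 := by
    intro x hx
    have h := hB' x hx
    rw [inv_mul_le_iff₀ hρpos, hρ]; linarith
  have hFsubG' : F ⊆ G' := by
    intro x hx
    have h := hFG' x hx
    have h3 : gauge G (ρ⁻¹ • x) ≤ 1 := by
      rw [gauge_smul_of_nonneg (inv_nonneg.2 hρpos.le), smul_eq_mul]; linarith
    have := (gauge_le_one_iff_mem_closure hG.convex hGn).1 h3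
    rw [hG.compact.isClosed.closure_eq] at this
    rw [hG', mem_smul_set_iff_inv_smul_mem₀ hρpos.ne']
    exact this
  have hinner : τ • F ⊆ {x | f x ≤ 0 - e / 2} := by
    rintro _ ⟨x, hx, rfl⟩
    show f (τ • x) ≤ 0 - e / 2
    have hτxF : τ • x ∈ F := by
      have := hF.convex hx (interior_subset hF0) hτ0.le (by linarith : 0 ≤ 1 - τ) (by ring)
      simpa using this
    have h1 : gauge F (τ • x) ≤ τ := by
      rw [gauge_smul_of_nonneg hτ0.le, smul_eq_mul]
      have := gauge_le_one_of_mem hx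
      nlinarith
    have h2 := hFG' _ hτxF
    have h3 := hμR _ (hFsubG' hτxF)
    have h4 : f₀ (τ • x) ≤ -e := by
      simp only [hf₀]
      apply max_le
      · nlinarith
      · have : e ≤ 1 := by linarith
        linarith
    simp only [hf]
    linarith
  have hareaτ : τ^2 * area F ≤ area {x | f x ≤ 0 - e / 2} := by
    have h1 : area (τ • F) = τ^2 * area F := by
      have := area_sim 0 τ F
      rw [sim_image_eq] at this
      simpa using this
    rw [← h1]
    refine area_mono hinner (hF.compact.isBounded.subset (fun x hx => hsubF ?_))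
    have hx' : f x ≤ 0 - e / 2 := hx
    show f x ≤ 0
    linarith
  refine chain (t₀ := 0) (t₁ := 1) (η₀ := e / 2) (β := β) (Q := Q.image (fun x => (ρ * τ) • x))
    hα hn hfcont (by positivity : 0 < 2 * μ) hsc one_pos (by positivity)
    (hG'c.isBounded.subset hsubG) ?_ ?_ (h1.anti_F hsubF) ?_ ?_ ?_
  · refine Nonempty.mono (interior_mono hinner) ?_
    rw [interior_smul₀ hτ0.ne']
    exact hF.interior_nonempty.smul_set
  · exact hτ2.le.trans (mul_le_mul_of_nonneg_left hareaτ hα.le)
  · intro y hy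
    rw [Finset.mem_image] at hy
    obtain ⟨x, hx, rfl⟩ := hy
    have hxG : x ∈ G := hQG hx
    have hgx : gauge G x ≤ 1 := gauge_le_one_of_mem hxG
    have hmem : (ρ * τ) • x ∈ G' := by
      rw [hG', mul_smul]
      apply smul_mem_smul_set
      have := hG.convex hxG (interior_subset hG0) hτ0.le (by linarith : 0 ≤ 1 - τ) (by ring)
      simpa using this
    have h3 := hμR _ hmem
    have h5 := ha1 _ hmem
    have h4 : f₀ ((ρ * τ) • x) ≤ 1 - e := by
      simp only [hf₀]
      apply max_le
      · have : e ≤ a := by nlinarith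
        linarith
      · rw [gauge_smul_of_nonneg (by positivity), smul_eq_mul]
        have : ρ⁻¹ * (ρ * τ * gauge G x) = τ * gauge G x := by field_simp
        rw [this]
        nlinarith
    simp only [hf]
    linarith
  · rw [Finset.card_image_of_injective _ (smul_right_injective _ (by positivity)), hQc]
  · intro x hx y hy z hz hxy hxz hyz
    rw [Finset.mem_image] at hx hy hz
    obtain ⟨x', hx', rfl⟩ := hx
    obtain ⟨y', hy', rfl⟩ := hy
    obtain ⟨z', hz', rfl⟩ := hz
    have h := hτ1 x' hx' y' hy' z' hz' (fun h => hxy (by rw [h])) (fun h => hxz (by rw [h]))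
      (fun h => hyz (by rw [h]))
    rw [triArea_smul]
    have h6 : area {x | f x ≤ 1} ≤ area G' := area_mono hsubG hG'c.isBounded
    calc α * area {x | f x ≤ 1} ≤ α * area G' := mul_le_mul_of_nonneg_left h6 hα.le
      _ = ρ^2 * (α * area G) := by rw [hG'area]; ring
      _ < ρ^2 * (τ^2 * triArea x' y' z') := mul_lt_mul_of_pos_left h (by positivity)
      _ = (ρ * τ)^2 * triArea x' y' z' := by ring

/-- Interpolation theorem: if some figure forces a small triangle among `n+1` points with room to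
spare, and some figure does not force one among `n` points, then some figure has exactly the
threshold `n+1`. -/
theorem interp {α β : ℝ} (hα : 0 < α) {n : ℕ} (hn : 2 ≤ n) {F G : Set Plane}
    (hF : IsFigure F) (hG : IsFigure G)
    (h1 : Forced (n + 1) F β) (hβ : β < α * area F) (h2 : ¬ Forced n G (α * area G)) :
    ∃ C, IsFigure C ∧ Forced (n + 1) C (α * area C) ∧ ¬ Forced n C (α * area C) := by
  obtain ⟨p, hp⟩ := hF.interior_nonempty
  obtain ⟨q, hq⟩ := hG.interior_nonempty
  have key : ∀ (F : Set Plane) (p : Plane), p ∈ interior F →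
      (0 : Plane) ∈ interior (sim (-p) 1 '' F) := by
    intro F p hp
    rw [sim_image_eq, one_smul]
    have h1 : (fun x => -p + x) '' F = (Homeomorph.addLeft (-p)) '' F := rfl
    rw [h1, ← (Homeomorph.addLeft (-p)).image_interior]
    exact ⟨p, hp, by simp⟩
  have e1 : ∀ (F : Set Plane) (p : Plane), area (sim p 1 '' F) = area F := by
    intro F p; rw [area_sim]; simp
  have e2 : ∀ (n : ℕ) (F : Set Plane) (p : Plane) (γ : ℝ),
      Forced n (sim p 1 '' F) γ ↔ Forced n F γ := by
    intro n F p γ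
    have := forced_sim_iff (n := n) (F := F) (β := γ) p (one_ne_zero)
    simpa using this
  refine interp₀ (F := sim (-p) 1 '' F) (G := sim (-q) 1 '' G) (β := β) hα hn
    (hF.sim _ one_ne_zero) (hG.sim _ one_ne_zero) (key F p hp) (key G q hq) ?_ ?_ ?_
  · rwa [e2]
  · rwa [e1]
  · rwa [e2, e1]

end Pool.Agent.helper47.SAlpha
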