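import Pool.Agent.helper47.SAlphaC

open Set MeasureTheory Topology Filter Pointwise
open scoped RealInnerProductSpace

namespace Pool.Agent.helper47.SAlpha

lemma sep_unit {F : Set Plane} (hcl : IsClosed F) (hcv : Convex ℝ F) {c : Plane} {r : ℝ}
    (hr : 0 < r) (hball : Metric.ball c r ⊆ F) {w : Plane} (hw : w ∉ F) :
    ∃ v : Plane, ‖v‖ = 1 ∧ ∃ s : ℝ, (∀ p ∈ F, ⟪v, p⟫ ≤ s) ∧ s < ⟪v, w⟫ ∧ ⟪v, c⟫ + r ≤ s := by
  obtain ⟨f, u, hf1, hf2⟩ := geometric_hahn_banach_closed_point hcv hcl hw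
  set v₀ := (InnerProductSpace.toDual ℝ Plane).symm f with hv₀
  have hfv : ∀ x, f x = ⟪v₀, x⟫ := by
    intro x
    rw [hv₀, InnerProductSpace.toDual_symm_apply]
  have hcF : c ∈ F := hball (Metric.mem_ball_self hr)
  have hne : v₀ ≠ 0 := by
    intro h
    have h1 := hf1 c hcF
    rw [hfv, h, inner_zero_left] at h1
    rw [hfv, h, inner_zero_left] at hf2
    linarith
  have hnpos : 0 < ‖v₀‖ := norm_pos_iff.2 hne
  refine ⟨‖v₀‖⁻¹ • v₀, ?_, ‖v₀‖⁻¹ * u, ?_, ?_, ?_⟩
  · rw [norm_smul, norm_inv, norm_norm, inv_mul_cancel₀ hnpos.ne']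
  · intro p hp
    rw [real_inner_smul_left, ← hfv]
    exact mul_le_mul_of_nonneg_left (hf1 p hp).le (by positivity)
  · rw [real_inner_smul_left, ← hfv]
    exact mul_lt_mul_of_pos_left hf2 (by positivity)
  · -- c + r' v ∈ F for r' < r
    apply le_of_forall_pos_lt_add
    intro δ hδ
    set r' := r - min (δ / 2) (r / 2) with hr'
    have hmin : 0 < min (δ / 2) (r / 2) := by positivity
    have hr'r : r' < r := by linarith
    have hr'0 : 0 ≤ r' := by
      have := min_le_right (δ / 2) (r / 2)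
      linarith
    have hmem : c + r' • (‖v₀‖⁻¹ • v₀) ∈ F := by
      apply hball
      rw [Metric.mem_ball, dist_eq_norm, add_sub_cancel_left, norm_smul, norm_smul, norm_inv,
        norm_norm, inv_mul_cancel₀ hnpos.ne', mul_one, Real.norm_of_nonneg hr'0]
      exact hr'r
    have h1 := hf1 _ hmem
    have h2 : f (c + r' • (‖v₀‖⁻¹ • v₀)) = ⟪v₀, c⟫ + r' * ‖v₀‖ := by
      rw [hfv, inner_add_right, real_inner_smul_right, real_inner_smul_right,
        real_inner_self_eq_norm_sq]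
      field_simp
    rw [h2] at h1
    have h3 : ‖v₀‖⁻¹ * (⟪v₀, c⟫ + r' * ‖v₀‖) < ‖v₀‖⁻¹ * u :=
      mul_lt_mul_of_pos_left h1 (by positivity)
    have h4 : ‖v₀‖⁻¹ * (⟪v₀, c⟫ + r' * ‖v₀‖) = ‖v₀‖⁻¹ * ⟪v₀, c⟫ + r' := by
      field_simp
    have h5 := min_le_left (δ / 2) (r / 2)
    rw [real_inner_smul_left]
    linarith

lemma inner_plane (x y : Plane) : ⟪x, y⟫ = x 0 * y 0 + x 1 * y 1 := by
  simp [PiLp.inner_apply, Fin.sum_univ_two]; ring

lemma norm_sq_plane (x : Plane) : ‖x‖^2 = x 0 ^ 2 + x 1 ^ 2 := by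
  rw [EuclideanSpace.norm_sq_eq]; simp [Fin.sum_univ_two]

/-- Three points in a thin strip span a small triangle. -/
lemma triArea_strip {u : Plane} (hu : ‖u‖ = 1) {p q w : Plane} {W D : ℝ}
    (hD1 : dist p q ≤ D) (hD2 : dist p w ≤ D)
    (h1 : |⟪u, q - p⟫| ≤ W) (h2 : |⟪u, w - p⟫| ≤ W) : triArea p q w ≤ W * D := by
  have hW : 0 ≤ W := (abs_nonneg _).trans h1
  have hD : 0 ≤ D := dist_nonneg.trans hD1
  -- the perpendicular coordinates
  have hu2 : u 0 ^ 2 + u 1 ^ 2 = 1 := by rw [← norm_sq_plane, hu]; norm_num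
  set X := q - p with hX
  set Z := w - p with hZ
  have hX0 : X 0 = q 0 - p 0 := rfl
  have hX1 : X 1 = q 1 - p 1 := rfl
  have hZ0 : Z 0 = w 0 - p 0 := rfl
  have hZ1 : Z 1 = w 1 - p 1 := rfl
  have e1 : (q 0 - p 0) * (w 1 - p 1) - (w 0 - p 0) * (q 1 - p 1) =
      ⟪u, X⟫ * (u 0 * Z 1 - u 1 * Z 0) - ⟪u, Z⟫ * (u 0 * X 1 - u 1 * X 0) := by
    rw [inner_plane, inner_plane, ← hX0, ← hX1, ← hZ0, ← hZ1]
    linear_combination (- (X 0 * Z 1) + Z 0 * X 1) * hu2
  have hperp : ∀ Y : Plane, ‖Y‖ ≤ D → |u 0 * Y 1 - u 1 * Y 0| ≤ D := by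
    intro Y hY
    apply abs_le_of_sq_le_sq _ hD
    have h3 : ‖Y‖^2 ≤ D^2 := by
      have := norm_nonneg Y
      nlinarith
    rw [norm_sq_plane] at h3
    nlinarith [sq_nonneg (u 0 * Y 0 + u 1 * Y 1)]
  have hXD : ‖X‖ ≤ D := by rw [hX, ← dist_eq_norm, dist_comm]; exact hD1
  have hZD : ‖Z‖ ≤ D := by rw [hZ, ← dist_eq_norm, dist_comm]; exact hD2
  unfold triArea
  rw [e1]
  have h3 : |⟪u, X⟫ * (u 0 * Z 1 - u 1 * Z 0)| ≤ W * D := by
    rw [abs_mul]; exact mul_le_mul h1 (hperp Z hZD) (abs_nonneg _) hW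
  have h4 : |⟪u, Z⟫ * (u 0 * X 1 - u 1 * X 0)| ≤ W * D := by
    rw [abs_mul]; exact mul_le_mul h2 (hperp X hXD) (abs_nonneg _) hW
  have h5 := abs_sub (⟪u, X⟫ * (u 0 * Z 1 - u 1 * Z 0)) (⟪u, Z⟫ * (u 0 * X 1 - u 1 * X 0))
  linarith

/-- The occupancy lemma: if at most two points can lie outside `F`. -/
lemma Forced.add_two_of_thin {n : ℕ} {F F' : Set Plane} {β : ℝ} (h : Forced n F β)
    (hs : ∀ p ∈ F' \ F, ∀ q ∈ F' \ F, ∀ r ∈ F' \ F, triArea p q r ≤ β) :
    Forced (n + 2) F' β := by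
  classical
  intro s hsF hcard
  by_cases hout : 2 < (s.filter (fun x => x ∉ F)).card
  · obtain ⟨a, ha, b, hb, c, hc, hab, hac, hbc⟩ := Finset.two_lt_card.1 hout
    rw [Finset.mem_filter] at ha hb hc
    exact ⟨a, ha.1, b, hb.1, c, hc.1, hab, hac, hbc,
      hs a ⟨hsF ha.1, ha.2⟩ b ⟨hsF hb.1, hb.2⟩ c ⟨hsF hc.1, hc.2⟩⟩
  · push Not at hout
    have h1 := Finset.card_filter_add_card_filter_not (s := s) (fun x => x ∈ F)
    have h2 : n ≤ (s.filter (fun x => x ∈ F)).card := by omega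
    obtain ⟨t, hts, htc⟩ := Finset.exists_subset_card_eq h2
    obtain ⟨a, ha, b, hb, c, hc', h1, h2, h3, h4⟩ := h t
      (fun x hx => (Finset.mem_filter.1 (hts hx)).2) htc
    exact ⟨a, (Finset.mem_filter.1 (hts ha)).1, b, (Finset.mem_filter.1 (hts hb)).1,
      c, (Finset.mem_filter.1 (hts hc')).1, h1, h2, h3, h4⟩

lemma isCompact_convexHull_insert {F : Set Plane} (hc : IsCompact F) (hcv : Convex ℝ F)
    (hne : F.Nonempty) (y : Plane) : IsCompact (convexHull ℝ (insert y F)) := by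
  have h1 : convexHull ℝ (insert y F) =
      (fun p : ℝ × Plane => (1 - p.1) • y + p.1 • p.2) '' (Icc (0:ℝ) 1 ×ˢ F) := by
    rw [convexHull_insert hne, hcv.convexHull_eq]
    ext w
    rw [mem_convexJoin]
    constructor
    · rintro ⟨y', hy', b, hb, a, t, ha, ht, hat, rfl⟩
      rw [mem_singleton_iff] at hy'
      subst hy'
      refine ⟨(t, b), ⟨⟨ht, by linarith⟩, hb⟩, ?_⟩
      have : a = 1 - t := by linarith
      simp only [this]
    · rintro ⟨⟨t, b⟩, ⟨⟨ht0, ht1⟩, hb⟩, rfl⟩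
      exact ⟨y, rfl, b, hb, 1 - t, t, by linarith, ht0, by ring, rfl⟩
  rw [h1]
  apply (isCompact_Icc.prod hc).image
  fun_prop

theorem thin {F : Set Plane} (hF : IsFigure F) {β : ℝ} (hβ : 0 < β) {n : ℕ}
    (h : Forced n F β) : ∃ F', IsFigure F' ∧ area F < area F' ∧ Forced (n + 2) F' β := by
  classical
  obtain ⟨c, hc⟩ := hF.interior_nonempty
  have hcl := hF.compact.isClosed
  have hFc : (Fᶜ : Set Plane).Nonempty := by
    rw [nonempty_compl]
    intro huniv
    have := hF.compact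
    rw [huniv] at this
    exact noncompact_univ Plane this
  set r := Metric.infDist c Fᶜ with hr
  have hrpos : 0 < r := by
    rw [mem_interior_iff_mem_nhds, Metric.mem_nhds_iff] at hc
    obtain ⟨δ, hδ, hδF⟩ := hc
    have : δ ≤ r := by
      rw [hr]
      apply (Metric.le_infDist hFc).2
      intro y hy
      by_contra hcon
      push Not at hcon
      exact hy (hδF (by rwa [Metric.mem_ball, dist_comm]))
    linarith
  have hball : Metric.ball c r ⊆ F := Metric.ball_infDist_compl_subset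
  obtain ⟨D, hD, hDb⟩ : ∃ D : ℝ, 0 < D ∧ ∀ p ∈ F, dist p c ≤ D := by
    obtain ⟨D, hD⟩ := hF.compact.isBounded.subset_closedBall c
    refine ⟨|D| + 1, by positivity, fun p hp => ?_⟩
    have := hD hp
    rw [Metric.mem_closedBall] at this
    linarith [le_abs_self D]
  -- choose ε
  set g : ℝ → ℝ := fun ε => (ε + 2 * (D + r + ε) * Real.sqrt (2 * ε / r)) * (2 * (D + r + ε))
    with hg
  have hgc : Continuous g := by
    rw [hg]; fun_prop
  have hg0 : g 0 = 0 := by simp [hg]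
  obtain ⟨ε, hε, hgε⟩ : ∃ ε : ℝ, 0 < ε ∧ g ε < β := by
    have h1 : ∀ᶠ ε in 𝓝[>] (0:ℝ), g ε < β := by
      have : ∀ᶠ ε in 𝓝 (0:ℝ), g ε < β := by
        apply hgc.continuousAt.eventually_lt_const
        rw [hg0]; exact hβ
      exact this.filter_mono nhdsWithin_le_nhds
    obtain ⟨ε, h2, h3⟩ := (h1.and self_mem_nhdsWithin).exists
    exact ⟨ε, h3, h2⟩
  obtain ⟨y, hyF, hyd⟩ : ∃ y ∈ Fᶜ, dist c y < r + ε :=
    (Metric.infDist_lt_iff hFc).1 (by rw [← hr]; linarith)
  have hyF : y ∉ F := hyF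
  have hFne : F.Nonempty := ⟨c, interior_subset hc⟩
  have hyr : r ≤ dist c y := by rw [hr]; exact Metric.infDist_le_dist_of_mem hyF
  set ρ := dist c y with hρ
  have hρpos : 0 < ρ := by linarith
  set u : Plane := ρ⁻¹ • (y - c) with hu
  have hun : ‖u‖ = 1 := by
    rw [hu, norm_smul, norm_inv, ← dist_eq_norm, dist_comm y c, ← hρ,
      Real.norm_of_nonneg hρpos.le, inv_mul_cancel₀ hρpos.ne']
  have hyc : y - c = ρ • u := by
    rw [hu, smul_smul, mul_inv_cancel₀ hρpos.ne', one_smul]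
  set F' := convexHull ℝ (insert y F) with hF'
  have hFF' : F ⊆ F' := (subset_insert _ _).trans (subset_convexHull ℝ _)
  have hyF' : y ∈ F' := subset_convexHull ℝ _ (mem_insert _ _)
  have hF'fig : IsFigure F' := by
    refine ⟨convex_convexHull ℝ _, isCompact_convexHull_insert hF.compact hF.convex hFne y, ?_⟩
    exact hF.interior_nonempty.mono (interior_mono hFF')
  -- all points of F' are within D + r + ε of c
  have hF'D : ∀ p ∈ F', dist p c ≤ D + r + ε := by
    have : F' ⊆ Metric.closedBall c (D + r + ε) := by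
      apply convexHull_min _ (convex_closedBall _ _)
      intro p hp
      rw [Metric.mem_closedBall]
      rcases mem_insert_iff.1 hp with rfl | hp
      · rw [dist_comm, ← hρ]; linarith
      · have := hDb p hp; linarith
    intro p hp
    exact Metric.mem_closedBall.1 (this hp)
  set κ := Real.sqrt (2 * ε / r) with hκ
  have hκ0 : 0 ≤ κ := Real.sqrt_nonneg _
  -- separating directions are close to u
  have hclose : ∀ w ∈ F' \ F, ∃ v : Plane, ‖v‖ = 1 ∧ ‖u - v‖ ≤ κ ∧ ∃ s, (∀ p ∈ F, ⟪v, p⟫ ≤ s) ∧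
      s < ⟪v, w⟫ ∧ ⟪v, c⟫ + r ≤ s := by
    rintro w ⟨hwF', hwF⟩
    obtain ⟨v, hv, s, hs1, hs2, hs3⟩ := sep_unit hcl hF.convex hrpos hball hwF
    refine ⟨v, hv, ?_, s, hs1, hs2, hs3⟩
    -- ⟪v, y⟫ > s
    have hvy : s < ⟪v, y⟫ := by
      by_contra hcon
      push Not at hcon
      have hsub : F' ⊆ {x | ⟪v, x⟫ ≤ s} := by
        apply convexHull_min
        · intro x hx
          rcases mem_insert_iff.1 hx with rfl | hx
          · exact hcon
          · exact hs1 x hx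
        · exact convex_halfSpace_le (f := fun x => ⟪v, x⟫)
            ⟨fun a b => inner_add_right _ _ _, fun a b => by
              simp [real_inner_smul_right]⟩ s
      have h1 : ⟪v, w⟫ ≤ s := hsub hwF'
      linarith
    have h1 : r < ρ * ⟪v, u⟫ := by
      have : ⟪v, y⟫ = ⟪v, c⟫ + ρ * ⟪v, u⟫ := by
        rw [← real_inner_smul_right, ← hyc, ← inner_add_right]
        congr 1; abel
      linarith
    have h2 : 1 - ε / r ≤ ⟪v, u⟫ := by
      have h3 : 0 < ⟪v, u⟫ := by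
        by_contra hcon
        push Not at hcon
        nlinarith
      have h4 : r < (r + ε) * ⟪v, u⟫ := by nlinarith
      have h5 : ⟪v, u⟫ ≤ 1 := by
        have := real_inner_le_norm v u
        rw [hv, hun] at this; linarith
      have h6 : r - ε < r * ⟪v, u⟫ := by nlinarith
      rw [sub_le_iff_le_add, ← sub_le_iff_le_add', le_div_iff₀ hrpos]
      nlinarith
    have h3 : ‖u - v‖^2 ≤ 2 * ε / r := by
      rw [norm_sub_sq_real, hun, hv, real_inner_comm]
      have : 2 * ε / r = 2 * (ε / r) := by ring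
      rw [this]; linarith
    rw [hκ]
    exact Real.le_sqrt_of_sq_le h3
  -- upper bound for the u-coordinate
  obtain ⟨vy, hvy1, hvy2, sy, hsy1, hsy2, hsy3⟩ := hclose y ⟨hyF', hyF⟩
  have hupper : ∀ p ∈ F', ⟪u, p - c⟫ ≤ r + ε + (D + r + ε) * κ := by
    have hsub : F' ⊆ {x | ⟪vy, x⟫ ≤ ⟪vy, y⟫} := by
      apply convexHull_min
      · intro x hx
        rcases mem_insert_iff.1 hx with rfl | hx
        · show ⟪vy, x⟫ ≤ ⟪vy, x⟫
          exact le_rfl
        · exact (hsy1 x hx).trans hsy2.le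
      · exact convex_halfSpace_le (f := fun x => ⟪vy, x⟫)
          ⟨fun a b => inner_add_right _ _ _, fun a b => by
            simp [real_inner_smul_right]⟩ _
    intro p hp
    have h1 : ⟪vy, p⟫ ≤ ⟪vy, y⟫ := hsub hp
    have h2 : ⟪u, p - c⟫ = ⟪vy, p - c⟫ + ⟪u - vy, p - c⟫ := by
      rw [inner_sub_left]; ring
    have h3 : ⟪vy, p - c⟫ ≤ ⟪vy, y - c⟫ := by
      rw [inner_sub_right, inner_sub_right]; linarith
    have h4 : ⟪vy, y - c⟫ ≤ ρ := by
      have := real_inner_le_norm vy (y - c)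
      rw [hvy1, one_mul, ← dist_eq_norm, dist_comm y c, ← hρ] at this
      exact this
    have h5 : ⟪u - vy, p - c⟫ ≤ (D + r + ε) * κ := by
      have h6 := real_inner_le_norm (u - vy) (p - c)
      have h7 : ‖p - c‖ ≤ D + r + ε := by rw [← dist_eq_norm]; exact hF'D p hp
      calc ⟪u - vy, p - c⟫ ≤ ‖u - vy‖ * ‖p - c‖ := h6
        _ ≤ κ * (D + r + ε) := mul_le_mul hvy2 h7 (norm_nonneg _) hκ0
        _ = (D + r + ε) * κ := mul_comm _ _
    linarith
  have hlower : ∀ p ∈ F' \ F, r - (D + r + ε) * κ ≤ ⟪u, p - c⟫ := by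
    intro p hp
    obtain ⟨v, hv1, hv2, s, hs1, hs2, hs3⟩ := hclose p hp
    have h2 : ⟪u, p - c⟫ = ⟪v, p - c⟫ + ⟪u - v, p - c⟫ := by
      rw [inner_sub_left]; ring
    have h3 : r ≤ ⟪v, p - c⟫ := by
      rw [inner_sub_right]; linarith
    have h5 : -((D + r + ε) * κ) ≤ ⟪u - v, p - c⟫ := by
      have h6 := abs_real_inner_le_norm (u - v) (p - c)
      have h7 : ‖p - c‖ ≤ D + r + ε := by rw [← dist_eq_norm]; exact hF'D p hp.1
      have h8 : ‖u - v‖ * ‖p - c‖ ≤ κ * (D + r + ε) :=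
        mul_le_mul hv2 h7 (norm_nonneg _) hκ0
      have h9 := (abs_le.1 (h6.trans h8)).1
      linarith
    linarith
  refine ⟨F', hF'fig, ?_, ?_⟩
  · -- area strictly larger
    have hopen : (interior F' ∩ Fᶜ).Nonempty := by
      have h1 : y ∈ closure (interior F') := by
        rw [hF'fig.convex.closure_interior_eq_closure_of_nonempty_interior
          hF'fig.interior_nonempty]
        exact subset_closure hyF'
      rw [mem_closure_iff] at h1
      obtain ⟨z, hz1, hz2⟩ := h1 Fᶜ hcl.isOpen_compl hyF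
      exact ⟨z, hz2, hz1⟩
    have hpos : 0 < volume (interior F' ∩ Fᶜ) :=
      (isOpen_interior.inter hcl.isOpen_compl).measure_pos volume hopen
    have h1 : volume F + volume (interior F' ∩ Fᶜ) ≤ volume F' := by
      rw [← measure_union]
      · exact measure_mono (union_subset hFF' (inter_subset_left.trans interior_subset))
      · exact disjoint_left.2 fun x hx hx' => hx'.2 hx
      · exact (isOpen_interior.inter hcl.isOpen_compl).measurableSet
    have h2 : volume F < volume F' := by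
      refine lt_of_lt_of_le ?_ h1
      exact ENNReal.lt_add_right hF.compact.measure_lt_top.ne hpos.ne'
    exact (ENNReal.toReal_lt_toReal hF.compact.measure_lt_top.ne
      hF'fig.compact.measure_lt_top.ne).2 h2
  · refine h.add_two_of_thin ?_
    intro p hp q hq w hw
    have hd : ∀ a ∈ F' \ F, ∀ b ∈ F' \ F, |⟪u, b - a⟫| ≤ ε + 2 * (D + r + ε) * κ := by
      intro a ha b hb
      have h1 := hupper a ha.1
      have h2 := hupper b hb.1
      have h3 := hlower a ha
      have h4 := hlower b hb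
      have h5 : ⟪u, b - a⟫ = ⟪u, b - c⟫ - ⟪u, a - c⟫ := by
        rw [← inner_sub_right]; congr 1; abel
      rw [h5, abs_le]
      constructor <;> nlinarith
    have hdist : ∀ a ∈ F' \ F, ∀ b ∈ F' \ F, dist a b ≤ 2 * (D + r + ε) := by
      intro a ha b hb
      have h1 := hF'D a ha.1
      have h2 := hF'D b hb.1
      have h3 := dist_triangle_right a b c
      linarith
    have h1 := triArea_strip hun (hdist p hp q hq) (hdist p hp w hw) (hd p hp q hq) (hd p hp w hw)
    have h2 : (ε + 2 * (D + r + ε) * κ) * (2 * (D + r + ε)) = g ε := rfl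
    linarith

end Pool.Agent.helper47.SAlpha
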