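import Pool.Agent.helper47.SAlphaD

open Set MeasureTheory Topology Filter Pointwise

namespace Pool.Agent.helper47.SAlpha

lemma volume_triangle (a b c : Plane) :
    ENNReal.ofReal (triArea a b c) ≤ volume (convexHull ℝ ({a, b, c} : Set Plane)) := by
  set T := convexHull ℝ ({a, b, c} : Set Plane) with hT
  have hTc : IsCompact T := (Set.toFinite _).isCompact_convexHull ℝ
  have hTm : MeasurableSet T := hTc.isClosed.measurableSet
  have haT : a ∈ T := subset_convexHull ℝ _ (by simp)
  have hbT : b ∈ T := subset_convexHull ℝ _ (by simp)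
  have hcT : c ∈ T := subset_convexHull ℝ _ (by simp)
  have hTcv : Convex ℝ T := convex_convexHull ℝ _
  have hmem : ∀ s t : ℝ, 0 ≤ s → 0 ≤ t → s + t ≤ 1 → a + s • (b - a) + t • (c - a) ∈ T := by
    intro s t hs ht hst
    have h1 : (1 - s - t) • a + (s • b + t • c) = a + s • (b - a) + t • (c - a) := by module
    rw [← h1]
    have h2 := hTcv.sum_mem (t := Finset.univ) (w := ![1 - s - t, s, t]) (z := ![a, b, c])
      (by intro i _; fin_cases i <;> simp <;> linarith)
      (by simp [Fin.sum_univ_three]; ring)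
      (by intro i _; fin_cases i <;> simp [haT, hbT, hcT])
    simpa [Fin.sum_univ_three, add_assoc] using h2
  set v : Fin 2 → Plane := ![b - a, c - a] with hv
  have hdet : volume (parallelepiped v) = ENNReal.ofReal (2 * triArea a b c) := by
    rw [← (EuclideanSpace.basisFun (Fin 2) ℝ).addHaar_eq_volume, Measure.addHaar_parallelepiped,
      Module.Basis.det_apply, Matrix.det_fin_two]
    congr 1
    unfold triArea
    simp only [Module.Basis.toMatrix_apply, OrthonormalBasis.coe_toBasis_repr_apply,
      EuclideanSpace.basisFun_repr, hv, Matrix.cons_val_zero, Matrix.cons_val_one, PiLp.sub_apply]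
    ring_nf
  have hsub : (fun x => a + x) '' (parallelepiped v) ⊆ T ∪ (fun x => (b + c) - x) ⁻¹' T := by
    rintro _ ⟨x, hx, rfl⟩
    rw [mem_parallelepiped_iff] at hx
    obtain ⟨t, ht, rfl⟩ := hx
    have ht0 := ht.1 0
    have ht1 := ht.1 1
    have ht2 := ht.2 0
    have ht3 := ht.2 1
    simp only [Pi.zero_apply, Pi.one_apply] at ht0 ht1 ht2 ht3
    simp only [Fin.sum_univ_two, hv, Matrix.cons_val_zero, Matrix.cons_val_one]
    by_cases h : t 0 + t 1 ≤ 1
    · left
      have := hmem (t 0) (t 1) ht0 ht1 h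
      rwa [add_assoc] at this
    · right
      push Not at h
      have h1 := hmem (1 - t 0) (1 - t 1) (by linarith) (by linarith) (by linarith)
      show b + c - (a + (t 0 • (b - a) + t 1 • (c - a))) ∈ T
      have h2 : b + c - (a + (t 0 • (b - a) + t 1 • (c - a))) =
        a + (1 - t 0) • (b - a) + (1 - t 1) • (c - a) := by module
      rwa [h2]
  have h1 : ENNReal.ofReal (2 * triArea a b c) ≤ 2 * volume T := by
    rw [← hdet]
    calc volume (parallelepiped v) = volume ((fun x => a + x) '' (parallelepiped v)) := by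
          rw [image_add_left, measure_preimage_add]
      _ ≤ volume (T ∪ (fun x => (b + c) - x) ⁻¹' T) := measure_mono hsub
      _ ≤ volume T + volume ((fun x => (b + c) - x) ⁻¹' T) := measure_union_le _ _
      _ = volume T + volume T := by
          rw [((volume : Measure Plane).measurePreserving_sub_left (b + c)).measure_preimage
            hTm.nullMeasurableSet]
      _ = 2 * volume T := by ring
  have h2 : ENNReal.ofReal (2 * triArea a b c) = 2 * ENNReal.ofReal (triArea a b c) := by
    rw [ENNReal.ofReal_mul (by norm_num)]; simp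
  rw [h2] at h1
  exact (ENNReal.mul_le_mul_iff_right (by norm_num) (by norm_num)).1 h1

lemma exists_smallest {ι : Type*} [DecidableEq ι] (f : ι → ℝ) (s : Finset ι) (k : ℕ)
    (hk : k ≤ s.card) : ∃ t ⊆ s, t.card = k ∧ ∀ x ∈ t, ∀ y ∈ s \ t, f x ≤ f y := by
  induction k with
  | zero => exact ⟨∅, by simp, rfl, by simp⟩
  | succ k ih =>
    obtain ⟨t, hts, htc, ht⟩ := ih (by omega)
    have hne : (s \ t).Nonempty := by
      rw [← Finset.card_pos, Finset.card_sdiff_of_subset hts]; omega
    obtain ⟨m, hm, hmin⟩ := Finset.exists_min_image (s \ t) f hne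
    rw [Finset.mem_sdiff] at hm
    refine ⟨insert m t, Finset.insert_subset hm.1 hts, ?_, ?_⟩
    · rw [Finset.card_insert_of_notMem hm.2, htc]
    · intro x hx y hy
      rw [Finset.mem_sdiff, Finset.mem_insert, not_or] at hy
      rcases Finset.mem_insert.1 hx with rfl | hx
      · exact hmin y (Finset.mem_sdiff.2 ⟨hy.1, hy.2.2⟩)
      · exact ht x hx y (Finset.mem_sdiff.2 ⟨hy.1, hy.2.2⟩)

lemma volume_line (t : ℝ) : volume {x : Plane | x 0 = t} = 0 := by
  have h : {x : Plane | x 0 = t} = (WithLp.ofLp) ⁻¹' {f : Fin 2 → ℝ | f 0 = t} := rfl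
  rw [h, (PiLp.volume_preserving_ofLp (Fin 2)).measure_preimage]
  · exact Measure.pi_hyperplane (fun _ : Fin 2 => (volume : Measure ℝ)) 0 t
  · exact (measurableSet_eq_fun (measurable_pi_apply 0) measurable_const).nullMeasurableSet

/-- `3N` points of a convex set with all triangles of area at least `β` need area `N β`. -/
lemma strips (N : ℕ) : ∀ (F : Set Plane), Convex ℝ F → MeasurableSet F → ∀ (s : Finset Plane),
    (s : Set Plane) ⊆ F → 3 * N ≤ s.card → ∀ β : ℝ,
    (∀ a ∈ s, ∀ b ∈ s, ∀ c ∈ s, a ≠ b → a ≠ c → b ≠ c → β ≤ triArea a b c) →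
    (N : ENNReal) * ENNReal.ofReal β ≤ volume F := by
  classical
  induction N with
  | zero => intro F _ _ s _ _ β _; simp
  | succ N ih =>
    intro F hcv hm s hsF hcard β hβ
    obtain ⟨t, hts, htc, ht⟩ := exists_smallest (fun x : Plane => x 0) s 3 (by omega)
    have htne : t.Nonempty := Finset.card_pos.1 (by omega)
    obtain ⟨z, hz, hzmax⟩ := Finset.exists_max_image t (fun x : Plane => x 0) htne
    obtain ⟨a, b, c, hab, hac, hbc, habc⟩ := Finset.card_eq_three.1 htc
    have hat : a ∈ t := by rw [habc]; simp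
    have hbt : b ∈ t := by rw [habc]; simp
    have hct : c ∈ t := by rw [habc]; simp
    set τ := z 0 with hτ
    have hlin : IsLinearMap ℝ (fun x : Plane => x 0) :=
      ⟨fun x y => by simp, fun r x => by simp⟩
    have hle : Convex ℝ {x : Plane | x 0 ≤ τ} := convex_halfSpace_le hlin τ
    have hge : Convex ℝ {x : Plane | τ ≤ x 0} := convex_halfSpace_ge hlin τ
    have hcont : Continuous (fun x : Plane => x 0) := by fun_prop
    have hmle : MeasurableSet {x : Plane | x 0 ≤ τ} :=
      (isClosed_le hcont continuous_const).measurableSet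
    have hmge : MeasurableSet {x : Plane | τ ≤ x 0} :=
      (isClosed_le continuous_const hcont).measurableSet
    -- first part
    have h1 : ENNReal.ofReal β ≤ volume (F ∩ {x : Plane | x 0 ≤ τ}) := by
      have h2 : convexHull ℝ ({a, b, c} : Set Plane) ⊆ F ∩ {x : Plane | x 0 ≤ τ} := by
        apply convexHull_min _ (hcv.inter hle)
        intro x hx
        have hxt : x ∈ t := by
          rw [habc]; simpa using hx
        exact ⟨hsF (hts hxt), hzmax x hxt⟩
      calc ENNReal.ofReal β ≤ ENNReal.ofReal (triArea a b c) :=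
            ENNReal.ofReal_le_ofReal (hβ a (hts hat) b (hts hbt) c (hts hct) hab hac hbc)
        _ ≤ volume (convexHull ℝ ({a, b, c} : Set Plane)) := volume_triangle a b c
        _ ≤ _ := measure_mono h2
    -- second part
    have h3 : (N : ENNReal) * ENNReal.ofReal β ≤ volume (F ∩ {x : Plane | τ ≤ x 0}) := by
      apply ih _ (hcv.inter hge) (hm.inter hmge) (s \ t)
      · intro x hx
        rw [Finset.mem_coe] at hx
        exact ⟨hsF (Finset.mem_sdiff.1 hx).1, ht z hz x hx⟩
      · rw [Finset.card_sdiff_of_subset hts]; omega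
      · intro a ha b hb c hc
        exact hβ a (Finset.mem_sdiff.1 ha).1 b (Finset.mem_sdiff.1 hb).1 c (Finset.mem_sdiff.1 hc).1
    have h4 : volume (F ∩ {x : Plane | x 0 ≤ τ}) + volume (F ∩ {x : Plane | τ ≤ x 0}) ≤ volume F := by
      have h5 : volume (F ∩ {x : Plane | τ ≤ x 0}) ≤ volume (F ∩ {x : Plane | x 0 ≤ τ}ᶜ) := by
        have hsub : F ∩ {x : Plane | τ ≤ x 0} ⊆
            (F ∩ {x : Plane | x 0 ≤ τ}ᶜ) ∪ {x : Plane | x 0 = τ} := by
          rintro x ⟨hx1, hx2⟩
          rcases eq_or_lt_of_le (show τ ≤ x 0 from hx2) with h | h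
          · right; exact h.symm
          · left; exact ⟨hx1, fun h' => absurd h (not_lt.2 h')⟩
        calc _ ≤ volume ((F ∩ {x : Plane | x 0 ≤ τ}ᶜ) ∪ {x : Plane | x 0 = τ}) :=
              measure_mono hsub
          _ ≤ volume (F ∩ {x : Plane | x 0 ≤ τ}ᶜ) + volume {x : Plane | x 0 = τ} :=
              measure_union_le _ _
          _ = _ := by rw [volume_line, add_zero]
      have h6 := measure_inter_add_sdiff F hmle (μ := volume)
      rw [Set.sdiff_eq] at h6
      calc _ ≤ volume (F ∩ {x : Plane | x 0 ≤ τ}) + volume (F ∩ {x : Plane | x 0 ≤ τ}ᶜ) := by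
            gcongr
        _ = volume F := h6
    calc ((N + 1 : ℕ) : ENNReal) * ENNReal.ofReal β
        = ENNReal.ofReal β + (N : ENNReal) * ENNReal.ofReal β := by push_cast; ring
      _ ≤ _ := add_le_add h1 h3
      _ ≤ volume F := h4

/-- A bound for the number of points that is uniform over all figures of area one. -/
lemma forced_of_large {F : Set Plane} (hF : IsFigure F) (hv : volume F = 1) {α : ℝ} {N : ℕ}
    (hN : 1 < N * α) : Forced (3 * N) F α := by
  intro s hs hc
  by_contra hcon
  simp only [not_exists, not_and, not_le] at hcon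
  have h1 := strips N F hF.convex hF.compact.isClosed.measurableSet s hs hc.ge α
    (fun a ha b hb c hc' h1 h2 h3 => (hcon a ha b hb c hc' h1 h2 h3).le)
  rw [hv] at h1
  have hα : 0 ≤ α := by
    by_contra h
    push Not at h
    have : (N : ℝ) * α ≤ 0 := mul_nonpos_of_nonneg_of_nonpos (Nat.cast_nonneg _) h.le
    linarith
  have h2 : (N : ENNReal) * ENNReal.ofReal α = ENNReal.ofReal (N * α) := by
    rw [ENNReal.ofReal_mul (Nat.cast_nonneg _), ENNReal.ofReal_natCast]
  rw [h2, ENNReal.ofReal_le_one] at h1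
  linarith

end Pool.Agent.helper47.SAlpha
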