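import Pool.Agent.helper47.SAlphaE

open Set MeasureTheory Topology Filter

namespace Pool.Agent.helper47.SAlpha

lemma triArea_affine (a u v : Plane) (s₁ t₁ s₂ t₂ s₃ t₃ : ℝ) :
    triArea (a + s₁ • u + t₁ • v) (a + s₂ • u + t₂ • v) (a + s₃ • u + t₃ • v) =
      |(s₂ - s₁) * (t₃ - t₁) - (s₃ - s₁) * (t₂ - t₁)| * triArea a (a + u) (a + v) := by
  unfold triArea
  simp only [PiLp.add_apply, PiLp.smul_apply, smul_eq_mul]
  rw [← mul_div_assoc, ← abs_mul]
  congr 2
  ring

lemma continuous_triArea : Continuous fun p : Plane × Plane × Plane =>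
    triArea p.1 p.2.1 p.2.2 := by
  unfold triArea
  fun_prop

lemma volume_parallelogram (a b c : Plane) :
    volume (parallelepiped ![(2 : ℝ) • (b - a), (2 : ℝ) • (c - a)]) =
      ENNReal.ofReal (8 * triArea a b c) := by
  rw [← (EuclideanSpace.basisFun (Fin 2) ℝ).addHaar_eq_volume, Measure.addHaar_parallelepiped,
    Module.Basis.det_apply, Matrix.det_fin_two]
  congr 1
  unfold triArea
  simp only [Module.Basis.toMatrix_apply, OrthonormalBasis.coe_toBasis_repr_apply,
    EuclideanSpace.basisFun_repr, Matrix.cons_val_zero, Matrix.cons_val_one, PiLp.sub_apply,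
    PiLp.smul_apply, smul_eq_mul]
  have h : ∀ x : ℝ, 8 * (|x| / 2) = |4 * x| := by
    intro x
    rw [abs_mul]
    norm_num
    ring
  rw [h]
  congr 1
  ring

/-- A convex figure of area one contains a triangle of area at least `1 / 8`. -/
lemma exists_triangle {F : Set Plane} (hF : IsFigure F) (hv : volume F = 1) :
    ∃ a ∈ F, ∃ b ∈ F, ∃ c ∈ F, 1 / 8 ≤ triArea a b c := by
  obtain ⟨p, hp⟩ := hF.interior_nonempty
  have hpF := interior_subset hp
  obtain ⟨⟨a, b, c⟩, habc, hmax⟩ := (hF.compact.prod (hF.compact.prod hF.compact)).exists_isMaxOn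
    ⟨(p, p, p), hpF, hpF, hpF⟩ continuous_triArea.continuousOn
  obtain ⟨ha, hb, hc⟩ : a ∈ F ∧ b ∈ F ∧ c ∈ F := habc
  have hmax' : ∀ x ∈ F, ∀ y ∈ F, ∀ z ∈ F, triArea x y z ≤ triArea a b c := by
    intro x hx y hy z hz
    exact hmax (show (x, y, z) ∈ F ×ˢ F ×ˢ F from ⟨hx, hy, hz⟩)
  have hpos : 0 < triArea a b c := by
    obtain ⟨ε, hε, hball⟩ := Metric.isOpen_iff.1 isOpen_interior p hp
    have h1 : ∀ i : Fin 2, p + (ε / 2) • EuclideanSpace.single i (1 : ℝ) ∈ F := by
      intro i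
      apply interior_subset
      apply hball
      rw [Metric.mem_ball, dist_eq_norm]
      have : p + (ε / 2) • EuclideanSpace.single i (1 : ℝ) - p =
        (ε / 2) • EuclideanSpace.single i (1 : ℝ) := by abel
      rw [this, norm_smul, PiLp.norm_single]
      simp only [Real.norm_eq_abs, abs_one, mul_one]
      rw [abs_of_pos (by positivity)]
      linarith
    refine lt_of_lt_of_le ?_ (hmax' p hpF _ (h1 0) _ (h1 1))
    unfold triArea
    simp
    positivity
  refine ⟨a, ha, b, hb, c, hc, ?_⟩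
  set D : ℝ := (b 0 - a 0) * (c 1 - a 1) - (c 0 - a 0) * (b 1 - a 1) with hD
  have hDT : triArea a b c = |D| / 2 := rfl
  have hD0 : D ≠ 0 := by
    intro h
    rw [hDT, h] at hpos
    simp at hpos
  have hDpos : 0 < |D| := abs_pos.2 hD0
  have hsub : F ⊆ (fun x => (a - (b - a) - (c - a)) + x) ''
      parallelepiped ![(2 : ℝ) • (b - a), (2 : ℝ) • (c - a)] := by
    intro x hx
    set s : ℝ := ((x 0 - a 0) * (c 1 - a 1) - (c 0 - a 0) * (x 1 - a 1)) / D with hs
    set t : ℝ := ((b 0 - a 0) * (x 1 - a 1) - (x 0 - a 0) * (b 1 - a 1)) / D with ht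
    have hs1 : |s| ≤ 1 := by
      rw [hs, abs_div, div_le_one hDpos]
      have := hmax' a ha x hx c hc
      unfold triArea at this
      linarith
    have ht1 : |t| ≤ 1 := by
      rw [ht, abs_div, div_le_one hDpos]
      have := hmax' a ha b hb x hx
      unfold triArea at this
      linarith
    rw [abs_le] at hs1 ht1
    refine ⟨((s + 1) / 2) • ((2 : ℝ) • (b - a)) + ((t + 1) / 2) • ((2 : ℝ) • (c - a)), ?_, ?_⟩
    · rw [mem_parallelepiped_iff]
      refine ⟨![(s + 1) / 2, (t + 1) / 2], ⟨?_, ?_⟩, ?_⟩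
      · intro i; fin_cases i
        · simp; linarith
        · simp; linarith
      · intro i; fin_cases i
        · simp; linarith
        · simp; linarith
      · simp [Fin.sum_univ_two]
    · have hx' : x = a + s • (b - a) + t • (c - a) := by
        ext i
        fin_cases i
        · simp only [PiLp.add_apply, PiLp.smul_apply, PiLp.sub_apply, smul_eq_mul, Fin.mk_zero]
          rw [hs, ht]
          field_simp
          rw [hD]
          ring
        · simp only [PiLp.add_apply, PiLp.smul_apply, PiLp.sub_apply, smul_eq_mul, Fin.mk_one]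
          rw [hs, ht]
          field_simp
          rw [hD]
          ring
      rw [hx']
      module
  have h1 : (1 : ENNReal) ≤ ENNReal.ofReal (8 * triArea a b c) := by
    calc (1 : ENNReal) = volume F := hv.symm
      _ ≤ _ := measure_mono hsub
      _ = _ := by rw [image_add_left, measure_preimage_add, volume_parallelogram]
  rw [ENNReal.one_le_ofReal] at h1
  linarith

/-- The construction of Erdős: the determinants of the points `(i, i² mod p)`. -/
lemma erdos_det {p : ℕ} [Fact p.Prime] {i j k : ℕ} (hi : i < p) (hj : j < p) (hk : k < p)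
    (hij : i ≠ j) (hik : i ≠ k) (hjk : j ≠ k) :
    (1 : ℝ) ≤ |((j : ℝ) - i) * (((k ^ 2 % p : ℕ) : ℝ) - ((i ^ 2 % p : ℕ) : ℝ)) -
      ((k : ℝ) - i) * (((j ^ 2 % p : ℕ) : ℝ) - ((i ^ 2 % p : ℕ) : ℝ))| := by
  set D : ℤ := ((j : ℤ) - i) * (((k ^ 2 % p : ℕ) : ℤ) - ((i ^ 2 % p : ℕ) : ℤ)) -
      ((k : ℤ) - i) * (((j ^ 2 % p : ℕ) : ℤ) - ((i ^ 2 % p : ℕ) : ℤ)) with hD
  have hne : ∀ x y : ℕ, x < p → y < p → x ≠ y → ((x : ZMod p) - y) ≠ 0 := by
    intro x y hx hy hxy h
    rw [sub_eq_zero, ZMod.natCast_eq_natCast_iff', Nat.mod_eq_of_lt hx, Nat.mod_eq_of_lt hy] at h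
    exact hxy h
  have hDp : (D : ZMod p) = ((j : ZMod p) - i) * ((k : ZMod p) - i) * ((k : ZMod p) - j) := by
    rw [hD]
    simp only [Int.cast_sub, Int.cast_mul, Int.cast_natCast, ZMod.natCast_mod, Nat.cast_pow]
    ring
  have hD0 : D ≠ 0 := by
    intro h
    rw [h, Int.cast_zero] at hDp
    exact mul_ne_zero (mul_ne_zero (hne j i hj hi (Ne.symm hij)) (hne k i hk hi (Ne.symm hik)))
      (hne k j hk hj (Ne.symm hjk)) hDp.symm
  have h1 : (1 : ℤ) ≤ |D| := Int.one_le_abs hD0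
  have h2 : (1 : ℝ) ≤ ((|D| : ℤ) : ℝ) := by exact_mod_cast h1
  rw [Int.cast_abs] at h2
  have h3 : (D : ℝ) = ((j : ℝ) - i) * (((k ^ 2 % p : ℕ) : ℝ) - ((i ^ 2 % p : ℕ) : ℝ)) -
      ((k : ℝ) - i) * (((j ^ 2 % p : ℕ) : ℝ) - ((i ^ 2 % p : ℕ) : ℝ)) := by
    rw [hD]
    simp only [Int.cast_sub, Int.cast_mul, Int.cast_natCast]
  rwa [h3] at h2

/-- The Heilbronn number of a figure of area one is at least `1 / (128 n²)`. -/
lemma not_forced_of_lt {F : Set Plane} (hF : IsFigure F) (hv : volume F = 1) {n : ℕ}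
    (hn : 0 < n) {β : ℝ} (hβ : β < 1 / (128 * (n : ℝ) ^ 2)) : ¬ Forced n F β := by
  intro hfor
  obtain ⟨a, ha, b, hb, c, hc, hT⟩ := exists_triangle hF hv
  have hn' : (0 : ℝ) < n := Nat.cast_pos.2 hn
  obtain ⟨p, hp, hnp, hp2⟩ := Nat.exists_prime_lt_and_le_two_mul n hn.ne'
  have : Fact p.Prime := ⟨hp⟩
  have hp' : (0 : ℝ) < p := Nat.cast_pos.2 hp.pos
  set P : ℕ → Plane := fun i =>
    a + ((i : ℝ) / (2 * p)) • (b - a) + (((i ^ 2 % p : ℕ) : ℝ) / (2 * p)) • (c - a) with hP
  have harea : ∀ i j k : ℕ, triArea (P i) (P j) (P k) =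
      |((j : ℝ) - i) * (((k ^ 2 % p : ℕ) : ℝ) - ((i ^ 2 % p : ℕ) : ℝ)) -
      ((k : ℝ) - i) * (((j ^ 2 % p : ℕ) : ℝ) - ((i ^ 2 % p : ℕ) : ℝ))| / (2 * p) ^ 2 *
        triArea a b c := by
    intro i j k
    simp only [hP]
    rw [triArea_affine]
    have h1 : a + (b - a) = b := by abel
    have h2 : a + (c - a) = c := by abel
    rw [h1, h2]
    congr 1
    rw [← abs_of_pos (show (0 : ℝ) < (2 * p) ^ 2 by positivity), ← abs_div]
    congr 1
    field_simp
  have hmem : ∀ i ∈ Finset.range n, P i ∈ F := by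
    intro i hi
    have hi' : (i : ℝ) ≤ p := by exact_mod_cast ((Finset.mem_range.1 hi).trans hnp).le
    have hs0 : 0 ≤ (i : ℝ) / (2 * p) := by positivity
    have hs1 : (i : ℝ) / (2 * p) ≤ 1 / 2 := by
      rw [div_le_div_iff₀ (by positivity) (by norm_num)]
      linarith
    have hr' : ((i ^ 2 % p : ℕ) : ℝ) ≤ p := by exact_mod_cast (Nat.mod_lt _ hp.pos).le
    have ht0 : 0 ≤ ((i ^ 2 % p : ℕ) : ℝ) / (2 * p) := by positivity
    have ht1 : ((i ^ 2 % p : ℕ) : ℝ) / (2 * p) ≤ 1 / 2 := by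
      rw [div_le_div_iff₀ (by positivity) (by norm_num)]
      linarith
    set s := (i : ℝ) / (2 * p) with hs
    set t := ((i ^ 2 % p : ℕ) : ℝ) / (2 * p) with ht
    have h1 : (1 - s - t) • a + (s • b + t • c) = P i := by
      simp only [hP, ← hs, ← ht]
      module
    rw [← h1]
    have h2 := hF.convex.sum_mem (t := Finset.univ) (w := ![1 - s - t, s, t])
      (z := ![a, b, c])
      (by intro i _; fin_cases i <;> simp <;> linarith)
      (by simp [Fin.sum_univ_three]; ring)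
      (by intro i _; fin_cases i <;> simp [ha, hb, hc])
    simpa [Fin.sum_univ_three, add_assoc] using h2
  have hTpos : 0 < triArea a b c := by linarith
  have hinj : Set.InjOn P (Finset.range n : Set ℕ) := by
    intro i hi j hj hij
    have hi' := (Finset.mem_range.1 (Finset.mem_coe.1 hi)).trans hnp
    have hj' := (Finset.mem_range.1 (Finset.mem_coe.1 hj)).trans hnp
    by_contra hne
    -- a third index
    have hn2 : 2 ≤ n := by
      have h1 := Finset.mem_range.1 (Finset.mem_coe.1 hi)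
      have h2 := Finset.mem_range.1 (Finset.mem_coe.1 hj)
      omega
    obtain ⟨k, hk, hki, hkj⟩ : ∃ k, k < p ∧ i ≠ k ∧ j ≠ k := by
      have hcard : ((Finset.range p).erase i).card = p - 1 := by
        rw [Finset.card_erase_of_mem (Finset.mem_range.2 hi'), Finset.card_range]
      have h3 : ((Finset.range p).erase i \ {j}).Nonempty := by
        rw [← Finset.card_pos]
        have := Finset.le_card_sdiff {j} ((Finset.range p).erase i)
        rw [Finset.card_singleton, hcard] at this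
        omega
      obtain ⟨k, hk⟩ := h3
      rw [Finset.mem_sdiff, Finset.mem_erase, Finset.mem_range, Finset.mem_singleton] at hk
      exact ⟨k, hk.1.2, Ne.symm hk.1.1, Ne.symm hk.2⟩
    have h1 := harea i j k
    rw [hij] at h1
    have h2 : triArea (P j) (P j) (P k) = 0 := by
      unfold triArea; simp
    rw [h2] at h1
    have h3 := erdos_det hi' hj' hk hne hki hkj
    have h4 : 0 < |((j : ℝ) - i) * (((k ^ 2 % p : ℕ) : ℝ) - ((i ^ 2 % p : ℕ) : ℝ)) -
      ((k : ℝ) - i) * (((j ^ 2 % p : ℕ) : ℝ) - ((i ^ 2 % p : ℕ) : ℝ))| / (2 * p) ^ 2 *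
        triArea a b c := mul_pos (div_pos (by linarith) (by positivity)) hTpos
    linarith
  obtain ⟨x, hx, y, hy, z, hz, hxy, hxz, hyz, hle⟩ := hfor ((Finset.range n).image P)
    (by
      intro x hx
      rw [Finset.coe_image] at hx
      obtain ⟨i, hi, rfl⟩ := hx
      exact hmem i hi)
    (by rw [Finset.card_image_of_injOn hinj, Finset.card_range])
  obtain ⟨i, hi, rfl⟩ := Finset.mem_image.1 hx
  obtain ⟨j, hj, rfl⟩ := Finset.mem_image.1 hy
  obtain ⟨k, hk, rfl⟩ := Finset.mem_image.1 hz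
  have hij : i ≠ j := fun h => hxy (by rw [h])
  have hik : i ≠ k := fun h => hxz (by rw [h])
  have hjk : j ≠ k := fun h => hyz (by rw [h])
  have hdet := erdos_det ((Finset.mem_range.1 hi).trans hnp) ((Finset.mem_range.1 hj).trans hnp)
    ((Finset.mem_range.1 hk).trans hnp) hij hik hjk
  rw [harea] at hle
  have hp2' : (p : ℝ) ≤ 2 * n := by exact_mod_cast hp2
  have h1 : 1 / (128 * (n : ℝ) ^ 2) ≤
      |((j : ℝ) - i) * (((k ^ 2 % p : ℕ) : ℝ) - ((i ^ 2 % p : ℕ) : ℝ)) -
      ((k : ℝ) - i) * (((j ^ 2 % p : ℕ) : ℝ) - ((i ^ 2 % p : ℕ) : ℝ))| / (2 * p) ^ 2 *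
        triArea a b c := by
    calc 1 / (128 * (n : ℝ) ^ 2) = 1 / (2 * (2 * (n : ℝ))) ^ 2 * (1 / 8) := by
          field_simp; norm_num
      _ ≤ 1 / (2 * (p : ℝ)) ^ 2 * (1 / 8) := by gcongr
      _ ≤ _ := by gcongr
  linarith

end Pool.Agent.helper47.SAlpha
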