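import Pool.Agent.helper47.SAlphaF

/-!
# The segment of the parabola and the area lost by the convex hull of a configuration
-/

set_option autoImplicit false

open Set MeasureTheory Topology Filter

namespace Pool.Agent.helper47.SAlpha

/-- The segment of the parabola `x² ≤ y ≤ 1`. -/
def Par : Set Plane := {x | x 0 ^ 2 ≤ x 1 ∧ x 1 ≤ 1}

lemma convex_halfplane_le (p q r : ℝ) : Convex ℝ {x : Plane | p * x 0 + q * x 1 ≤ r} := by
  intro x hx y hy a b ha hb hab
  simp only [mem_ofPred_eq, PiLp.add_apply, PiLp.smul_apply, smul_eq_mul] at hx hy ⊢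
  have hb' : b = 1 - a := by linarith
  have h1 := mul_le_mul_of_nonneg_left hx ha
  have h2 := mul_le_mul_of_nonneg_left hy hb
  subst hb'
  nlinarith

lemma convex_halfplane_lt (p q r : ℝ) : Convex ℝ {x : Plane | p * x 0 + q * x 1 < r} := by
  intro x hx y hy a b ha hb hab
  simp only [mem_ofPred_eq, PiLp.add_apply, PiLp.smul_apply, smul_eq_mul] at hx hy ⊢
  rcases eq_or_lt_of_le ha with h | h
  · subst h
    have : b = 1 := by linarith
    subst this
    simpa using hy
  · have h1 := mul_lt_mul_of_pos_left hx h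
    have h2 := mul_le_mul_of_nonneg_left hy.le hb
    have hb' : b = 1 - a := by linarith
    subst hb'
    nlinarith

lemma convex_par : Convex ℝ Par := by
  intro x hx y hy a b ha hb hab
  obtain ⟨hx1, hx2⟩ := hx
  obtain ⟨hy1, hy2⟩ := hy
  have hb' : b = 1 - a := by linarith
  subst hb'
  refine ⟨?_, ?_⟩
  · show (a • x + (1 - a) • y) 0 ^ 2 ≤ (a • x + (1 - a) • y) 1
    simp only [PiLp.add_apply, PiLp.smul_apply, smul_eq_mul]
    nlinarith [mul_nonneg ha hb, mul_nonneg (mul_nonneg ha hb) (sq_nonneg (x 0 - y 0)),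
      mul_le_mul_of_nonneg_left hx1 ha, mul_le_mul_of_nonneg_left hy1 hb]
  · show (a • x + (1 - a) • y) 1 ≤ 1
    simp only [PiLp.add_apply, PiLp.smul_apply, smul_eq_mul]
    nlinarith [mul_le_mul_of_nonneg_left hx2 ha, mul_le_mul_of_nonneg_left hy2 hb]

lemma isClosed_par : IsClosed Par := by
  have h0 : Continuous fun x : Plane => x 0 := by fun_prop
  have h1 : Continuous fun x : Plane => x 1 := by fun_prop
  exact (isClosed_le (h0.pow 2) h1).inter (isClosed_le h1 continuous_const)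

lemma par_bounds {x : Plane} (hx : x ∈ Par) : -1 ≤ x 0 ∧ x 0 ≤ 1 ∧ 0 ≤ x 1 ∧ x 1 ≤ 1 := by
  obtain ⟨h1, h2⟩ := hx
  refine ⟨by nlinarith, by nlinarith, by nlinarith [sq_nonneg (x 0)], h2⟩

lemma isCompact_par : IsCompact Par := by
  apply Metric.isCompact_of_isClosed_isBounded isClosed_par
  rw [Metric.isBounded_iff_subset_closedBall 0]
  refine ⟨2, fun x hx => ?_⟩
  rw [mem_closedBall_zero_iff, EuclideanSpace.norm_eq, Fin.sum_univ_two]
  obtain ⟨h1, h2, h3, h4⟩ := par_bounds hx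
  rw [Real.sqrt_le_iff]
  refine ⟨by norm_num, ?_⟩
  simp only [Real.norm_eq_abs, sq_abs]
  nlinarith

lemma isFigure_par : IsFigure Par := by
  refine ⟨convex_par, isCompact_par, ?_⟩
  have h0 : Continuous fun x : Plane => x 0 := by fun_prop
  have h1 : Continuous fun x : Plane => x 1 := by fun_prop
  have hopen : IsOpen {x : Plane | x 0 ^ 2 < x 1 ∧ x 1 < 1} :=
    (isOpen_lt (h0.pow 2) h1).inter (isOpen_lt h1 continuous_const)
  have hsub : {x : Plane | x 0 ^ 2 < x 1 ∧ x 1 < 1} ⊆ Par := fun x hx => ⟨hx.1.le, hx.2.le⟩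
  refine ⟨!₂[0, 1 / 2], interior_maximal hsub hopen ?_⟩
  refine ⟨?_, ?_⟩
  · show (!₂[(0 : ℝ), 1 / 2] : Plane) 0 ^ 2 < (!₂[(0 : ℝ), 1 / 2] : Plane) 1
    simp
  · show (!₂[(0 : ℝ), 1 / 2] : Plane) 1 < 1
    simp
    norm_num

lemma volume_par_le : volume Par ≤ ENNReal.ofReal 2 := by
  have hsub : Par ⊆ (WithLp.ofLp) ⁻¹' (Icc (![-1, 0] : Fin 2 → ℝ) ![1, 1]) := by
    intro x hx
    obtain ⟨h1, h2, h3, h4⟩ := par_bounds hx
    refine ⟨fun i => ?_, fun i => ?_⟩
    · fin_cases i
      · exact h1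
      · exact h3
    · fin_cases i
      · exact h2
      · exact h4
  refine (measure_mono hsub).trans ?_
  rw [(PiLp.volume_preserving_ofLp (Fin 2)).measure_preimage measurableSet_Icc.nullMeasurableSet,
    Real.volume_Icc_pi]
  simp only [Fin.prod_univ_two, Matrix.cons_val_zero, Matrix.cons_val_one]
  rw [← ENNReal.ofReal_mul (by norm_num)]
  apply ENNReal.ofReal_le_ofReal
  norm_num

lemma area_par_le : area Par ≤ 2 := by
  have := ENNReal.toReal_mono ENNReal.ofReal_ne_top volume_par_le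
  rwa [ENNReal.toReal_ofReal (by norm_num)] at this

lemma one_le_area_par : 1 ≤ area Par := by
  have h1 := volume_triangle (!₂[-1, 1] : Plane) !₂[1, 1] !₂[0, 0]
  have h2 : convexHull ℝ ({!₂[-1, 1], !₂[1, 1], !₂[0, 0]} : Set Plane) ⊆ Par := by
    apply convexHull_min _ convex_par
    rintro x (rfl | rfl | rfl)
    · refine ⟨?_, ?_⟩ <;> simp
    · refine ⟨?_, ?_⟩ <;> simp
    · refine ⟨?_, ?_⟩ <;> simp
  have h3 := h1.trans (measure_mono h2)
  have h4 : triArea (!₂[-1, 1] : Plane) !₂[1, 1] !₂[0, 0] = 1 := by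
    unfold triArea
    simp
    norm_num
  rw [h4] at h3
  have h5 := ENNReal.toReal_mono isCompact_par.measure_lt_top.ne h3
  rwa [ENNReal.toReal_ofReal (by norm_num)] at h5

/-- The linear function which vanishes on the chord of the parabola over `[u, v]`. -/
def chord (u v : ℝ) (z : Plane) : ℝ := z 1 - (u + v) * z 0 + u * v

lemma chord_eq (u v : ℝ) (z : Plane) :
    chord u v z = (z 0 - u) * (z 0 - v) + (z 1 - z 0 ^ 2) := by
  unfold chord; ring

/-- A point of the cap over `[u, u + d]`. -/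
lemma cap_point {u d : ℝ} (hd : 0 < d) {z : Plane} (hz : z ∈ Par) (h : chord u (u + d) z < 0) :
    u < z 0 ∧ z 0 < u + d ∧ 0 ≤ z 1 - z 0 ^ 2 ∧ z 1 - z 0 ^ 2 ≤ d ^ 2 / 4 := by
  have h1 : z 0 ^ 2 ≤ z 1 := hz.1
  rw [chord_eq] at h
  have h2 : (z 0 - u) * (z 0 - (u + d)) < 0 := by linarith
  have h3 : u < z 0 := by
    by_contra hc
    push Not at hc
    have : 0 ≤ (z 0 - u) * (z 0 - (u + d)) :=
      mul_nonneg_of_nonpos_of_nonpos (by linarith) (by linarith)
    linarith
  have h4 : z 0 < u + d := by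
    by_contra hc
    push Not at hc
    have : 0 ≤ (z 0 - u) * (z 0 - (u + d)) := mul_nonneg (by linarith) (by linarith)
    linarith
  refine ⟨h3, h4, by linarith, ?_⟩
  nlinarith [sq_nonneg (z 0 - u - d / 2)]

/-- Three points in three consecutive caps are the vertices of a small triangle. -/
lemma triArea_caps {X d : ℝ} (hd : 0 < d) {a b c : Plane} (ha : a ∈ Par) (hb : b ∈ Par)
    (hc : c ∈ Par) (h1 : chord X (X + d) a < 0) (h2 : chord (X + d) (X + d + d) b < 0)
    (h3 : chord (X + d + d) (X + d + d + d) c < 0) : triArea a b c ≤ 15 / 4 * d ^ 3 := by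
  obtain ⟨a1, a2, a3, a4⟩ := cap_point hd ha h1
  obtain ⟨b1, b2, b3, b4⟩ := cap_point hd hb h2
  obtain ⟨c1, c2, c3, c4⟩ := cap_point hd hc h3
  set u := a 0 with hu
  set v := b 0 with hv
  set w := c 0 with hw
  set e := a 1 - u ^ 2 with he
  set e' := b 1 - v ^ 2 with he'
  set e'' := c 1 - w ^ 2 with he''
  have p := sub_pos.2 (a2.trans b1)
  have q := sub_pos.2 (b2.trans c1)
  have hpq : w - u ≤ 3 * d := by linarith
  have key : (v - u) * (c 1 - a 1) - (w - u) * (b 1 - a 1) =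
      (v - u) * (w - v) * (w - u) + (e'' * (v - u) + e * (w - v)) - e' * (w - u) := by
    rw [he, he', he'']; ring
  have k1 : (v - u) * (w - v) * (w - u) ≤ 27 / 4 * d ^ 3 := by
    have t1 : (v - u) * (w - v) ≤ (w - u) ^ 2 / 4 := by nlinarith [sq_nonneg (v - u - (w - v))]
    have t2 : (v - u) * (w - v) * (w - u) ≤ (w - u) ^ 2 / 4 * (w - u) :=
      mul_le_mul_of_nonneg_right t1 (by linarith)
    have t3 : (w - u) ^ 3 ≤ (3 * d) ^ 3 := pow_le_pow_left₀ (by linarith) hpq 3
    nlinarith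
  have k1' : 0 ≤ (v - u) * (w - v) * (w - u) := by
    have : 0 ≤ w - u := by linarith
    positivity
  have k2 : e'' * (v - u) + e * (w - v) ≤ 3 / 4 * d ^ 3 := by
    have t1 : e'' * (v - u) ≤ d ^ 2 / 4 * (v - u) := mul_le_mul_of_nonneg_right c4 p.le
    have t2 : e * (w - v) ≤ d ^ 2 / 4 * (w - v) := mul_le_mul_of_nonneg_right a4 q.le
    have t3 : d ^ 2 / 4 * (w - u) ≤ d ^ 2 / 4 * (3 * d) :=
      mul_le_mul_of_nonneg_left hpq (by positivity)
    nlinarith
  have k2' : 0 ≤ e'' * (v - u) + e * (w - v) := by positivity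
  have k3 : e' * (w - u) ≤ 3 / 4 * d ^ 3 := by
    have t1 : e' * (w - u) ≤ d ^ 2 / 4 * (w - u) :=
      mul_le_mul_of_nonneg_right b4 (by linarith)
    have t3 : d ^ 2 / 4 * (w - u) ≤ d ^ 2 / 4 * (3 * d) :=
      mul_le_mul_of_nonneg_left hpq (by positivity)
    nlinarith
  have k3' : 0 ≤ e' * (w - u) := mul_nonneg b3 (by linarith)
  unfold triArea
  rw [← hu, ← hv, ← hw, key]
  have hd3 : 0 < d ^ 3 := by positivity
  have : |(v - u) * (w - v) * (w - u) + (e'' * (v - u) + e * (w - v)) - e' * (w - u)| ≤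
      15 / 2 * d ^ 3 := by
    rw [abs_le]
    constructor <;> linarith
  linarith

/-- The point of the plane with the given coordinates. -/
noncomputable def pt (x y : ℝ) : Plane := !₂[x, y]

@[simp] lemma pt_zero (x y : ℝ) : pt x y 0 = x := rfl

@[simp] lemma pt_one (x y : ℝ) : pt x y 1 = y := rfl

/-- A triangle inside the cap over `[u, u + d]`. -/
noncomputable def capTri (u d : ℝ) : Set Plane :=
  convexHull ℝ {pt (u + d / 4) ((u ^ 2 + (u + d / 2) ^ 2) / 2), pt (u + d / 2) ((u + d / 2) ^ 2),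
    pt (u + 3 * d / 4) (((u + d / 2) ^ 2 + (u + d) ^ 2) / 2)}

lemma measurableSet_capTri (u d : ℝ) : MeasurableSet (capTri u d) :=
  ((Set.toFinite _).isCompact_convexHull ℝ).isClosed.measurableSet

lemma volume_capTri {u d : ℝ} (hd : 0 < d) : ENNReal.ofReal (d ^ 3 / 32) ≤ volume (capTri u d) := by
  have h := volume_triangle (pt (u + d / 4) ((u ^ 2 + (u + d / 2) ^ 2) / 2))
    (pt (u + d / 2) ((u + d / 2) ^ 2))
    (pt (u + 3 * d / 4) (((u + d / 2) ^ 2 + (u + d) ^ 2) / 2))
  have h2 : triArea (pt (u + d / 4) ((u ^ 2 + (u + d / 2) ^ 2) / 2))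
    (pt (u + d / 2) ((u + d / 2) ^ 2))
    (pt (u + 3 * d / 4) (((u + d / 2) ^ 2 + (u + d) ^ 2) / 2)) = d ^ 3 / 32 := by
    unfold triArea
    simp only [pt_zero, pt_one]
    have : (u + d / 2 - (u + d / 4)) * (((u + d / 2) ^ 2 + (u + d) ^ 2) / 2 -
        (u ^ 2 + (u + d / 2) ^ 2) / 2) - (u + 3 * d / 4 - (u + d / 4)) *
        ((u + d / 2) ^ 2 - (u ^ 2 + (u + d / 2) ^ 2) / 2) = d ^ 3 / 16 := by ring
    rw [this, abs_of_pos (by positivity)]
    ring
  rw [h2] at h
  exact h

lemma capTri_sub_par {u d : ℝ} (hd : 0 < d) (hu : -1 ≤ u) (hu' : u + d ≤ 1) :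
    capTri u d ⊆ Par := by
  apply convexHull_min _ convex_par
  have h1 : u ^ 2 ≤ 1 := by nlinarith
  have h2 : (u + d / 2) ^ 2 ≤ 1 := by nlinarith
  have h3 : (u + d) ^ 2 ≤ 1 := by nlinarith
  rintro x (rfl | rfl | rfl)
  · refine ⟨?_, ?_⟩
    · rw [pt_zero, pt_one]; nlinarith [sq_nonneg d]
    · rw [pt_one]; linarith
  · refine ⟨?_, ?_⟩
    · rw [pt_zero, pt_one]
    · rw [pt_one]; exact h2
  · refine ⟨?_, ?_⟩
    · rw [pt_zero, pt_one]; nlinarith [sq_nonneg d]
    · rw [pt_one]; linarith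

lemma capTri_sub_chord {u d : ℝ} (hd : 0 < d) :
    capTri u d ⊆ {z | chord u (u + d) z < 0} := by
  have hd2 : 0 < d ^ 2 := by positivity
  have hcv : Convex ℝ {z : Plane | chord u (u + d) z < 0} := by
    have h1 := convex_halfplane_lt (-(u + (u + d))) 1 (-(u * (u + d)))
    have h2 : {z : Plane | chord u (u + d) z < 0} =
        {x : Plane | -(u + (u + d)) * x 0 + 1 * x 1 < -(u * (u + d))} := by
      ext z
      show z 1 - (u + (u + d)) * z 0 + u * (u + d) < 0 ↔
        -(u + (u + d)) * z 0 + 1 * z 1 < -(u * (u + d))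
      constructor <;> intro h <;> linarith
    rw [h2]
    exact h1
  apply convexHull_min _ hcv
  rintro x (rfl | rfl | rfl)
  · show chord u (u + d) _ < 0
    unfold chord
    rw [pt_zero, pt_one]
    nlinarith
  · show chord u (u + d) _ < 0
    unfold chord
    rw [pt_zero, pt_one]
    nlinarith
  · show chord u (u + d) _ < 0
    unfold chord
    rw [pt_zero, pt_one]
    nlinarith

lemma capTri_bounds {u d : ℝ} (hd : 0 < d) (hu : -1 ≤ u) (hu' : u + d ≤ 1) {z : Plane}
    (hz : z ∈ capTri u d) : u < z 0 ∧ z 0 < u + d := by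
  have h := cap_point hd (capTri_sub_par hd hu hu' hz) (capTri_sub_chord hd hz)
  exact ⟨h.1, h.2.1⟩

/-- If no point of `P` lies in the cap, then the convex hull of `P` does not meet the cap. -/
lemma hull_disjoint {u d : ℝ} (hd : 0 < d) {P : Finset Plane}
    (hP : ∀ z ∈ P, 0 ≤ chord u (u + d) z) :
    Disjoint (convexHull ℝ (P : Set Plane)) (capTri u d) := by
  have hcv : Convex ℝ {z : Plane | 0 ≤ chord u (u + d) z} := by
    have h1 := convex_halfplane_le (u + (u + d)) (-1) (u * (u + d))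
    have h2 : {z : Plane | 0 ≤ chord u (u + d) z} =
        {x : Plane | (u + (u + d)) * x 0 + -1 * x 1 ≤ u * (u + d)} := by
      ext z
      show 0 ≤ z 1 - (u + (u + d)) * z 0 + u * (u + d) ↔
        (u + (u + d)) * z 0 + -1 * z 1 ≤ u * (u + d)
      constructor <;> intro h <;> linarith
    rw [h2]
    exact h1
  have h1 : convexHull ℝ (P : Set Plane) ⊆ {z | 0 ≤ chord u (u + d) z} :=
    convexHull_min (fun z hz => hP z hz) hcv
  rw [Set.disjoint_left]
  intro z hz hz'
  have h2 : 0 ≤ chord u (u + d) z := h1 hz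
  have h3 : chord u (u + d) z < 0 := capTri_sub_chord hd hz'
  linarith

/-- The convex hull of a configuration of points of `Par` without small triangles has an area
smaller than the area of `Par`. -/
theorem hull_loss {P : Finset Plane} (hP : (P : Set Plane) ⊆ Par) {η : ℝ} {g : ℕ} (hg : 0 < g)
    (hη : 10 / 9 ≤ (g : ℝ) ^ 3 * η)
    (hT : ∀ a ∈ P, ∀ b ∈ P, ∀ c ∈ P, a ≠ b → a ≠ c → b ≠ c → η < triArea a b c) :
    area (convexHull ℝ (P : Set Plane)) + 1 / (108 * (g : ℝ) ^ 2) ≤ area Par := by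
  classical
  have hg' : (0 : ℝ) < g := Nat.cast_pos.2 hg
  set d : ℝ := 2 / (3 * g) with hd
  have hdpos : 0 < d := by positivity
  have hgd : (g : ℝ) * (3 * d) = 2 := by rw [hd]; field_simp
  have hd3 : 15 / 4 * d ^ 3 ≤ η := by
    have h1 : d ^ 3 * (g : ℝ) ^ 3 = 8 / 27 := by rw [hd]; field_simp; norm_num
    have h2 : (g : ℝ) ^ 3 * (15 / 4 * d ^ 3) ≤ (g : ℝ) ^ 3 * η := by
      calc (g : ℝ) ^ 3 * (15 / 4 * d ^ 3) = 15 / 4 * (d ^ 3 * (g : ℝ) ^ 3) := by ring
        _ = 10 / 9 := by rw [h1]; norm_num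
        _ ≤ _ := hη
    exact le_of_mul_le_mul_left h2 (by positivity)
  -- in each group of three consecutive caps one is empty
  have hempty : ∀ j : ℕ, ∃ i : ℕ, i < 3 ∧
      ∀ z ∈ P, 0 ≤ chord (-1 + (3 * j + i : ℕ) * d) (-1 + (3 * j + i : ℕ) * d + d) z := by
    intro j
    by_contra hcon
    push Not at hcon
    obtain ⟨a, ha, ha'⟩ := hcon 0 (by norm_num)
    obtain ⟨b, hb, hb'⟩ := hcon 1 (by norm_num)
    obtain ⟨c, hc, hc'⟩ := hcon 2 (by norm_num)
    set X : ℝ := -1 + (3 * j + 0 : ℕ) * d with hX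
    have e1 : (-1 : ℝ) + (3 * j + 1 : ℕ) * d = X + d := by rw [hX]; push_cast; ring
    have e2 : (-1 : ℝ) + (3 * j + 2 : ℕ) * d = X + d + d := by rw [hX]; push_cast; ring
    rw [e1] at hb'
    rw [e2] at hc'
    have h1 := triArea_caps hdpos (hP ha) (hP hb) (hP hc) ha' hb' hc'
    have ca := cap_point hdpos (hP ha) ha'
    have cb := cap_point hdpos (hP hb) hb'
    have cc := cap_point hdpos (hP hc) hc'
    have hab : a ≠ b := by rintro rfl; linarith [ca.2.1, cb.1]
    have hac : a ≠ c := by rintro rfl; linarith [ca.2.1, cc.1]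
    have hbc : b ≠ c := by rintro rfl; linarith [cb.2.1, cc.1]
    have h2 := hT a ha b hb c hc hab hac hbc
    linarith
  choose φ hφ3 hφ using hempty
  set x : ℕ → ℝ := fun j => -1 + (3 * j + φ j : ℕ) * d with hx
  have hx1 : ∀ j, -1 ≤ x j := by
    intro j
    have : 0 ≤ ((3 * j + φ j : ℕ) : ℝ) * d := by positivity
    simp only [hx]; linarith
  have hx2 : ∀ j, j < g → x j + d ≤ 1 := by
    intro j hj
    have h1 : ((3 * j + φ j : ℕ) : ℝ) + 1 ≤ 3 * g := by
      have : 3 * j + φ j + 1 ≤ 3 * g := by have := hφ3 j; omega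
      exact_mod_cast this
    have h2 : (((3 * j + φ j : ℕ) : ℝ) + 1) * d ≤ 3 * g * d :=
      mul_le_mul_of_nonneg_right h1 hdpos.le
    simp only [hx]; nlinarith
  have hxlt : ∀ j k, j < k → x j + d ≤ x k := by
    intro j k hjk
    have h1 : ((3 * j + φ j : ℕ) : ℝ) + 1 ≤ ((3 * k + φ k : ℕ) : ℝ) := by
      have : 3 * j + φ j + 1 ≤ 3 * k + φ k := by have := hφ3 j; omega
      exact_mod_cast this
    have h2 := mul_le_mul_of_nonneg_right h1 hdpos.le
    simp only [hx]; nlinarith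
  have hdisj : (Finset.range g : Set ℕ).PairwiseDisjoint (fun j => capTri (x j) d) := by
    have key : ∀ j k, j < g → k < g → j < k → Disjoint (capTri (x j) d) (capTri (x k) d) := by
      intro j k hj hk hjk
      rw [Set.disjoint_left]
      intro z hz hz'
      have h1 := capTri_bounds hdpos (hx1 j) (hx2 j hj) hz
      have h2 := capTri_bounds hdpos (hx1 k) (hx2 k hk) hz'
      linarith [hxlt j k hjk, h1.2, h2.1]
    intro j hj k hk hjk
    have hj' : j < g := Finset.mem_range.1 hj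
    have hk' : k < g := Finset.mem_range.1 hk
    rcases lt_or_gt_of_ne hjk with h | h
    · exact key j k hj' hk' h
    · exact (key k j hk' hj' h).symm
  set U : Set Plane := ⋃ j ∈ Finset.range g, capTri (x j) d with hU
  have hUvol : ENNReal.ofReal (g * (d ^ 3 / 32)) ≤ volume U := by
    rw [hU, measure_biUnion_finset hdisj (fun j _ => measurableSet_capTri _ _)]
    calc ENNReal.ofReal (g * (d ^ 3 / 32))
        = ∑ _j ∈ Finset.range g, ENNReal.ofReal (d ^ 3 / 32) := by
          rw [Finset.sum_const, Finset.card_range, nsmul_eq_mul,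
            ENNReal.ofReal_mul (Nat.cast_nonneg _), ENNReal.ofReal_natCast]
      _ ≤ _ := Finset.sum_le_sum (fun j _ => volume_capTri hdpos)
  have hUm : MeasurableSet U :=
    Finset.measurableSet_biUnion _ (fun j _ => measurableSet_capTri _ _)
  have hUPar : U ⊆ Par := by
    intro z hz
    rw [hU, mem_iUnion₂] at hz
    obtain ⟨j, hj, hz⟩ := hz
    exact capTri_sub_par hdpos (hx1 j) (hx2 j (Finset.mem_range.1 hj)) hz
  have hQPar : convexHull ℝ (P : Set Plane) ⊆ Par := convexHull_min hP convex_par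
  have hdis : Disjoint (convexHull ℝ (P : Set Plane)) U := by
    rw [hU, Set.disjoint_iUnion₂_right]
    intro j _
    exact hull_disjoint hdpos (hφ j)
  have hvol : volume (convexHull ℝ (P : Set Plane)) + ENNReal.ofReal (g * (d ^ 3 / 32)) ≤
      volume Par := by
    calc _ ≤ volume (convexHull ℝ (P : Set Plane)) + volume U := by gcongr
      _ = volume (convexHull ℝ (P : Set Plane) ∪ U) := (measure_union hdis hUm).symm
      _ ≤ volume Par := measure_mono (union_subset hQPar hUPar)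
  have hfin : volume (convexHull ℝ (P : Set Plane)) ≠ ⊤ :=
    ((measure_mono hQPar).trans_lt isCompact_par.measure_lt_top).ne
  have h1 := ENNReal.toReal_mono isCompact_par.measure_lt_top.ne hvol
  rw [ENNReal.toReal_add hfin ENNReal.ofReal_ne_top, ENNReal.toReal_ofReal (by positivity)] at h1
  have h2 : (g : ℝ) * (d ^ 3 / 32) = 1 / (108 * (g : ℝ) ^ 2) := by
    rw [hd]; field_simp; norm_num
  rw [h2] at h1
  exact h1

end Pool.Agent.helper47.SAlpha
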