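import Pool.Agent.helper47.SAlphaF

/-!
# Figures whose boundary cannot be pushed out locally are polygons
-/

open Set MeasureTheory Filter Topology

namespace Pool.Agent.helper47.SAlpha

/-- Points between a new point and a point outside of `F` are outside of `F`. -/
lemma seg_out {F : Set Plane} (hF : Convex ℝ F) {y f : Plane} {t s : ℝ} (ht1 : t ≤ 1)
    (hf : f ∈ F) (hp : (1 - t) • y + t • f ∉ F) (hs1 : s ≤ 1) (ht0 : 0 ≤ t) :
    (1 - s) • y + s • ((1 - t) • y + t • f) ∉ F := by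
  intro hw
  have ht : t < 1 := by
    rcases lt_or_eq_of_le ht1 with h | h
    · exact h
    · exfalso
      apply hp
      rw [h]
      simpa using hf
  have hst : s * t ≤ t := by nlinarith
  have hd : 0 < 1 - s * t := by linarith
  have hd' : 1 - s * t ≠ 0 := hd.ne'
  apply hp
  have key : (1 - t) • y + t • f =
      ((1 - t) / (1 - s * t)) • ((1 - s) • y + s • ((1 - t) • y + t • f)) +
        (1 - (1 - t) / (1 - s * t)) • f := by
    have e1 : ((1 - t) / (1 - s * t)) * (1 - s * t) = 1 - t := div_mul_cancel₀ _ hd'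
    have e2 : ((1 - t) / (1 - s * t)) * (s * t) + (1 - (1 - t) / (1 - s * t)) = t := by
      linear_combination -e1
    have e3 : (1 - s) • y + s • ((1 - t) • y + t • f) = (1 - s * t) • y + (s * t) • f := by
      module
    rw [e3, smul_add, smul_smul, smul_smul, e1, add_assoc, ← add_smul, e2]
  rw [key]
  refine hF hw hf (by apply div_nonneg <;> linarith) ?_ (by ring)
  have : (1 - t) / (1 - s * t) ≤ 1 := by
    rw [div_le_one hd]; linarith
  linarith

/-- Points of the hull of a convex set and a point. -/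
lemma mem_hull_insert {F : Set Plane} (hcv : Convex ℝ F) (hne : F.Nonempty) {y w : Plane}
    (hw : w ∈ convexHull ℝ (insert y F)) :
    ∃ t : ℝ, 0 ≤ t ∧ t ≤ 1 ∧ ∃ f ∈ F, w = (1 - t) • y + t • f := by
  rw [convexHull_insert hne, hcv.convexHull_eq, mem_convexJoin] at hw
  obtain ⟨y', hy', b, hb, a, t, ha, ht, hat, rfl⟩ := hw
  rw [mem_singleton_iff] at hy'
  subst hy'
  refine ⟨t, ht, by linarith, b, hb, ?_⟩
  have : a = 1 - t := by linarith
  simp only [this]

/-- The property used: no point can be added to `F` without creating a large triangle with two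
new vertices. -/
def Stuck (F : Set Plane) (α : ℝ) : Prop :=
  ∀ y, y ∉ F → ∃ p ∈ convexHull ℝ (insert y F) \ F, ∃ q ∈ convexHull ℝ (insert y F) \ F,
    ∃ r ∈ convexHull ℝ (insert y F), α < triArea p q r

theorem limit_lemma {F : Set Plane} (hF : IsFigure F) {α : ℝ} (H : Stuck F α) {e : Plane}
    (he : e ∈ frontier F) :
    ∃ p ∈ F, ∃ q ∈ F, ∃ r ∈ F, segment ℝ e p ⊆ frontier F ∧ segment ℝ e q ⊆ frontier F ∧
      α ≤ triArea p q r := by
  have hcl := hF.compact.isClosed
  have hne : F.Nonempty := hF.interior_nonempty.mono interior_subset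
  rw [frontier_eq_closure_inter_closure] at he
  have heF : e ∈ F := by rw [← hcl.closure_eq]; exact he.1
  obtain ⟨y, hyF, hy⟩ := mem_closure_iff_seq_limit.1 he.2
  have hdata : ∀ j : ℕ, ∃ D : (ℝ × Plane) × (ℝ × Plane) × (ℝ × Plane),
      D ∈ (Icc (0:ℝ) 1 ×ˢ F) ×ˢ (Icc (0:ℝ) 1 ×ˢ F) ×ˢ (Icc (0:ℝ) 1 ×ˢ F) ∧
      (1 - D.1.1) • y j + D.1.1 • D.1.2 ∉ F ∧ (1 - D.2.1.1) • y j + D.2.1.1 • D.2.1.2 ∉ F ∧
      α < triArea ((1 - D.1.1) • y j + D.1.1 • D.1.2) ((1 - D.2.1.1) • y j + D.2.1.1 • D.2.1.2)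
        ((1 - D.2.2.1) • y j + D.2.2.1 • D.2.2.2) := by
    intro j
    obtain ⟨p, ⟨hp, hpF⟩, q, ⟨hq, hqF⟩, r, hr, hα⟩ := H (y j) (hyF j)
    obtain ⟨t, ht0, ht1, f, hf, rfl⟩ := mem_hull_insert hF.convex hne hp
    obtain ⟨t', ht0', ht1', f', hf', rfl⟩ := mem_hull_insert hF.convex hne hq
    obtain ⟨t'', ht0'', ht1'', f'', hf'', rfl⟩ := mem_hull_insert hF.convex hne hr
    exact ⟨((t, f), (t', f'), (t'', f'')), ⟨⟨⟨ht0, ht1⟩, hf⟩, ⟨⟨ht0', ht1'⟩, hf'⟩,
      ⟨⟨ht0'', ht1''⟩, hf''⟩⟩, hpF, hqF, hα⟩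
  choose D hDK hD1 hD2 hD3 using hdata
  have hK : IsCompact ((Icc (0:ℝ) 1 ×ˢ F) ×ˢ (Icc (0:ℝ) 1 ×ˢ F) ×ˢ (Icc (0:ℝ) 1 ×ˢ F)) :=
    (isCompact_Icc.prod hF.compact).prod
      ((isCompact_Icc.prod hF.compact).prod (isCompact_Icc.prod hF.compact))
  obtain ⟨L, hL, φ, hφ, hlim⟩ := hK.tendsto_subseq hDK
  have hyφ : Tendsto (y ∘ φ) atTop (𝓝 e) := hy.comp hφ.tendsto_atTop
  obtain ⟨⟨⟨hL0, hL1⟩, hLf⟩, ⟨⟨hM0, hM1⟩, hMf⟩, ⟨⟨hN0, hN1⟩, hNf⟩⟩ := hL
  -- limits
  have hpair : Tendsto (fun j => (y (φ j), D (φ j))) atTop (𝓝 (e, L)) := hyφ.prodMk_nhds hlim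
  set P : Plane × ((ℝ × Plane) × (ℝ × Plane) × (ℝ × Plane)) → Plane :=
    fun x => (1 - x.2.1.1) • x.1 + x.2.1.1 • x.2.1.2 with hP
  set Q : Plane × ((ℝ × Plane) × (ℝ × Plane) × (ℝ × Plane)) → Plane :=
    fun x => (1 - x.2.2.1.1) • x.1 + x.2.2.1.1 • x.2.2.1.2 with hQ
  set R : Plane × ((ℝ × Plane) × (ℝ × Plane) × (ℝ × Plane)) → Plane :=
    fun x => (1 - x.2.2.2.1) • x.1 + x.2.2.2.1 • x.2.2.2.2 with hR
  have hPc : Continuous P := by rw [hP]; fun_prop
  have hQc : Continuous Q := by rw [hQ]; fun_prop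
  have hRc : Continuous R := by rw [hR]; fun_prop
  have hPF : P (e, L) ∈ F := hF.convex heF hLf (by simp only; linarith) hL0 (by ring)
  have hQF : Q (e, L) ∈ F := hF.convex heF hMf (by simp only; linarith) hM0 (by ring)
  have hRF : R (e, L) ∈ F := hF.convex heF hNf (by simp only; linarith) hN0 (by ring)
  refine ⟨P (e, L), hPF, Q (e, L), hQF, R (e, L), hRF, ?_, ?_, ?_⟩
  · rintro w hw
    rw [frontier_eq_closure_inter_closure]
    refine ⟨subset_closure (hF.convex.segment_subset heF hPF hw), ?_⟩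
    obtain ⟨a, s, ha, hs, has, rfl⟩ := hw
    have ha' : a = 1 - s := by linarith
    subst ha'
    have hlim2 : Tendsto (fun j => (1 - s) • y (φ j) + s • P (y (φ j), D (φ j))) atTop
        (𝓝 ((1 - s) • e + s • P (e, L))) := by
      have h1 : Continuous (fun x : Plane × ((ℝ × Plane) × (ℝ × Plane) × (ℝ × Plane)) =>
        (1 - s) • x.1 + s • P x) := by fun_prop
      exact (h1.tendsto (e, L)).comp hpair
    refine mem_closure_of_tendsto hlim2 (Eventually.of_forall fun j => ?_)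
    have hm := hDK (φ j)
    exact seg_out hF.convex hm.1.1.2 hm.1.2 (hD1 (φ j)) (by linarith) hm.1.1.1
  · rintro w hw
    rw [frontier_eq_closure_inter_closure]
    refine ⟨subset_closure (hF.convex.segment_subset heF hQF hw), ?_⟩
    obtain ⟨a, s, ha, hs, has, rfl⟩ := hw
    have ha' : a = 1 - s := by linarith
    subst ha'
    have hlim2 : Tendsto (fun j => (1 - s) • y (φ j) + s • Q (y (φ j), D (φ j))) atTop
        (𝓝 ((1 - s) • e + s • Q (e, L))) := by
      have h1 : Continuous (fun x : Plane × ((ℝ × Plane) × (ℝ × Plane) × (ℝ × Plane)) =>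
        (1 - s) • x.1 + s • Q x) := by fun_prop
      exact (h1.tendsto (e, L)).comp hpair
    refine mem_closure_of_tendsto hlim2 (Eventually.of_forall fun j => ?_)
    have hm := hDK (φ j)
    exact seg_out hF.convex hm.2.1.1.2 hm.2.1.2 (hD2 (φ j)) (by linarith) hm.2.1.1.1
  · have h1 : Continuous (fun x : Plane × ((ℝ × Plane) × (ℝ × Plane) × (ℝ × Plane)) =>
        triArea (P x) (Q x) (R x)) :=
      continuous_triArea.comp (hPc.prodMk (hQc.prodMk hRc))
    have h2 : Tendsto (fun j => triArea (P (y (φ j), D (φ j))) (Q (y (φ j), D (φ j)))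
        (R (y (φ j), D (φ j)))) atTop (𝓝 (triArea (P (e, L)) (Q (e, L)) (R (e, L)))) :=
      (h1.tendsto (e, L)).comp hpair
    exact ge_of_tendsto' h2 (fun j => (hD3 (φ j)).le)

/-- In the plane the kernel of a nonzero functional is a line. -/
lemma ker_line {f : Plane →L[ℝ] ℝ} {o u v : Plane} (ho : f o ≠ 0) (hu : f u = 0) (hv : f v = 0) :
    u 0 * v 1 = u 1 * v 0 := by
  set a := f (EuclideanSpace.single 0 1) with ha
  set b := f (EuclideanSpace.single 1 1) with hb
  have hf : ∀ x : Plane, f x = x 0 * a + x 1 * b := by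
    intro x
    have hx : x = x 0 • EuclideanSpace.single 0 (1:ℝ) + x 1 • EuclideanSpace.single 1 (1:ℝ) := by
      ext i
      fin_cases i <;> simp
    conv_lhs => rw [hx]
    rw [map_add, map_smul, map_smul, smul_eq_mul, smul_eq_mul]
  rw [hf] at hu hv ho
  have h1 : (u 0 * v 1 - u 1 * v 0) * a = 0 := by linear_combination v 1 * hu - u 1 * hv
  have h2 : (u 0 * v 1 - u 1 * v 0) * b = 0 := by linear_combination u 0 * hv - v 0 * hu
  rcases mul_eq_zero.1 h1 with h | h
  · linarith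
  · rcases mul_eq_zero.1 h2 with h' | h'
    · linarith
    · exfalso
      apply ho
      rw [h, h']
      ring

/-- A vector proportional to `v` and of norm at most `r * ‖v‖`. -/
lemma prop_of_cross {u v : Plane} (hv : v ≠ 0) (h : u 0 * v 1 = u 1 * v 0) :
    ∃ τ : ℝ, u = τ • v := by
  have hn : 0 < v 0 ^ 2 + v 1 ^ 2 := by
    rw [← norm_sq_plane]
    have := norm_pos_iff.2 hv
    positivity
  refine ⟨(u 0 * v 0 + u 1 * v 1) / (v 0 ^ 2 + v 1 ^ 2), ?_⟩
  ext i
  fin_cases i
  · simp only [PiLp.smul_apply, smul_eq_mul, Fin.zero_eta]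
    rw [div_mul_eq_mul_div, eq_div_iff hn.ne']
    linear_combination v 1 * h
  · simp only [PiLp.smul_apply, smul_eq_mul, Fin.mk_one]
    rw [div_mul_eq_mul_div, eq_div_iff hn.ne']
    linear_combination (-v 0) * h

/-- The line `f = c` near the midpoint of a chord lying on it. -/
lemma on_line {x b w : Plane} (hne : x ≠ b) {f : Plane →L[ℝ] ℝ} {o : Plane}
    {c : ℝ} (hfo : f o < c) (hfx : f x = c) (hfb : f b = c) (hfw : f w = c) :
    ∃ τ : ℝ, w = (1 / 2 - τ) • x + (1 / 2 + τ) • b := by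
  have h1 : f (o - x) ≠ 0 := by rw [map_sub]; intro h; linarith
  have h2 : f (w - ((1 / 2 : ℝ) • x + (1 / 2 : ℝ) • b)) = 0 := by
    rw [map_sub, map_add, map_smul, map_smul, hfx, hfb, hfw, smul_eq_mul]; ring
  have h3 : f (b - x) = 0 := by rw [map_sub]; linarith
  obtain ⟨τ, hτ⟩ := prop_of_cross (sub_ne_zero.2 (Ne.symm hne)) (ker_line h1 h2 h3)
  refine ⟨τ, ?_⟩
  rw [sub_eq_iff_eq_add] at hτ
  rw [hτ]
  module

/-- Near the midpoint of a chord on a supporting line all points on the inner side are interior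
points. -/
lemma near_side {F : Set Plane} (hF : IsFigure F) {x b : Plane} (hx : x ∈ F) (hb : b ∈ F)
    (hne : x ≠ b) {f : Plane →L[ℝ] ℝ} {c : ℝ} (hfx : f x = c) (hfb : f b = c)
    (hlt : ∀ z ∈ interior F, f z < c) :
    ∀ᶠ w in 𝓝 ((1 / 2 : ℝ) • x + (1 / 2 : ℝ) • b), f w < c → w ∈ interior F := by
  obtain ⟨o, ho⟩ := hF.interior_nonempty
  have hfo := hlt o ho
  set m : Plane := (1 / 2 : ℝ) • x + (1 / 2 : ℝ) • b with hm
  have hfm : f m = c := by
    rw [hm, map_add, map_smul, map_smul, hfx, hfb, smul_eq_mul]; ring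
  set g : Plane → Plane := fun w => o + ((c - f o) / (f w - f o)) • (w - o) with hg
  have hgm : g m = m := by
    simp only [hg, hfm]
    rw [div_self (by linarith), one_smul]
    abel
  have hcont : ContinuousAt g m := by
    have hc1 : ContinuousAt (fun w : Plane => (c - f o) / (f w - f o)) m := by
      refine ContinuousAt.div continuousAt_const (by fun_prop) ?_
      rw [hfm]; linarith
    have hc2 : ContinuousAt (fun w : Plane => w - o) m := by fun_prop
    exact continuousAt_const.add (hc1.smul hc2)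
  have hd : 0 < dist x b := dist_pos.2 hne
  have h1 : ∀ᶠ w in 𝓝 m, dist (g w) m < dist x b / 2 := by
    have := hcont.tendsto
    rw [hgm] at this
    exact (Metric.tendsto_nhds.1 this) _ (by linarith)
  have h2 : ∀ᶠ w in 𝓝 m, f o < f w := by
    have : ContinuousAt f m := f.continuous.continuousAt
    apply this.eventually_const_lt
    rw [hfm]; exact hfo
  filter_upwards [h1, h2] with w hw1 hw2 hw3
  have hfg : f (g w) = c := by
    simp only [hg]
    rw [map_add, map_smul, map_sub, smul_eq_mul, div_mul_cancel₀ _ (by linarith)]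
    ring
  obtain ⟨τ, hτ⟩ := on_line hne hfo hfx hfb hfg
  have hτm : g w - m = τ • (b - x) := by rw [hτ, hm]; module
  have hτd : |τ| * dist x b < dist x b / 2 := by
    rw [dist_eq_norm, hτm, norm_smul, ← dist_eq_norm, dist_comm b x, Real.norm_eq_abs] at hw1
    exact hw1
  have hτ2 : |τ| < 1 / 2 := by
    by_contra hcon
    push Not at hcon
    nlinarith
  rw [abs_lt] at hτ2
  have hgF : g w ∈ F := by
    rw [hτ]
    exact hF.convex hx hb (by linarith) (by linarith) (by ring)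
  have hr0 : 0 < (f w - f o) / (c - f o) := div_pos (by linarith) (by linarith)
  have hr1 : (f w - f o) / (c - f o) < 1 := by rw [div_lt_one (by linarith)]; linarith
  have hwo : w = (1 - (f w - f o) / (c - f o)) • o + ((f w - f o) / (c - f o)) • g w := by
    have h5 : (f w - f o) / (c - f o) * ((c - f o) / (f w - f o)) = 1 := by
      rw [div_mul_div_comm, mul_comm (f w - f o)]
      exact div_self (mul_ne_zero (by linarith) (by linarith))
    simp only [hg]
    rw [smul_add, smul_smul, h5]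
    module
  rw [hwo]
  refine hF.convex.openSegment_interior_self_subset_interior ho hgF ?_
  exact ⟨_, _, by linarith, hr0, by ring, rfl⟩

/-- A supporting functional at a boundary point. -/
lemma support {F : Set Plane} (hF : IsFigure F) {m : Plane} (hm : m ∈ frontier F) :
    ∃ f : Plane →L[ℝ] ℝ, (∀ z ∈ interior F, f z < f m) ∧ ∀ z ∈ F, f z ≤ f m := by
  obtain ⟨f, hf⟩ := geometric_hahn_banach_open_point hF.convex.interior isOpen_interior hm.2
  refine ⟨f, hf, fun z hz => ?_⟩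
  have h1 : closure (interior F) ⊆ {x | f x ≤ f m} :=
    closure_minimal (fun a ha => (hf a ha).le) (isClosed_le f.continuous continuous_const)
  rw [hF.convex.closure_interior_eq_closure_of_nonempty_interior hF.interior_nonempty] at h1
  exact h1 (subset_closure hz)

lemma ext_frontier {F : Set Plane} {e : Plane} (he : e ∈ F.extremePoints ℝ) :
    e ∈ frontier F := by
  refine ⟨subset_closure he.1, fun hint => ?_⟩
  rw [mem_interior_iff_mem_nhds, Metric.mem_nhds_iff] at hint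
  obtain ⟨δ, hδ, hball⟩ := hint
  set v : Plane := EuclideanSpace.single 0 (δ / 2) with hv
  have hvn : ‖v‖ = δ / 2 := by
    rw [hv, PiLp.norm_single, Real.norm_of_nonneg (by linarith)]
  have h1 : e + v ∈ F := hball (by rw [Metric.mem_ball, dist_eq_norm, add_sub_cancel_left, hvn]; linarith)
  have h2 : e - v ∈ F := hball (by
    rw [Metric.mem_ball, dist_eq_norm, sub_sub_cancel_left, norm_neg, hvn]; linarith)
  have h3 : e ∈ openSegment ℝ (e + v) (e - v) :=
    ⟨1 / 2, 1 / 2, by norm_num, by norm_num, by norm_num, by module⟩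
  have h4 := he.2 h1 h2 h3
  have h5 : v = 0 := by simpa using h4
  rw [h5, norm_zero] at hvn
  linarith

lemma three_on_line {F : Set Plane} {x b : Plane} (hne : x ≠ b) {τ₁ τ₂ τ₃ : ℝ} (h12 : τ₁ < τ₂)
    (h23 : τ₂ < τ₃) (h1 : (1 / 2 - τ₁) • x + (1 / 2 + τ₁) • b ∈ F)
    (h2 : (1 / 2 - τ₂) • x + (1 / 2 + τ₂) • b ∈ F.extremePoints ℝ)
    (h3 : (1 / 2 - τ₃) • x + (1 / 2 + τ₃) • b ∈ F) : False := by
  have h4 : (1 / 2 - τ₂) • x + (1 / 2 + τ₂) • b ∈
      openSegment ℝ ((1 / 2 - τ₁) • x + (1 / 2 + τ₁) • b)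
        ((1 / 2 - τ₃) • x + (1 / 2 + τ₃) • b) := by
    have h13 : 0 < τ₃ - τ₁ := by linarith
    refine ⟨(τ₃ - τ₂) / (τ₃ - τ₁), (τ₂ - τ₁) / (τ₃ - τ₁), div_pos (by linarith) h13,
      div_pos (by linarith) h13, by rw [← add_div]; rw [div_eq_one_iff_eq h13.ne']; ring, ?_⟩
    have e1 : (τ₃ - τ₂) / (τ₃ - τ₁) = 1 - (τ₂ - τ₁) / (τ₃ - τ₁) := by
      rw [eq_sub_iff_add_eq, ← add_div, div_eq_one_iff_eq h13.ne']; ring
    have e2 : τ₂ = τ₁ + (τ₂ - τ₁) / (τ₃ - τ₁) * (τ₃ - τ₁) := by
      rw [div_mul_cancel₀ _ h13.ne']; ring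
    rw [e1]
    conv_rhs => rw [e2]
    module
  have h5 := h2.2 h1 h3 h4
  have h6 : (τ₂ - τ₁) • (b - x) = 0 := by
    rw [← sub_eq_zero] at h5
    rw [← neg_eq_zero, ← h5]
    module
  rcases smul_eq_zero.1 h6 with h | h
  · linarith
  · exact hne (sub_eq_zero.1 h).symm

/-- A boundary segment from a point gives a long one. -/
lemma long_side {F : Set Plane} (hF : IsFigure F) {α : ℝ} (hα : 0 < α) (H : Stuck F α) :
    ∃ δ : ℝ, 0 < δ ∧ ∀ e ∈ F.extremePoints ℝ, ∃ z ∈ F, segment ℝ e z ⊆ frontier F ∧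
      δ ≤ dist e z := by
  obtain ⟨D, hD, hDb⟩ : ∃ D : ℝ, 0 < D ∧ ∀ p ∈ F, ∀ q ∈ F, dist p q ≤ D := by
    obtain ⟨D, hD⟩ := hF.compact.isBounded.subset_closedBall 0
    refine ⟨2 * |D| + 1, by positivity, fun p hp q hq => ?_⟩
    have h1 := hD hp
    have h2 := hD hq
    rw [Metric.mem_closedBall] at h1 h2
    have h3 := dist_triangle_right p q 0
    linarith [le_abs_self D]
  refine ⟨α / D, by positivity, fun e he => ?_⟩
  obtain ⟨p, hp, q, hq, r, hr, h1, h2, h3⟩ := limit_lemma hF H (ext_frontier he)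
  have h4 := triArea_le p q r
  have h5 : dist p q * dist p r ≤ dist p q * D :=
    mul_le_mul_of_nonneg_left (hDb p hp r hr) dist_nonneg
  have h6 : 2 * (α / D) ≤ dist p q := by
    rw [mul_div_assoc', div_le_iff₀ hD]; linarith
  have h7 := dist_triangle_left p q e
  by_cases h8 : α / D ≤ dist e p
  · exact ⟨p, hp, h1, h8⟩
  · exact ⟨q, hq, h2, by linarith⟩

theorem finite_ext {F : Set Plane} (hF : IsFigure F) {α : ℝ} (hα : 0 < α) (H : Stuck F α) :
    (F.extremePoints ℝ).Finite := by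
  by_contra hinf
  have hinf' : (F.extremePoints ℝ).Infinite := hinf
  obtain ⟨δ, hδ, hz⟩ := long_side hF hα H
  choose! z hzF hzs hzd using hz
  set e : ℕ → Plane := fun n => (hinf'.natEmbedding _ n : Plane) with he
  have heE : ∀ n, e n ∈ F.extremePoints ℝ := fun n => (hinf'.natEmbedding _ n).2
  have hinj : Function.Injective e := fun a b hab =>
    (hinf'.natEmbedding _).injective (Subtype.ext hab)
  have hK : IsCompact (F ×ˢ F) := hF.compact.prod hF.compact
  obtain ⟨⟨x, b⟩, ⟨hx, hb⟩, φ, hφ, hlim⟩ := hK.tendsto_subseq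
    (x := fun n => (e n, z (e n))) (fun n => ⟨(heE n).1, hzF _ (heE n)⟩)
  have hl1 : Tendsto (fun n => e (φ n)) atTop (𝓝 x) := (continuous_fst.tendsto _).comp hlim
  have hl2 : Tendsto (fun n => z (e (φ n))) atTop (𝓝 b) := (continuous_snd.tendsto _).comp hlim
  have hxb : δ ≤ dist x b := ge_of_tendsto' (hl1.dist hl2) (fun n => hzd _ (heE _))
  have hne : x ≠ b := by
    intro h
    rw [h, dist_self] at hxb
    linarith
  have hlm : Tendsto (fun n => (1 / 2 : ℝ) • e (φ n) + (1 / 2 : ℝ) • z (e (φ n))) atTop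
      (𝓝 ((1 / 2 : ℝ) • x + (1 / 2 : ℝ) • b)) := (hl1.const_smul _).add (hl2.const_smul _)
  have hmf : ∀ n, (1 / 2 : ℝ) • e (φ n) + (1 / 2 : ℝ) • z (e (φ n)) ∈ frontier F := fun n =>
    hzs _ (heE _) ⟨1 / 2, 1 / 2, by norm_num, by norm_num, by norm_num, rfl⟩
  have hm : (1 / 2 : ℝ) • x + (1 / 2 : ℝ) • b ∈ frontier F :=
    isClosed_frontier.mem_of_tendsto hlm (Eventually.of_forall hmf)
  obtain ⟨f, hf1, hf2⟩ := support hF hm
  set c := f ((1 / 2 : ℝ) • x + (1 / 2 : ℝ) • b) with hc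
  have hc' : c = 1 / 2 * f x + 1 / 2 * f b := by
    rw [hc, map_add, map_smul, map_smul, smul_eq_mul, smul_eq_mul]
  have hfx : f x = c := by have := hf2 x hx; have := hf2 b hb; linarith
  have hfb : f b = c := by have := hf2 x hx; have := hf2 b hb; linarith
  have hev := hlm.eventually (near_side hF hx hb hne hfx hfb hf1)
  obtain ⟨N, hN⟩ := eventually_atTop.1 hev
  obtain ⟨o, ho⟩ := hF.interior_nonempty
  have hline : ∀ n, N ≤ n → f (e (φ n)) = c := by
    intro n hn
    have h1 := hN n hn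
    have h2 : ¬ f ((1 / 2 : ℝ) • e (φ n) + (1 / 2 : ℝ) • z (e (φ n))) < c :=
      fun h => (hmf n).2 (h1 h)
    rw [map_add, map_smul, map_smul, smul_eq_mul, smul_eq_mul] at h2
    have h3 := hf2 _ (heE (φ n)).1
    have h4 := hf2 _ (hzF _ (heE (φ n)))
    linarith
  have hτ : ∀ n, N ≤ n → ∃ τ : ℝ, e (φ n) = (1 / 2 - τ) • x + (1 / 2 + τ) • b := fun n hn =>
    on_line hne (hf1 o ho) hfx hfb (hline n hn)
  obtain ⟨τ₁, h1⟩ := hτ N le_rfl
  obtain ⟨τ₂, h2⟩ := hτ (N + 1) (by omega)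
  obtain ⟨τ₃, h3⟩ := hτ (N + 2) (by omega)
  have hE1 := heE (φ N)
  have hE2 := heE (φ (N + 1))
  have hE3 := heE (φ (N + 2))
  have hn12 : τ₁ ≠ τ₂ := by
    intro h
    rw [h, ← h2] at h1
    have := hφ.injective (hinj h1)
    omega
  have hn13 : τ₁ ≠ τ₃ := by
    intro h
    rw [h, ← h3] at h1
    have := hφ.injective (hinj h1)
    omega
  have hn23 : τ₂ ≠ τ₃ := by
    intro h
    rw [h, ← h3] at h2
    have := hφ.injective (hinj h2)
    omega
  rw [h1] at hE1
  rw [h2] at hE2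
  rw [h3] at hE3
  rcases lt_or_gt_of_ne hn12 with a | a <;> rcases lt_or_gt_of_ne hn13 with b' | b' <;>
    rcases lt_or_gt_of_ne hn23 with c' | c'
  · exact three_on_line hne a c' hE1.1 hE2 hE3.1
  · exact three_on_line hne b' c' hE1.1 hE3 hE2.1
  · linarith
  · exact three_on_line hne b' a hE3.1 hE1 hE2.1
  · exact three_on_line hne a b' hE2.1 hE1 hE3.1
  · linarith
  · exact three_on_line hne c' b' hE2.1 hE3 hE1.1
  · exact three_on_line hne c' a hE3.1 hE2 hE1.1

/-- Hence the figure is a polygon. -/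
theorem polygon {F : Set Plane} (hF : IsFigure F) {α : ℝ} (hα : 0 < α) (H : Stuck F α) :
    ∃ s : Finset Plane, F = convexHull ℝ (s : Set Plane) := by
  have hfin := finite_ext hF hα H
  refine ⟨hfin.toFinset, ?_⟩
  rw [Finite.coe_toFinset]
  have h1 := closure_convexHull_extremePoints hF.compact hF.convex
  rw [(hfin.isCompact_convexHull ℝ).isClosed.closure_eq] at h1
  exact h1.symm

/-- A boundary segment from the midpoint of a side stays on the side. -/
lemma stay_on_side {F : Set Plane} (hF : IsFigure F) {x b : Plane} (hx : x ∈ F.extremePoints ℝ)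
    (hb : b ∈ F.extremePoints ℝ) (hne : x ≠ b) {f : Plane →L[ℝ] ℝ} {c : ℝ} (hfx : f x = c)
    (hfb : f b = c) (hlt : ∀ z ∈ interior F, f z < c) (hle : ∀ z ∈ F, f z ≤ c) {p : Plane}
    (hp : p ∈ F)
    (hseg : segment ℝ ((1 / 2 : ℝ) • x + (1 / 2 : ℝ) • b) p ⊆ frontier F) :
    ∃ τ : ℝ, -(1 / 2) ≤ τ ∧ τ ≤ 1 / 2 ∧ p = (1 / 2 - τ) • x + (1 / 2 + τ) • b := by
  set m : Plane := (1 / 2 : ℝ) • x + (1 / 2 : ℝ) • b with hm
  have hfm : f m = c := by
    rw [hm, map_add, map_smul, map_smul, hfx, hfb, smul_eq_mul]; ring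
  have hfp : f p = c := by
    by_contra hcon
    have hfp : f p < c := lt_of_le_of_ne (hle p hp) hcon
    have h1 : Tendsto (fun s : ℝ => (1 - s) • m + s • p) (𝓝[>] 0) (𝓝 m) := by
      have h2 : ContinuousAt (fun s : ℝ => (1 - s) • m + s • p) 0 := by fun_prop
      have h3 := h2.tendsto
      simp only [sub_zero, one_smul, zero_smul, add_zero] at h3
      exact h3.mono_left nhdsWithin_le_nhds
    have h4 := h1.eventually (near_side hF hx.1 hb.1 hne hfx hfb hlt)
    have h5 : ∀ᶠ s : ℝ in 𝓝[>] 0, s ∈ Ioo (0:ℝ) 1 := Ioo_mem_nhdsGT one_pos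
    obtain ⟨s, h6, h7, h8⟩ := (h4.and h5).exists
    have h9 : f ((1 - s) • m + s • p) < c := by
      rw [map_add, map_smul, map_smul, hfm, smul_eq_mul, smul_eq_mul]
      nlinarith
    have h10 : (1 - s) • m + s • p ∈ frontier F :=
      hseg ⟨1 - s, s, by linarith, h7.le, by ring, rfl⟩
    exact h10.2 (h6 h9)
  obtain ⟨o, ho⟩ := hF.interior_nonempty
  obtain ⟨τ, hτ⟩ := on_line hne (hlt o ho) hfx hfb hfp
  have ex : (1 / 2 - (-(1 / 2) : ℝ)) • x + (1 / 2 + (-(1 / 2) : ℝ)) • b = x := by module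
  have eb : (1 / 2 - (1 / 2 : ℝ)) • x + (1 / 2 + (1 / 2 : ℝ)) • b = b := by module
  refine ⟨τ, ?_, ?_, hτ⟩
  · by_contra hcon
    push Not at hcon
    refine three_on_line (F := F) hne hcon (show -(1 / 2 : ℝ) < 1 / 2 by norm_num) ?_ ?_ ?_
    · rw [← hτ]; exact hp
    · rw [ex]; exact hx
    · rw [eb]; exact hb.1
  · by_contra hcon
    push Not at hcon
    refine three_on_line (F := F) hne (show -(1 / 2 : ℝ) < 1 / 2 by norm_num) hcon ?_ ?_ ?_
    · rw [ex]; exact hx.1
    · rw [eb]; exact hb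
    · rw [← hτ]; exact hp

lemma triArea_on_line (x b r : Plane) (τ σ : ℝ) :
    triArea ((1 / 2 - τ) • x + (1 / 2 + τ) • b) ((1 / 2 - σ) • x + (1 / 2 + σ) • b) r =
      |σ - τ| * triArea x b r := by
  unfold triArea
  simp only [PiLp.add_apply, PiLp.smul_apply, smul_eq_mul]
  rw [mul_div_assoc', ← abs_mul]
  congr 2
  ring

/-- Every side spans with a point of `F` a triangle of area at least `α`. -/
theorem side {F : Set Plane} (hF : IsFigure F) {α : ℝ} (H : Stuck F α) {x b : Plane}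
    (hx : x ∈ F.extremePoints ℝ) (hb : b ∈ F.extremePoints ℝ) (hne : x ≠ b)
    (hs : segment ℝ x b ⊆ frontier F) : ∃ r ∈ F, α ≤ triArea x b r := by
  have hm : (1 / 2 : ℝ) • x + (1 / 2 : ℝ) • b ∈ frontier F :=
    hs ⟨1 / 2, 1 / 2, by norm_num, by norm_num, by norm_num, rfl⟩
  obtain ⟨f, hf1, hf2⟩ := support hF hm
  set c := f ((1 / 2 : ℝ) • x + (1 / 2 : ℝ) • b) with hc
  have hc' : c = 1 / 2 * f x + 1 / 2 * f b := by
    rw [hc, map_add, map_smul, map_smul, smul_eq_mul, smul_eq_mul]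
  have hfx : f x = c := by have := hf2 x hx.1; have := hf2 b hb.1; linarith
  have hfb : f b = c := by have := hf2 x hx.1; have := hf2 b hb.1; linarith
  obtain ⟨p, hp, q, hq, r, hr, h1, h2, h3⟩ := limit_lemma hF H hm
  obtain ⟨τ, ht1, ht2, rfl⟩ := stay_on_side hF hx hb hne hfx hfb hf1 hf2 hp h1
  obtain ⟨σ, hs1, hs2, rfl⟩ := stay_on_side hF hx hb hne hfx hfb hf1 hf2 hq h2
  refine ⟨r, hr, ?_⟩
  rw [triArea_on_line] at h3
  have h4 : |σ - τ| ≤ 1 := by rw [abs_le]; constructor <;> linarith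
  calc α ≤ |σ - τ| * triArea x b r := h3
    _ ≤ 1 * triArea x b r := mul_le_mul_of_nonneg_right h4 (triArea_nonneg _ _ _)
    _ = triArea x b r := one_mul _

/-- If a figure has the property that `n` points force a triangle of area at most `α`, while this
fails for `n + 1` points of every larger figure, then it is stuck. -/
theorem stuck_of {F : Set Plane} (hF : IsFigure F) {α : ℝ} {n : ℕ} (hn : 2 ≤ n)
    (h : Forced n F α)
    (hmin : ∀ F' : Set Plane, IsFigure F' → area F < area F' → ¬ Forced (n + 1) F' α) :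
    Stuck F α := by
  intro y hyF
  by_contra hcon
  push Not at hcon
  have hcl := hF.compact.isClosed
  have hFne : F.Nonempty := hF.interior_nonempty.mono interior_subset
  set F' := convexHull ℝ (insert y F) with hF'
  have hFF' : F ⊆ F' := (subset_insert _ _).trans (subset_convexHull ℝ _)
  have hyF' : y ∈ F' := subset_convexHull ℝ _ (mem_insert _ _)
  have hF'fig : IsFigure F' := by
    refine ⟨convex_convexHull ℝ _, isCompact_convexHull_insert hF.compact hF.convex hFne y, ?_⟩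
    exact hF.interior_nonempty.mono (interior_mono hFF')
  refine hmin F' hF'fig ?_ (h.succ_of_small hn hcon)
  have hopen : (interior F' ∩ Fᶜ).Nonempty := by
    have h1 : y ∈ closure (interior F') := by
      rw [hF'fig.convex.closure_interior_eq_closure_of_nonempty_interior
        hF'fig.interior_nonempty]
      exact subset_closure hyF'
    rw [mem_closure_iff] at h1
    obtain ⟨z, hz1, hz2⟩ := h1 Fᶜ hcl.isOpen_compl hyF
    exact ⟨z, hz2, hz1⟩
  have hpos : 0 < volume (interior F' ∩ Fᶜ) :=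
    (isOpen_interior.inter hcl.isOpen_compl).measure_pos volume hopen
  have h1 : volume F + volume (interior F' ∩ Fᶜ) ≤ volume F' := by
    rw [← measure_union]
    · exact measure_mono (union_subset hFF' (inter_subset_left.trans interior_subset))
    · exact disjoint_left.2 fun x hx hx' => hx'.2 hx
    · exact (isOpen_interior.inter hcl.isOpen_compl).measurableSet
  have h2 : volume F < volume F' := by
    refine lt_of_lt_of_le ?_ h1
    exact ENNReal.lt_add_right hF.compact.measure_lt_top.ne hpos.ne'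
  exact (ENNReal.toReal_lt_toReal hF.compact.measure_lt_top.ne
    hF'fig.compact.measure_lt_top.ne).2 h2

end Pool.Agent.helper47.SAlpha
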