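import Pool.Agent.helper47.SAlphaH

/-!
# Extremal configurations with two points on a side
-/

open Set MeasureTheory Filter Topology

namespace Pool.Agent.helper47.SAlpha

/-- Every point added to `F` allows a configuration of `N` points, two of them new, without a
triangle of area at most `α`. -/
def StuckN (F : Set Plane) (α : ℝ) (N : ℕ) : Prop :=
  ∀ y, y ∉ F → ∃ P : Fin N → Plane, (∀ i, P i ∈ convexHull ℝ (insert y F)) ∧
    (∃ i j, i ≠ j ∧ P i ∉ F ∧ P j ∉ F) ∧
    ∀ i j k, i ≠ j → i ≠ k → j ≠ k → α < triArea (P i) (P j) (P k)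

theorem stuckN_of {F : Set Plane} (hF : IsFigure F) {α : ℝ} {n : ℕ}
    (h : Forced n F α)
    (hmin : ∀ F' : Set Plane, IsFigure F' → area F < area F' → ¬ Forced (n + 1) F' α) :
    StuckN F α (n + 1) := by
  intro y hyF
  have hcl := hF.compact.isClosed
  have hFne : F.Nonempty := hF.interior_nonempty.mono interior_subset
  set F' := convexHull ℝ (insert y F) with hF'
  have hFF' : F ⊆ F' := (subset_insert _ _).trans (subset_convexHull ℝ _)
  have hyF' : y ∈ F' := subset_convexHull ℝ _ (mem_insert _ _)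
  have hF'fig : IsFigure F' := by
    refine ⟨convex_convexHull ℝ _, isCompact_convexHull_insert hF.compact hF.convex hFne y, ?_⟩
    exact hF.interior_nonempty.mono (interior_mono hFF')
  have hopen : (interior F' ∩ Fᶜ).Nonempty := by
    have h1 : y ∈ closure (interior F') := by
      rw [hF'fig.convex.closure_interior_eq_closure_of_nonempty_interior
        hF'fig.interior_nonempty]
      exact subset_closure hyF'
    rw [mem_closure_iff] at h1
    obtain ⟨z, hz1, hz2⟩ := h1 Fᶜ hcl.isOpen_compl hyF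
    exact ⟨z, hz2, hz1⟩
  have hpos : 0 < volume (interior F' ∩ Fᶜ) :=
    (isOpen_interior.inter hcl.isOpen_compl).measure_pos volume hopen
  have h1 : volume F + volume (interior F' ∩ Fᶜ) ≤ volume F' := by
    rw [← measure_union]
    · exact measure_mono (union_subset hFF' (inter_subset_left.trans interior_subset))
    · exact disjoint_left.2 fun x hx hx' => hx'.2 hx
    · exact (isOpen_interior.inter hcl.isOpen_compl).measurableSet
  have h2 : volume F < volume F' := by
    refine lt_of_lt_of_le ?_ h1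
    exact ENNReal.lt_add_right hF.compact.measure_lt_top.ne hpos.ne'
  have harea : area F < area F' := (ENNReal.toReal_lt_toReal hF.compact.measure_lt_top.ne
    hF'fig.compact.measure_lt_top.ne).2 h2
  have hnf := hmin F' hF'fig harea
  unfold Forced at hnf
  push Not at hnf
  obtain ⟨s, hsF, hcard, hs⟩ := hnf
  have hout : ∃ p ∈ s, ∃ q ∈ s, p ≠ q ∧ p ∉ F ∧ q ∉ F := by
    classical
    by_contra hcon
    push Not at hcon
    have : ∃ t ⊆ s, t.card = n ∧ (t : Set Plane) ⊆ F := by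
      by_cases hex : ∃ p ∈ s, p ∉ F
      · obtain ⟨p, hp, hpF⟩ := hex
        refine ⟨s.erase p, Finset.erase_subset _ _, ?_, ?_⟩
        · rw [Finset.card_erase_of_mem hp, hcard]; rfl
        · intro q hq
          rw [Finset.mem_coe, Finset.mem_erase] at hq
          exact hcon p hp q hq.2 (Ne.symm hq.1) hpF
      · push Not at hex
        obtain ⟨t, hts, htc⟩ := Finset.exists_subset_card_eq (by omega : n ≤ s.card)
        exact ⟨t, hts, htc, fun x hx => hex x (hts hx)⟩
    obtain ⟨t, hts, htc, htF⟩ := this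
    obtain ⟨a, ha, b, hb, c, hc', h1, h2, h3, h4⟩ := h t htF htc
    exact absurd h4 (not_le.2 (hs a (hts ha) b (hts hb) c (hts hc') h1 h2 h3))
  obtain ⟨p, hp, q, hq, hpq, hpF, hqF⟩ := hout
  set E := s.equivFinOfCardEq hcard with hE
  refine ⟨fun i => (E.symm i : Plane), fun i => hsF (E.symm i).2,
    ⟨E ⟨p, hp⟩, E ⟨q, hq⟩, ?_, ?_, ?_⟩, ?_⟩
  · intro h
    exact hpq (congrArg Subtype.val (E.injective h))
  · simpa using hpF
  · simpa using hqF
  · intro i j k hij hik hjk
    refine hs _ (E.symm i).2 _ (E.symm j).2 _ (E.symm k).2 ?_ ?_ ?_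
    · exact fun h => hij (E.symm.injective (Subtype.ext h))
    · exact fun h => hik (E.symm.injective (Subtype.ext h))
    · exact fun h => hjk (E.symm.injective (Subtype.ext h))

theorem limit_lemmaN {F : Set Plane} (hF : IsFigure F) {α : ℝ} {N : ℕ} (H : StuckN F α N)
    {e : Plane} (he : e ∈ frontier F) :
    ∃ P : Fin N → Plane, (∀ i, P i ∈ F) ∧
      (∃ i j, i ≠ j ∧ segment ℝ e (P i) ⊆ frontier F ∧ segment ℝ e (P j) ⊆ frontier F) ∧
      ∀ i j k, i ≠ j → i ≠ k → j ≠ k → α ≤ triArea (P i) (P j) (P k) := by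
  have hcl := hF.compact.isClosed
  have hne : F.Nonempty := hF.interior_nonempty.mono interior_subset
  rw [frontier_eq_closure_inter_closure] at he
  have heF : e ∈ F := by rw [← hcl.closure_eq]; exact he.1
  obtain ⟨y, hyF, hy⟩ := mem_closure_iff_seq_limit.1 he.2
  have hdata : ∀ n : ℕ, ∃ D : (Fin N × Fin N) × (Fin N → ℝ × Plane),
      D ∈ (univ : Set (Fin N × Fin N)) ×ˢ
        (Set.pi univ (fun _ : Fin N => Icc (0:ℝ) 1 ×ˢ F)) ∧
      D.1.1 ≠ D.1.2 ∧
      (1 - (D.2 D.1.1).1) • y n + (D.2 D.1.1).1 • (D.2 D.1.1).2 ∉ F ∧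
      (1 - (D.2 D.1.2).1) • y n + (D.2 D.1.2).1 • (D.2 D.1.2).2 ∉ F ∧
      ∀ i j k, i ≠ j → i ≠ k → j ≠ k →
        α < triArea ((1 - (D.2 i).1) • y n + (D.2 i).1 • (D.2 i).2)
          ((1 - (D.2 j).1) • y n + (D.2 j).1 • (D.2 j).2)
          ((1 - (D.2 k).1) • y n + (D.2 k).1 • (D.2 k).2) := by
    intro n
    obtain ⟨P, hP, ⟨i, j, hij, hi, hj⟩, hα⟩ := H (y n) (hyF n)
    have h1 : ∀ i, ∃ t : ℝ × Plane, t ∈ Icc (0:ℝ) 1 ×ˢ F ∧ P i = (1 - t.1) • y n + t.1 • t.2 := by
      intro i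
      obtain ⟨t, ht0, ht1, f, hf, hPi⟩ := mem_hull_insert hF.convex hne (hP i)
      exact ⟨(t, f), ⟨⟨ht0, ht1⟩, hf⟩, hPi⟩
    choose T hT hPT using h1
    refine ⟨((i, j), T), ⟨mem_univ _, fun i _ => hT i⟩, hij, ?_, ?_, ?_⟩
    · change (1 - (T i).1) • y n + (T i).1 • (T i).2 ∉ F
      rwa [← hPT]
    · change (1 - (T j).1) • y n + (T j).1 • (T j).2 ∉ F
      rwa [← hPT]
    · intro i j k h1 h2 h3
      have := hα i j k h1 h2 h3
      rwa [hPT i, hPT j, hPT k] at this
  choose D hDK hD0 hD1 hD2 hD3 using hdata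
  have hK : IsCompact ((univ : Set (Fin N × Fin N)) ×ˢ
      (Set.pi univ (fun _ : Fin N => Icc (0:ℝ) 1 ×ˢ F))) :=
    isCompact_univ.prod (isCompact_univ_pi fun _ => isCompact_Icc.prod hF.compact)
  obtain ⟨L, hL, φ, hφ, hlim⟩ := hK.tendsto_subseq hDK
  have hyφ : Tendsto (y ∘ φ) atTop (𝓝 e) := hy.comp hφ.tendsto_atTop
  have hpair : Tendsto (fun n => (y (φ n), (D (φ n)).2)) atTop (𝓝 (e, L.2)) :=
    hyφ.prodMk_nhds ((continuous_snd.tendsto _).comp hlim)
  have hidx : ∀ᶠ n in atTop, (D (φ n)).1 = L.1 := by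
    have h1 : Tendsto (fun n => (D (φ n)).1) atTop (𝓝 L.1) :=
      (continuous_fst.tendsto _).comp hlim
    rw [nhds_discrete, tendsto_pure] at h1
    exact h1
  have hidx0 : L.1.1 ≠ L.1.2 := by
    obtain ⟨n, hn⟩ := hidx.exists
    rw [← hn]
    exact hD0 _
  set P : Fin N → Plane × (Fin N → ℝ × Plane) → Plane :=
    fun i x => (1 - (x.2 i).1) • x.1 + (x.2 i).1 • (x.2 i).2 with hP
  have hPc : ∀ i, Continuous (P i) := by
    intro i
    simp only [hP]
    fun_prop
  have hPF : ∀ i, P i (e, L.2) ∈ F := by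
    intro i
    have h1 := hL.2 i (mem_univ i)
    refine hF.convex heF h1.2 ?_ h1.1.1 (by ring)
    have := h1.1.2
    simp only
    linarith
  have hseg : ∀ i, (∀ᶠ n in atTop, P i (y (φ n), (D (φ n)).2) ∉ F) →
      segment ℝ e (P i (e, L.2)) ⊆ frontier F := by
    intro i hi w hw
    rw [frontier_eq_closure_inter_closure]
    refine ⟨subset_closure (hF.convex.segment_subset heF (hPF i) hw), ?_⟩
    obtain ⟨a, s, ha, hs, has, rfl⟩ := hw
    have ha' : a = 1 - s := by linarith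
    subst ha'
    have hlim2 : Tendsto (fun n => (1 - s) • y (φ n) + s • P i (y (φ n), (D (φ n)).2)) atTop
        (𝓝 ((1 - s) • e + s • P i (e, L.2))) := by
      have h1 : Continuous (fun x : Plane × (Fin N → ℝ × Plane) =>
        (1 - s) • x.1 + s • P i x) := by
        have := hPc i
        fun_prop
      exact (h1.tendsto (e, L.2)).comp hpair
    refine mem_closure_of_tendsto hlim2 (hi.mono fun n hn => ?_)
    have hm := (hDK (φ n)).2 i (mem_univ i)
    exact seg_out hF.convex hm.1.2 hm.2 hn (by linarith) hm.1.1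
  refine ⟨fun i => P i (e, L.2), hPF, ⟨L.1.1, L.1.2, hidx0, ?_, ?_⟩, ?_⟩
  · refine hseg _ (hidx.mono fun n hn => ?_)
    have := hD1 (φ n)
    rw [hn] at this
    exact this
  · refine hseg _ (hidx.mono fun n hn => ?_)
    have := hD2 (φ n)
    rw [hn] at this
    exact this
  · intro i j k hij hik hjk
    have h1 : Continuous (fun x : Plane × (Fin N → ℝ × Plane) =>
        triArea (P i x) (P j x) (P k x)) :=
      continuous_triArea.comp ((hPc i).prodMk ((hPc j).prodMk (hPc k)))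
    have h2 : Tendsto (fun n => triArea (P i (y (φ n), (D (φ n)).2))
        (P j (y (φ n), (D (φ n)).2)) (P k (y (φ n), (D (φ n)).2))) atTop
        (𝓝 (triArea (P i (e, L.2)) (P j (e, L.2)) (P k (e, L.2)))) :=
      (h1.tendsto (e, L.2)).comp hpair
    exact ge_of_tendsto' h2 (fun n => (hD3 (φ n) i j k hij hik hjk).le)

/-- Every side contains two points of an extremal configuration. -/
theorem sideN {F : Set Plane} (hF : IsFigure F) {α : ℝ} (hα : 0 < α) {N : ℕ} (hN : 3 ≤ N)
    (H : StuckN F α N) {x b : Plane}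
    (hx : x ∈ F.extremePoints ℝ) (hb : b ∈ F.extremePoints ℝ) (hne : x ≠ b)
    (hs : segment ℝ x b ⊆ frontier F) :
    ∃ t : Finset Plane, (t : Set Plane) ⊆ F ∧ t.card = N ∧
      (∀ p ∈ t, ∀ q ∈ t, ∀ r ∈ t, p ≠ q → p ≠ r → q ≠ r → α ≤ triArea p q r) ∧
      ∃ p ∈ t, ∃ q ∈ t, p ≠ q ∧ p ∈ segment ℝ x b ∧ q ∈ segment ℝ x b := by
  classical
  have hm : (1 / 2 : ℝ) • x + (1 / 2 : ℝ) • b ∈ frontier F :=
    hs ⟨1 / 2, 1 / 2, by norm_num, by norm_num, by norm_num, rfl⟩
  obtain ⟨f, hf1, hf2⟩ := support hF hm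
  set c := f ((1 / 2 : ℝ) • x + (1 / 2 : ℝ) • b) with hc
  have hc' : c = 1 / 2 * f x + 1 / 2 * f b := by
    rw [hc, map_add, map_smul, map_smul, smul_eq_mul, smul_eq_mul]
  have hfx : f x = c := by have := hf2 x hx.1; have := hf2 b hb.1; linarith
  have hfb : f b = c := by have := hf2 x hx.1; have := hf2 b hb.1; linarith
  obtain ⟨P, hP, ⟨i, j, hij, h1, h2⟩, h3⟩ := limit_lemmaN hF H hm
  obtain ⟨τ, ht1, ht2, hτ⟩ := stay_on_side hF hx hb hne hfx hfb hf1 hf2 (hP i) h1
  obtain ⟨σ, hs1, hs2, hσ⟩ := stay_on_side hF hx hb hne hfx hfb hf1 hf2 (hP j) h2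
  have hinj : Function.Injective P := by
    intro a b' hab
    by_contra hne'
    obtain ⟨k, hk⟩ : ∃ k : Fin N, k ∉ ({a, b'} : Finset (Fin N)) := by
      by_contra hcon
      push Not at hcon
      have h5 : (Finset.univ : Finset (Fin N)) ⊆ {a, b'} := fun k _ => hcon k
      have h6 := Finset.card_le_card h5
      have h7 := Finset.card_le_two (a := a) (b := b')
      rw [Finset.card_univ, Fintype.card_fin] at h6
      omega
    simp only [Finset.mem_insert, Finset.mem_singleton, not_or] at hk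
    have h4 := h3 a b' k hne' (Ne.symm hk.1) (Ne.symm hk.2)
    have h5 := triArea_le (P a) (P b') (P k)
    rw [hab, dist_self, zero_mul, zero_div] at h5
    rw [hab] at h4
    linarith
  refine ⟨Finset.univ.image P, ?_, ?_, ?_, P i, ?_, P j, ?_, fun h => hij (hinj h), ?_, ?_⟩
  · intro z hz
    rw [Finset.mem_coe, Finset.mem_image] at hz
    obtain ⟨k, -, rfl⟩ := hz
    exact hP k
  · rw [Finset.card_image_of_injective _ hinj, Finset.card_univ, Fintype.card_fin]
  · intro p hp q hq r hr hpq hpr hqr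
    obtain ⟨k1, -, rfl⟩ := Finset.mem_image.1 hp
    obtain ⟨k2, -, rfl⟩ := Finset.mem_image.1 hq
    obtain ⟨k3, -, rfl⟩ := Finset.mem_image.1 hr
    exact h3 _ _ _ (fun h => hpq (by rw [h])) (fun h => hpr (by rw [h]))
      (fun h => hqr (by rw [h]))
  · exact Finset.mem_image_of_mem _ (Finset.mem_univ _)
  · exact Finset.mem_image_of_mem _ (Finset.mem_univ _)
  · rw [hτ]
    exact ⟨1 / 2 - τ, 1 / 2 + τ, by linarith, by linarith, by ring, rfl⟩
  · rw [hσ]
    exact ⟨1 / 2 - σ, 1 / 2 + σ, by linarith, by linarith, by ring, rfl⟩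

lemma StuckN.stuck {F : Set Plane} {α : ℝ} {N : ℕ} (hN : 3 ≤ N) (H : StuckN F α N) :
    Stuck F α := by
  classical
  intro y hy
  obtain ⟨P, hP, ⟨i, j, hij, hi, hj⟩, hα⟩ := H y hy
  obtain ⟨k, hk⟩ : ∃ k : Fin N, k ∉ ({i, j} : Finset (Fin N)) := by
    by_contra hcon
    push Not at hcon
    have h5 : (Finset.univ : Finset (Fin N)) ⊆ {i, j} := fun k _ => hcon k
    have h6 := Finset.card_le_card h5
    have h7 := Finset.card_le_two (a := i) (b := j)
    rw [Finset.card_univ, Fintype.card_fin] at h6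
    omega
  simp only [Finset.mem_insert, Finset.mem_singleton, not_or] at hk
  exact ⟨P i, ⟨hP i, hi⟩, P j, ⟨hP j, hj⟩, P k, hP k,
    hα i j k hij (Ne.symm hk.1) (Ne.symm hk.2)⟩

end Pool.Agent.helper47.SAlpha
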