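import Pool.Agent.helper47.SAlphaI

/-!
# Rotating a side: extremal configurations with two points near one end of a side
-/

open Set MeasureTheory Filter Topology

namespace Pool.Agent.helper47.SAlpha

/-- Coordinates adapted to a functional and a vector in its kernel. -/
lemma coords {f : Plane →L[ℝ] ℝ} {v o : Plane} (hv : v ≠ 0) (hfv : f v = 0) (ho : f o ≠ 0) :
    ∃ g : Plane →L[ℝ] ℝ, ∃ n : Plane, g v = 1 ∧ g n = 0 ∧ f n = 1 ∧
      ∀ z, z = g z • v + f z • n := by
  have hn : ‖v‖ ^ 2 ≠ 0 := by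
    have := norm_pos_iff.2 hv
    positivity
  set g : Plane →L[ℝ] ℝ := (‖v‖ ^ 2)⁻¹ • innerSL ℝ v with hg
  have hgv : g v = 1 := by
    simp only [hg, smul_apply, innerSL_apply_apply, smul_eq_mul,
      real_inner_self_eq_norm_sq]
    exact inv_mul_cancel₀ hn
  set n : Plane := (f o)⁻¹ • (o - g o • v) with hnd
  have hgn : g n = 0 := by
    simp only [hnd, map_smul, map_sub, smul_eq_mul, hgv]
    ring
  have hfn : f n = 1 := by
    simp only [hnd, map_smul, map_sub, smul_eq_mul, hfv]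
    rw [mul_zero, sub_zero]
    exact inv_mul_cancel₀ ho
  refine ⟨g, n, hgv, hgn, hfn, fun z => ?_⟩
  have h1 : f (z - g z • v - f z • n) = 0 := by
    simp only [map_sub, map_smul, smul_eq_mul, hfv, hfn]; ring
  have h2 : g (z - g z • v - f z • n) = 0 := by
    simp only [map_sub, map_smul, smul_eq_mul, hgv, hgn]; ring
  obtain ⟨τ, hτ⟩ := prop_of_cross hv (ker_line ho h1 hfv)
  rw [hτ, map_smul, hgv, smul_eq_mul, mul_one] at h2
  rw [h2, zero_smul, sub_eq_zero, sub_eq_iff_eq_add] at hτ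
  rw [add_comm] at hτ
  exact hτ

/-- Every larger figure contains a configuration of `N` points, two of them outside `F`, without
a triangle of area at most `α`. -/
def Rich (F : Set Plane) (α : ℝ) (N : ℕ) : Prop :=
  ∀ G, IsFigure G → area F < area G → ∃ P : Fin N → Plane, (∀ i, P i ∈ G) ∧
    (∃ i j, i ≠ j ∧ P i ∉ F ∧ P j ∉ F) ∧
    ∀ i j k, i ≠ j → i ≠ k → j ≠ k → α < triArea (P i) (P j) (P k)

theorem rich_of {F : Set Plane} {α : ℝ} {n : ℕ}
    (h : Forced n F α)
    (hmin : ∀ F' : Set Plane, IsFigure F' → area F < area F' → ¬ Forced (n + 1) F' α) :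
    Rich F α (n + 1) := by
  intro F' hF'fig harea
  have hnf := hmin F' hF'fig harea
  unfold Forced at hnf
  push Not at hnf
  obtain ⟨s, hsF, hcard, hs⟩ := hnf
  have hout : ∃ p ∈ s, ∃ q ∈ s, p ≠ q ∧ p ∉ F ∧ q ∉ F := by
    classical
    by_contra hcon
    push Not at hcon
    have : ∃ t ⊆ s, t.card = n ∧ (t : Set Plane) ⊆ F := by
      by_cases hex : ∃ p ∈ s, p ∉ F
      · obtain ⟨p, hp, hpF⟩ := hex
        refine ⟨s.erase p, Finset.erase_subset _ _, ?_, ?_⟩
        · rw [Finset.card_erase_of_mem hp, hcard]; rfl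
        · intro q hq
          rw [Finset.mem_coe, Finset.mem_erase] at hq
          exact hcon p hp q hq.2 (Ne.symm hq.1) hpF
      · push Not at hex
        obtain ⟨t, hts, htc⟩ := Finset.exists_subset_card_eq (by omega : n ≤ s.card)
        exact ⟨t, hts, htc, fun x hx => hex x (hts hx)⟩
    obtain ⟨t, hts, htc, htF⟩ := this
    obtain ⟨a, ha, b, hb, c, hc', h1, h2, h3, h4⟩ := h t htF htc
    exact absurd h4 (not_le.2 (hs a (hts ha) b (hts hb) c (hts hc') h1 h2 h3))
  obtain ⟨p, hp, q, hq, hpq, hpF, hqF⟩ := hout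
  set E := s.equivFinOfCardEq hcard with hE
  refine ⟨fun i => (E.symm i : Plane), fun i => hsF (E.symm i).2,
    ⟨E ⟨p, hp⟩, E ⟨q, hq⟩, ?_, ?_, ?_⟩, ?_⟩
  · intro h
    exact hpq (congrArg Subtype.val (E.injective h))
  · simpa using hpF
  · simpa using hqF
  · intro i j k hij hik hjk
    refine hs _ (E.symm i).2 _ (E.symm j).2 _ (E.symm k).2 ?_ ?_ ?_
    · exact fun h => hij (E.symm.injective (Subtype.ext h))
    · exact fun h => hik (E.symm.injective (Subtype.ext h))
    · exact fun h => hjk (E.symm.injective (Subtype.ext h))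

section Rotate

variable {F : Set Plane} {x v n : Plane} {f g : Plane →L[ℝ] ℝ}

/-- The data of a side `[x, x + v]` on the line `f = f x`, with coordinates. -/
structure Side (F : Set Plane) (x v n : Plane) (f g : Plane →L[ℝ] ℝ) : Prop where
  fig : IsFigure F
  v0 : v ≠ 0
  hx : x ∈ F.extremePoints ℝ
  hb : x + v ∈ F.extremePoints ℝ
  fv : f v = 0
  fn : f n = 1
  gv : g v = 1
  gn : g n = 0
  dec : ∀ z, z = g z • v + f z • n
  lt : ∀ z ∈ interior F, f z < f x
  le : ∀ z ∈ F, f z ≤ f x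

/-- The half-plane below the rotated line. -/
def HP (x : Plane) (f g : Plane →L[ℝ] ℝ) (μ t : ℝ) : Set Plane :=
  {z | f (z - x) + t * (g (z - x) - μ) ≤ 0}

lemma convex_HP (x : Plane) (f g : Plane →L[ℝ] ℝ) (μ t : ℝ) : Convex ℝ (HP x f g μ t) := by
  intro z hz w hw a b ha hb hab
  have h1 : a • z + b • w - x = a • (z - x) + b • (w - x) := by
    have : a = 1 - b := by linarith
    subst this
    module
  simp only [HP, mem_ofPred_eq] at hz hw ⊢
  rw [h1, map_add, map_add, map_smul, map_smul, map_smul, map_smul]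
  simp only [smul_eq_mul]
  have h2 : a * f (z - x) + b * f (w - x) + t * (a * g (z - x) + b * g (w - x) - μ) =
      a * (f (z - x) + t * (g (z - x) - μ)) + b * (f (w - x) + t * (g (w - x) - μ)) := by
    have : a = 1 - b := by linarith
    subst this
    ring
  rw [h2]
  nlinarith [mul_nonpos_of_nonneg_of_nonpos ha hz, mul_nonpos_of_nonneg_of_nonpos hb hw]

lemma isClosed_HP (x : Plane) (f g : Plane →L[ℝ] ℝ) (μ t : ℝ) : IsClosed (HP x f g μ t) := by
  apply isClosed_le <;> fun_prop

/-- The new vertex. -/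
noncomputable def yy (x v n : Plane) (κ μ t : ℝ) : Plane := x + κ • v + (t * (μ - κ)) • n

/-- The rotated figure. -/
noncomputable def GG (F : Set Plane) (x v n : Plane) (f g : Plane →L[ℝ] ℝ) (κ μ t : ℝ) :
    Set Plane :=
  convexHull ℝ (insert (yy x v n κ μ t) (F ∩ HP x f g μ t))

lemma Side.point_mem (S : Side F x v n f g) {u : ℝ} (h0 : 0 ≤ u) (h1 : u ≤ 1) :
    x + u • v ∈ F := by
  have : x + u • v = (1 - u) • x + u • (x + v) := by module
  rw [this]
  exact S.fig.convex S.hx.1 S.hb.1 (by linarith) h0 (by ring)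

/-- Points of `F` on the line of the side lie on the side. -/
lemma Side.on_side (S : Side F x v n f g) {z : Plane} (hz : z ∈ F) (hf : f z = f x) :
    0 ≤ g (z - x) ∧ g (z - x) ≤ 1 ∧ z = x + g (z - x) • v := by
  have h1 : z = x + g (z - x) • v := by
    have h2 := S.dec (z - x)
    have h3 : f (z - x) = 0 := by rw [map_sub, hf, sub_self]
    rw [h3, zero_smul, add_zero, sub_eq_iff_eq_add] at h2
    rw [add_comm] at h2
    exact h2
  have hne : x ≠ x + v := fun h => S.v0 (by simpa using h.symm)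
  set u := g (z - x) with hu
  have e0 : ∀ τ : ℝ, (1 / 2 - τ) • x + (1 / 2 + τ) • (x + v) = x + (1 / 2 + τ) • v := by
    intro τ; module
  refine ⟨?_, ?_, h1⟩
  · by_contra hcon
    push Not at hcon
    refine three_on_line (F := F) hne (show u - 1 / 2 < -(1 / 2 : ℝ) by linarith)
      (show -(1 / 2 : ℝ) < 1 / 2 by norm_num) ?_ ?_ ?_
    · rw [e0, show (1 / 2 : ℝ) + (u - 1 / 2) = u by ring, ← h1]; exact hz
    · rw [e0, show (1 / 2 : ℝ) + -(1 / 2) = 0 by ring, zero_smul, add_zero]; exact S.hx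
    · rw [e0, show (1 / 2 : ℝ) + (1 / 2) = 1 by ring, one_smul]; exact S.hb.1
  · by_contra hcon
    push Not at hcon
    refine three_on_line (F := F) hne (show -(1 / 2 : ℝ) < 1 / 2 by norm_num)
      (show (1 / 2 : ℝ) < u - 1 / 2 by linarith) ?_ ?_ ?_
    · rw [e0, show (1 / 2 : ℝ) + -(1 / 2) = 0 by ring, zero_smul, add_zero]; exact S.hx.1
    · rw [e0, show (1 / 2 : ℝ) + (1 / 2) = 1 by ring, one_smul]; exact S.hb
    · rw [e0, show (1 / 2 : ℝ) + (u - 1 / 2) = u by ring, ← h1]; exact hz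

/-- Near the side the coordinate `g` is at most `1 + ε`. -/
lemma Side.near_le (S : Side F x v n f g) {ε : ℝ} (hε : 0 < ε) :
    ∃ η : ℝ, 0 < η ∧ ∀ z ∈ F, -η < f (z - x) → g (z - x) < 1 + ε := by
  set K := F ∩ {z | 1 + ε ≤ g (z - x)} with hK
  have hKc : IsCompact K := S.fig.compact.inter_right (isClosed_le (by fun_prop) (by fun_prop))
  rcases K.eq_empty_or_nonempty with h | h
  · refine ⟨1, one_pos, fun z hz _ => ?_⟩
    by_contra hcon
    push Not at hcon
    have : z ∈ K := ⟨hz, hcon⟩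
    rw [h] at this
    exact this
  · obtain ⟨w, hw, hmax⟩ := hKc.exists_isMaxOn h
      (show ContinuousOn (fun z => f (z - x)) K by fun_prop)
    have hw1 : f (w - x) < 0 := by
      have h1 := S.le w hw.1
      rw [map_sub]
      rcases lt_or_eq_of_le h1 with h2 | h2
      · linarith
      · have h3 := S.on_side hw.1 h2
        have h4 : 1 + ε ≤ g (w - x) := hw.2
        linarith [h3.2.1]
    refine ⟨-f (w - x), by linarith, fun z hz hz2 => ?_⟩
    by_contra hcon
    push Not at hcon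
    have h1 : f (z - x) ≤ f (w - x) := hmax ⟨hz, hcon⟩
    linarith

lemma Side.yy_f (S : Side F x v n f g) (κ μ t : ℝ) : f (yy x v n κ μ t - x) = t * (μ - κ) := by
  unfold yy
  rw [show x + κ • v + (t * (μ - κ)) • n - x = κ • v + (t * (μ - κ)) • n by abel, map_add,
    map_smul, map_smul, S.fv, S.fn, smul_eq_mul, smul_eq_mul]
  ring

lemma Side.yy_g (S : Side F x v n f g) (κ μ t : ℝ) : g (yy x v n κ μ t - x) = κ := by
  unfold yy
  rw [show x + κ • v + (t * (μ - κ)) • n - x = κ • v + (t * (μ - κ)) • n by abel, map_add,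
    map_smul, map_smul, S.gv, S.gn, smul_eq_mul, smul_eq_mul]
  ring

lemma Side.GG_sub (S : Side F x v n f g) (κ μ t : ℝ) :
    GG F x v n f g κ μ t ⊆ HP x f g μ t := by
  apply convexHull_min _ (convex_HP x f g μ t)
  intro z hz
  rcases mem_insert_iff.1 hz with rfl | hz
  · simp only [HP, mem_ofPred_eq]
    rw [S.yy_f, S.yy_g]
    linarith
  · exact hz.2

lemma Side.x_HP (S : Side F x v n f g) {μ t : ℝ} (hμ : 0 < μ) (ht : 0 < t) :
    x ∈ F ∩ HP x f g μ t := by
  refine ⟨S.hx.1, ?_⟩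
  simp only [HP, mem_ofPred_eq, sub_self, map_zero, zero_sub, zero_add]
  nlinarith

lemma Side.GG_fig (S : Side F x v n f g) {κ μ t : ℝ} (hμ : 0 < μ) (ht : 0 < t) :
    IsFigure (GG F x v n f g κ μ t) := by
  refine ⟨convex_convexHull ℝ _, isCompact_convexHull_insert
    (S.fig.compact.inter_right (isClosed_HP x f g μ t))
    (S.fig.convex.inter (convex_HP x f g μ t)) ⟨x, S.x_HP hμ ht⟩ _, ?_⟩
  have h1 : x ∈ closure (interior F) := by
    rw [S.fig.convex.closure_interior_eq_closure_of_nonempty_interior S.fig.interior_nonempty]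
    exact subset_closure S.hx.1
  have hO : IsOpen {z : Plane | f (z - x) + t * (g (z - x) - μ) < 0} := by
    apply isOpen_lt <;> fun_prop
  rw [mem_closure_iff] at h1
  obtain ⟨z, hz1, hz2⟩ := h1 _ hO (by
    simp only [mem_ofPred_eq, sub_self, map_zero, zero_sub, zero_add]
    nlinarith)
  refine ⟨z, mem_interior.2 ⟨interior F ∩ {z : Plane | f (z - x) + t * (g (z - x) - μ) < 0},
    ?_, isOpen_interior.inter hO, hz2, hz1⟩⟩
  intro w hw
  refine subset_convexHull ℝ _ (mem_insert_of_mem _ ⟨interior_subset hw.1, ?_⟩)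
  have : f (w - x) + t * (g (w - x) - μ) < 0 := hw.2
  exact this.le

end Rotate

end Pool.Agent.helper47.SAlpha
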