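import Pool.Agent.helper47.SAlphaJ

/-!
# Rotating a side: the area
-/

open Set MeasureTheory Filter Topology

namespace Pool.Agent.helper47.SAlpha

lemma area_add_le {A B C : Set Plane} (h : A ⊆ B ∪ C) (hB : volume B ≠ ⊤) (hC : volume C ≠ ⊤) :
    area A ≤ area B + area C := by
  unfold area
  rw [← ENNReal.toReal_add hB hC]
  exact ENNReal.toReal_mono (ENNReal.add_ne_top.2 ⟨hB, hC⟩)
    ((measure_mono h).trans (measure_union_le _ _))

lemma area_add_ge {A B C : Set Plane} (hd : Disjoint B C) (hB : MeasurableSet B)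
    (h : B ∪ C ⊆ A) (hA : volume A ≠ ⊤) : area B + area C ≤ area A := by
  have h1 : volume B + volume C ≤ volume A := by
    rw [← measure_union' hd hB]
    exact measure_mono h
  have hBt : volume B ≠ ⊤ := ne_top_of_le_ne_top hA ((le_add_of_nonneg_right bot_le).trans h1)
  have hCt : volume C ≠ ⊤ := ne_top_of_le_ne_top hA ((le_add_of_nonneg_left bot_le).trans h1)
  unfold area
  rw [← ENNReal.toReal_add hBt hCt]
  exact ENNReal.toReal_mono hA h1

variable {F : Set Plane} {x v n : Plane} {f g : Plane →L[ℝ] ℝ}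

lemma Side.area_GG (S : Side F x v n f g) {κ μ : ℝ} (hκ : 0 < κ) (hμ1 : μ < 1)
    (h : 1 + κ < 2 * μ) :
    ∃ t₀ : ℝ, 0 < t₀ ∧ ∀ t, 0 < t → t < t₀ → area F < area (GG F x v n f g κ μ t) := by
  have hκμ : κ < μ := by linarith
  have hμ0 : 0 < μ := by linarith
  set ε : ℝ := (2 * μ - 1 - κ) / 2 with hε
  have hε0 : 0 < ε := by rw [hε]; linarith
  have hd0 : 0 < 1 + ε - μ := by linarith
  have hd1 : 1 + ε - μ < μ - κ := by rw [hε]; linarith
  set l : ℝ := (μ - κ) / (1 + ε - μ) with hl
  have hl1 : 1 < l := by rw [hl, one_lt_div hd0]; exact hd1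
  have hld : l * (1 + ε - μ) = μ - κ := by rw [hl]; exact div_mul_cancel₀ _ hd0.ne'
  obtain ⟨η, hη, hnear⟩ := S.near_le hε0
  obtain ⟨C, hC, hCb⟩ : ∃ C : ℝ, 0 < C ∧ ∀ z ∈ F, g (z - x) - μ ≤ C := by
    obtain ⟨C, hC⟩ := (S.fig.compact.image (show Continuous (fun z => g (z - x) - μ) by
      fun_prop)).bddAbove
    exact ⟨|C| + 1, by positivity, fun z hz => by
      have := hC (mem_image_of_mem _ hz)
      linarith [le_abs_self C]⟩
  refine ⟨η / C, by positivity, fun t ht htη => ?_⟩
  rw [lt_div_iff₀ hC] at htη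
  have hGfig := S.GG_fig (κ := κ) hμ0 ht
  set G := GG F x v n f g κ μ t with hG
  set M : Plane := x + μ • v with hM
  set cut : Set Plane := interior F ∩ {z | 0 < f (z - x) + t * (g (z - x) - μ)} with hcut
  have hcutO : IsOpen cut := isOpen_interior.inter (by apply isOpen_lt <;> fun_prop)
  have hcutne : cut.Nonempty := by
    have h1 : x + ((1 + μ) / 2) • v ∈ closure (interior F) := by
      rw [S.fig.convex.closure_interior_eq_closure_of_nonempty_interior
        S.fig.interior_nonempty]
      exact subset_closure (S.point_mem (by linarith) (by linarith))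
    have hO : IsOpen {z : Plane | 0 < f (z - x) + t * (g (z - x) - μ)} := by
      apply isOpen_lt <;> fun_prop
    rw [mem_closure_iff] at h1
    obtain ⟨z, hz1, hz2⟩ := h1 _ hO (by
      simp only [mem_ofPred_eq, add_sub_cancel_left, map_smul, S.fv, S.gv, smul_eq_mul]
      have : 0 < t * ((1 + μ) / 2 - μ) := mul_pos ht (by linarith)
      linarith)
    exact ⟨z, hz2, hz1⟩
  have hcutF : cut ⊆ F := fun z hz => interior_subset hz.1
  have hFfin : volume F ≠ ⊤ := S.fig.compact.measure_lt_top.ne
  have hcutfin : volume cut ≠ ⊤ := ne_top_of_le_ne_top hFfin (measure_mono hcutF)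
  have hcutpos : 0 < area cut := by
    unfold area
    exact ENNReal.toReal_pos (hcutO.measure_pos volume hcutne).ne' hcutfin
  -- properties of the points of the cut
  have hprop : ∀ z ∈ cut, f (z - x) < 0 ∧ μ < g (z - x) ∧ g (z - x) < 1 + ε := by
    rintro z ⟨hz1, hz2⟩
    have hz2 : 0 < f (z - x) + t * (g (z - x) - μ) := hz2
    have h1 : f (z - x) < 0 := by rw [map_sub]; linarith [S.lt z hz1]
    have h2 : μ < g (z - x) := by
      by_contra hcon
      push Not at hcon
      have : t * (g (z - x) - μ) ≤ 0 := mul_nonpos_of_nonneg_of_nonpos ht.le (by linarith)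
      linarith
    refine ⟨h1, h2, hnear z (interior_subset hz1) ?_⟩
    have h3 := hCb z (interior_subset hz1)
    have h4 : t * (g (z - x) - μ) ≤ t * C := mul_le_mul_of_nonneg_left h3 ht.le
    linarith
  -- the reflected cut
  have hGcv := hGfig.convex
  have hyG : yy x v n κ μ t ∈ G := subset_convexHull ℝ _ (mem_insert _ _)
  have hFG : F ∩ HP x f g μ t ⊆ G := fun z hz => subset_convexHull ℝ _ (mem_insert_of_mem _ hz)
  have hlineG : ∀ u, 0 ≤ u → u ≤ μ → x + u • v ∈ G := by
    intro u hu0 hu1
    refine hFG ⟨S.point_mem hu0 (by linarith), ?_⟩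
    simp only [HP, mem_ofPred_eq, add_sub_cancel_left, map_smul, S.fv, S.gv, smul_eq_mul]
    nlinarith
  have himG : ∀ z ∈ cut, sim ((1 + l) • M) (-l) z ∈ G ∧ 0 < f (sim ((1 + l) • M) (-l) z - x) := by
    intro z hz
    obtain ⟨h1, h2, h3⟩ := hprop z hz
    have hz2 : 0 < f (z - x) + t * (g (z - x) - μ) := hz.2
    have hzd := S.dec (z - x)
    set a := g (z - x) with ha
    set w := f (z - x) with hw
    have hz' : z = x + a • v + w • n := by
      rw [sub_eq_iff_eq_add] at hzd
      rw [hzd]; abel
    have hsim : sim ((1 + l) • M) (-l) z = x + (μ - l * (a - μ)) • v + (-l * w) • n := by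
      unfold sim
      rw [hz', hM]
      module
    have hU1 : κ < μ - l * (a - μ) := by
      have : l * (a - μ) < l * (1 + ε - μ) := mul_lt_mul_of_pos_left (by linarith) (by linarith)
      linarith
    have hU2 : μ - l * (a - μ) < μ := by
      have : 0 < l * (a - μ) := mul_pos (by linarith) (by linarith)
      linarith
    set U := μ - l * (a - μ) with hU
    have hV0 : 0 < -l * w := by nlinarith
    have hV1 : -l * w < t * (μ - U) := by
      rw [hU]
      have : -w < t * (a - μ) := by linarith
      have := mul_lt_mul_of_pos_left this (show 0 < l by linarith)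
      calc -l * w = l * -w := by ring
        _ < l * (t * (a - μ)) := this
        _ = t * (μ - (μ - l * (a - μ))) := by ring
    have hf : f (x + U • v + (-l * w) • n - x) = -l * w := by
      rw [show x + U • v + (-l * w) • n - x = U • v + (-l * w) • n by abel, map_add, map_smul,
        map_smul, S.fv, S.fn, smul_eq_mul, smul_eq_mul]
      ring
    refine ⟨?_, by rw [hsim, hf]; exact hV0⟩
    rw [hsim]
    have htU : 0 < t * (μ - U) := mul_pos ht (by linarith)
    set q := -l * w / (t * (μ - U)) with hq
    have hq0 : 0 ≤ q := (div_pos hV0 htU).le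
    have hq1 : q ≤ 1 := by rw [hq, div_le_one htU]; exact hV1.le
    have hqe : q * (t * (μ - U)) = -l * w := div_mul_cancel₀ _ htU.ne'
    have hB : (1 - q) • (x + κ • v) + q • yy x v n κ μ t ∈ G :=
      hGcv (hlineG κ hκ.le hκμ.le) hyG (by linarith) hq0 (by ring)
    have hμκ : 0 < μ - κ := by linarith
    set r := (μ - U) / (μ - κ) with hr
    have hr0 : 0 ≤ r := (div_pos (by linarith) hμκ).le
    have hr1 : r ≤ 1 := by rw [hr, div_le_one hμκ]; linarith
    have hre : r * (μ - κ) = μ - U := div_mul_cancel₀ _ hμκ.ne'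
    have hfin : (1 - r) • M + r • ((1 - q) • (x + κ • v) + q • yy x v n κ μ t) ∈ G :=
      hGcv (hlineG μ hμ0.le le_rfl) hB (by linarith) hr0 (by ring)
    have key : (1 - r) • M + r • ((1 - q) • (x + κ • v) + q • yy x v n κ μ t) =
        x + (μ - r * (μ - κ)) • v + (q * (t * (r * (μ - κ)))) • n := by
      rw [hM]
      unfold yy
      module
    rw [key, hre, hqe, show μ - (μ - U) = U by ring] at hfin
    exact hfin
  -- areas
  have hint : area F ≤ area (interior F) := by
    have h1 : F ⊆ interior F ∪ frontier F := by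
      intro z hz
      by_cases h : z ∈ interior F
      · exact Or.inl h
      · exact Or.inr ⟨subset_closure hz, h⟩
    have h2 : volume (frontier F) = 0 := S.fig.convex.addHaar_frontier volume
    have h3 := area_add_le h1 (ne_top_of_le_ne_top hFfin (measure_mono interior_subset))
      (by rw [h2]; exact ENNReal.zero_ne_top)
    have h4 : area (frontier F) = 0 := by unfold area; rw [h2]; rfl
    linarith
  have hB1 : volume (F ∩ HP x f g μ t) ≠ ⊤ :=
    ne_top_of_le_ne_top hFfin (measure_mono inter_subset_left)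
  have h5 : area (interior F) ≤ area (F ∩ HP x f g μ t) + area cut := by
    refine area_add_le ?_ hB1 hcutfin
    intro z hz
    by_cases h : 0 < f (z - x) + t * (g (z - x) - μ)
    · exact Or.inr ⟨hz, h⟩
    · exact Or.inl ⟨interior_subset hz, not_lt.1 h⟩
  have h6 : area (F ∩ HP x f g μ t) + area (sim ((1 + l) • M) (-l) '' cut) ≤ area G := by
    refine area_add_ge ?_ (S.fig.compact.isClosed.inter (isClosed_HP x f g μ t)).measurableSet
      ?_ hGfig.compact.measure_lt_top.ne
    · rw [disjoint_left]
      rintro z hz1 ⟨w, hw, rfl⟩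
      have h7 := (himG w hw).2
      have h8 := S.le _ hz1.1
      rw [map_sub] at h7
      linarith
    · apply union_subset hFG
      rintro z ⟨w, hw, rfl⟩
      exact (himG w hw).1
  rw [area_sim] at h6
  have h7 : area cut < (-l) ^ 2 * area cut := by
    have : 1 < (-l) ^ 2 := by nlinarith
    nlinarith
  linarith

end Pool.Agent.helper47.SAlpha
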