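import Pool.Agent.helper47.SAlphaK

/-!
# Rotating a side: the limit
-/

open Set MeasureTheory Filter Topology

namespace Pool.Agent.helper47.SAlpha

variable {F : Set Plane} {x v n : Plane} {f g : Plane →L[ℝ] ℝ}

lemma Side.f_line (S : Side F x v n f g) (u : ℝ) : f (x + u • v) = f x := by
  rw [map_add, map_smul, S.fv, smul_zero, add_zero]

/-- Near a relative interior point of the side all points on the inner side are interior. -/
lemma Side.near_at (S : Side F x v n f g) {u : ℝ} (h0 : 0 < u) (h1 : u < 1) :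
    ∀ᶠ w in 𝓝 (x + u • v), f w < f x → w ∈ interior F := by
  set r : ℝ := min u (1 - u) with hr
  have hr0 : 0 < r := lt_min h0 (by linarith)
  have hr1 : r ≤ u := min_le_left _ _
  have hr2 : r ≤ 1 - u := min_le_right _ _
  have h2 := near_side S.fig (x := x + (u - r) • v) (b := x + (u + r) • v)
    (S.point_mem (by linarith) (by linarith)) (S.point_mem (by linarith) (by linarith))
    (by
      intro h
      have h3 : (2 * r) • v = 0 := by
        have h4 := sub_eq_zero.2 h.symm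
        rw [← h4]
        module
      rcases smul_eq_zero.1 h3 with h5 | h5
      · linarith
      · exact S.v0 h5) (c := f x) (S.f_line _) (S.f_line _) S.lt
  have h3 : (1 / 2 : ℝ) • (x + (u - r) • v) + (1 / 2 : ℝ) • (x + (u + r) • v) = x + u • v := by
    module
  rwa [h3] at h2

/-- Extraction of a limit configuration. -/
theorem extract {F : Set Plane} (hF : IsFigure F) {α : ℝ} {N : ℕ} {y : ℕ → Plane} {e : Plane}
    (heF : e ∈ F) (hy : Tendsto y atTop (𝓝 e)) {W : ℕ → Set Plane}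
    (H : ∀ m : ℕ, ∃ P : Fin N → Plane,
      (∀ i, ∃ t : ℝ, 0 ≤ t ∧ t ≤ 1 ∧ ∃ z ∈ F, P i = (1 - t) • y m + t • z) ∧
      (∀ i, P i ∈ W m) ∧ (∃ i j, i ≠ j ∧ P i ∉ F ∧ P j ∉ F) ∧
      ∀ i j k, i ≠ j → i ≠ k → j ≠ k → α < triArea (P i) (P j) (P k)) :
    ∃ φ : ℕ → ℕ, StrictMono φ ∧ ∃ Q : ℕ → Fin N → Plane, ∃ P : Fin N → Plane,
      (∀ i, Tendsto (fun m => Q m i) atTop (𝓝 (P i))) ∧ (∀ i, P i ∈ F) ∧
      (∃ i j, i ≠ j ∧ (∀ᶠ m in atTop, Q m i ∉ F) ∧ ∀ᶠ m in atTop, Q m j ∉ F) ∧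
      (∀ m i, Q m i ∈ W (φ m)) ∧
      (∀ m i, Q m i ∉ F → ∀ s : ℝ, 0 ≤ s → s ≤ 1 → (1 - s) • y (φ m) + s • Q m i ∉ F) ∧
      ∀ i j k, i ≠ j → i ≠ k → j ≠ k → α ≤ triArea (P i) (P j) (P k) := by
  have hdata : ∀ m : ℕ, ∃ D : (Fin N × Fin N) × (Fin N → ℝ × Plane),
      D ∈ (univ : Set (Fin N × Fin N)) ×ˢ
        (Set.pi univ (fun _ : Fin N => Icc (0:ℝ) 1 ×ˢ F)) ∧
      D.1.1 ≠ D.1.2 ∧
      (1 - (D.2 D.1.1).1) • y m + (D.2 D.1.1).1 • (D.2 D.1.1).2 ∉ F ∧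
      (1 - (D.2 D.1.2).1) • y m + (D.2 D.1.2).1 • (D.2 D.1.2).2 ∉ F ∧
      (∀ i j k, i ≠ j → i ≠ k → j ≠ k →
        α < triArea ((1 - (D.2 i).1) • y m + (D.2 i).1 • (D.2 i).2)
          ((1 - (D.2 j).1) • y m + (D.2 j).1 • (D.2 j).2)
          ((1 - (D.2 k).1) • y m + (D.2 k).1 • (D.2 k).2)) ∧
      ∀ i, (1 - (D.2 i).1) • y m + (D.2 i).1 • (D.2 i).2 ∈ W m := by
    intro m
    obtain ⟨P, hP, hPW, ⟨i, j, hij, hi, hj⟩, hα⟩ := H m
    have h1 : ∀ i, ∃ t : ℝ × Plane, t ∈ Icc (0:ℝ) 1 ×ˢ F ∧ P i = (1 - t.1) • y m + t.1 • t.2 := by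
      intro i
      obtain ⟨t, ht0, ht1, f', hf', hPi⟩ := hP i
      exact ⟨(t, f'), ⟨⟨ht0, ht1⟩, hf'⟩, hPi⟩
    choose T' hT' hPT using h1
    refine ⟨((i, j), T'), ⟨mem_univ _, fun i _ => hT' i⟩, hij, ?_, ?_, ?_, ?_⟩
    · change (1 - (T' i).1) • y m + (T' i).1 • (T' i).2 ∉ F
      rwa [← hPT]
    · change (1 - (T' j).1) • y m + (T' j).1 • (T' j).2 ∉ F
      rwa [← hPT]
    · intro i j k h1 h2 h3
      have := hα i j k h1 h2 h3
      rwa [hPT i, hPT j, hPT k] at this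
    · intro i
      change (1 - (T' i).1) • y m + (T' i).1 • (T' i).2 ∈ _
      rw [← hPT]
      exact hPW i
  choose D hDK hD0 hD1 hD2 hD3 hD4 using hdata
  have hK : IsCompact ((univ : Set (Fin N × Fin N)) ×ˢ
      (Set.pi univ (fun _ : Fin N => Icc (0:ℝ) 1 ×ˢ F))) :=
    isCompact_univ.prod (isCompact_univ_pi fun _ => isCompact_Icc.prod hF.compact)
  obtain ⟨L, hL, φ, hφ, hlim⟩ := hK.tendsto_subseq hDK
  have hyφ : Tendsto (y ∘ φ) atTop (𝓝 e) := hy.comp hφ.tendsto_atTop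
  have hpair : Tendsto (fun m => (y (φ m), (D (φ m)).2)) atTop (𝓝 (e, L.2)) :=
    hyφ.prodMk_nhds ((continuous_snd.tendsto _).comp hlim)
  have hidx : ∀ᶠ m in atTop, (D (φ m)).1 = L.1 := by
    have h1 : Tendsto (fun m => (D (φ m)).1) atTop (𝓝 L.1) :=
      (continuous_fst.tendsto _).comp hlim
    rw [nhds_discrete, tendsto_pure] at h1
    exact h1
  have hidx0 : L.1.1 ≠ L.1.2 := by
    obtain ⟨m, hm⟩ := hidx.exists
    rw [← hm]
    exact hD0 _
  set P : Fin N → Plane × (Fin N → ℝ × Plane) → Plane :=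
    fun i x => (1 - (x.2 i).1) • x.1 + (x.2 i).1 • (x.2 i).2 with hP
  have hPc : ∀ i, Continuous (P i) := by
    intro i
    simp only [hP]
    fun_prop
  have hPF : ∀ i, P i (e, L.2) ∈ F := by
    intro i
    have h1 := hL.2 i (mem_univ i)
    refine hF.convex heF h1.2 ?_ h1.1.1 (by ring)
    have := h1.1.2
    simp only
    linarith
  have hPlim : ∀ i, Tendsto (fun m => P i (y (φ m), (D (φ m)).2)) atTop (𝓝 (P i (e, L.2))) :=
    fun i => Filter.Tendsto.comp (g := P i) ((hPc i).tendsto (e, L.2)) hpair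
  have hA1 : ∀ᶠ m in atTop, P L.1.1 (y (φ m), (D (φ m)).2) ∉ F := by
    refine hidx.mono fun m hm => ?_
    have := hD1 (φ m)
    rw [hm] at this
    exact this
  have hA2 : ∀ᶠ m in atTop, P L.1.2 (y (φ m), (D (φ m)).2) ∉ F := by
    refine hidx.mono fun m hm => ?_
    have := hD2 (φ m)
    rw [hm] at this
    exact this
  have hA3 : ∀ m i, P i (y (φ m), (D (φ m)).2) ∈ W (φ m) := fun m i => hD4 (φ m) i
  have hA4 : ∀ m i, P i (y (φ m), (D (φ m)).2) ∉ F → ∀ s : ℝ, 0 ≤ s → s ≤ 1 →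
      (1 - s) • y (φ m) + s • P i (y (φ m), (D (φ m)).2) ∉ F := by
    intro m i hm s _ hs1
    have hm' := (hDK (φ m)).2 i (mem_univ i)
    exact seg_out hF.convex hm'.1.2 hm'.2 hm hs1 hm'.1.1
  have hA5 : ∀ i j k, i ≠ j → i ≠ k → j ≠ k →
      α ≤ triArea (P i (e, L.2)) (P j (e, L.2)) (P k (e, L.2)) := by
    intro i j k hij hik hjk
    have h1 : Continuous (fun x : Plane × (Fin N → ℝ × Plane) =>
        triArea (P i x) (P j x) (P k x)) :=
      continuous_triArea.comp ((hPc i).prodMk ((hPc j).prodMk (hPc k)))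
    have h2 : Tendsto (fun n => triArea (P i (y (φ n), (D (φ n)).2))
        (P j (y (φ n), (D (φ n)).2)) (P k (y (φ n), (D (φ n)).2))) atTop
        (𝓝 (triArea (P i (e, L.2)) (P j (e, L.2)) (P k (e, L.2)))) :=
      (h1.tendsto (e, L.2)).comp hpair
    exact ge_of_tendsto' h2 (fun n => (hD3 (φ n) i j k hij hik hjk).le)
  clear_value P
  exact ⟨φ, hφ, fun m i => P i (y (φ m), (D (φ m)).2), fun i => P i (e, L.2), hPlim, hPF,
    ⟨L.1.1, L.1.2, hidx0, hA1, hA2⟩, hA3, hA4, hA5⟩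

theorem Side.two_points (S : Side F x v n f g) {α : ℝ} {N : ℕ} (H : Rich F α N) {μ : ℝ}
    (hμ : 1 / 2 < μ) (hμ1 : μ < 1) :
    ∃ P : Fin N → Plane, (∀ i, P i ∈ F) ∧
      (∃ i j, i ≠ j ∧ (∃ u, 0 ≤ u ∧ u ≤ μ ∧ P i = x + u • v) ∧
        ∃ u, 0 ≤ u ∧ u ≤ μ ∧ P j = x + u • v) ∧
      ∀ i j k, i ≠ j → i ≠ k → j ≠ k → α ≤ triArea (P i) (P j) (P k) := by
  have hF := S.fig
  have hcl := hF.compact.isClosed
  obtain ⟨κ, hκ0, hκμ'⟩ : ∃ κ : ℝ, 0 < κ ∧ 1 + κ < 2 * μ :=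
    ⟨(2 * μ - 1) / 2, by linarith, by linarith⟩
  have hκμ : κ < μ := by linarith
  have hμ0 : 0 < μ := by linarith
  obtain ⟨t₀, ht₀, harea⟩ := S.area_GG hκ0 hμ1 hκμ'
  obtain ⟨T, hT0, hT1, hTlim⟩ : ∃ T : ℕ → ℝ, (∀ j, 0 < T j) ∧ (∀ j, T j < t₀) ∧
      Tendsto T atTop (𝓝 0) := by
    refine ⟨fun j => t₀ / ((j : ℝ) + 2), fun j => by positivity, fun j => ?_, ?_⟩
    · have : (0:ℝ) ≤ (j : ℝ) := Nat.cast_nonneg j
      rw [div_lt_iff₀ (by positivity)]
      nlinarith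
    · refine Tendsto.div_atTop tendsto_const_nhds ?_
      exact tendsto_atTop_add_const_right _ _ tendsto_natCast_atTop_atTop
  have hylim : Tendsto (fun j => yy x v n κ μ (T j)) atTop (𝓝 (x + κ • v)) := by
    have h1 : Continuous (fun t : ℝ => yy x v n κ μ t) := by unfold yy; fun_prop
    have h2 : yy x v n κ μ 0 = x + κ • v := by unfold yy; simp
    have h3 := (h1.tendsto 0).comp hTlim
    rw [h2] at h3
    exact h3
  have heF : x + κ • v ∈ F := S.point_mem hκ0.le (by linarith)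
  obtain ⟨φ, hφ, Q, P, hlim, hPF, ⟨i₀, j₀, hij₀, hi₀, hj₀⟩, hQW, hout, htri⟩ :=
    extract hF (α := α) (N := N) heF hylim (W := fun m => HP x f g μ (T m)) (by
      intro m
      obtain ⟨P, hP, hij, hα⟩ := H _ (S.GG_fig (κ := κ) hμ0 (hT0 m))
        (harea _ (hT0 m) (hT1 m))
      refine ⟨P, fun i => ?_, fun i => S.GG_sub κ μ (T m) (hP i), hij, hα⟩
      obtain ⟨t, ht0, ht1, f', hf', hPi⟩ := mem_hull_insert
        (F := F ∩ HP x f g μ (T m)) (hF.convex.inter (convex_HP x f g μ (T m)))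
        ⟨x, S.x_HP hμ0 (hT0 m)⟩ (hP i)
      exact ⟨t, ht0, ht1, f', hf'.1, hPi⟩)
  have hyφ : Tendsto (fun m => yy x v n κ μ (T (φ m))) atTop (𝓝 (x + κ • v)) :=
    hylim.comp hφ.tendsto_atTop
  obtain ⟨y, hyd⟩ : ∃ y : ℕ → Plane, y = fun m => yy x v n κ μ (T (φ m)) := ⟨_, rfl⟩
  rw [← hyd] at hyφ
  have hout' : ∀ m i, Q m i ∉ F → ∀ s : ℝ, 0 ≤ s → s ≤ 1 → (1 - s) • y m + s • Q m i ∉ F := by
    rw [hyd]
    exact hout
  have hyHP : ∀ m, y m ∈ HP x f g μ (T (φ m)) := by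
    intro m
    rw [hyd]
    simp only [HP, mem_ofPred_eq]
    rw [S.yy_f, S.yy_g]
    linarith
  have hw_lim : ∀ i (s : ℝ), Tendsto (fun m => (1 - s) • y m + s • Q m i) atTop
      (𝓝 ((1 - s) • (x + κ • v) + s • P i)) := fun i s =>
    (hyφ.const_smul _).add ((hlim i).const_smul _)
  have hseg : ∀ i, (∀ᶠ m in atTop, Q m i ∉ F) → ∀ s : ℝ, 0 ≤ s → s ≤ 1 →
      (1 - s) • (x + κ • v) + s • P i ∈ frontier F := by
    intro i hi s hs0 hs1
    rw [frontier_eq_closure_inter_closure]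
    refine ⟨subset_closure (hF.convex heF (hPF i) (by linarith) hs0 (by ring)), ?_⟩
    exact mem_closure_of_tendsto (hw_lim i s) (hi.mono fun m hm => hout' m i hm s hs0 hs1)
  have hmain : ∀ i, (∀ᶠ m in atTop, Q m i ∉ F) →
      ∃ u, 0 ≤ u ∧ u ≤ μ ∧ P i = x + u • v := by
    intro i hi
    have hzF := hPF i
    have hfz : f (P i) = f x := by
      by_contra hcon
      have hfz : f (P i) < f x := lt_of_le_of_ne (S.le _ hzF) hcon
      have h1 : Tendsto (fun s : ℝ => (1 - s) • (x + κ • v) + s • P i) (𝓝[>] 0)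
          (𝓝 (x + κ • v)) := by
        have h2 : ContinuousAt (fun s : ℝ => (1 - s) • (x + κ • v) + s • P i) 0 := by fun_prop
        have h3 := h2.tendsto
        simp only [sub_zero, one_smul, zero_smul, add_zero] at h3
        exact h3.mono_left nhdsWithin_le_nhds
      have h4 := h1.eventually (S.near_at hκ0 (by linarith))
      have h5 : ∀ᶠ s : ℝ in 𝓝[>] 0, s ∈ Ioo (0:ℝ) 1 := Ioo_mem_nhdsGT one_pos
      obtain ⟨s, h6, h7, h8⟩ := (h4.and h5).exists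
      have h9 : f ((1 - s) • (x + κ • v) + s • P i) < f x := by
        rw [map_add, map_smul, map_smul, S.f_line, smul_eq_mul, smul_eq_mul]
        nlinarith
      exact (hseg i hi s h7.le h8.le).2 (h6 h9)
    obtain ⟨hU0, hU1, hzU⟩ := S.on_side hzF hfz
    obtain ⟨U, hU⟩ : ∃ U, U = g (P i - x) := ⟨_, rfl⟩
    rw [← hU] at hU0 hU1 hzU
    refine ⟨U, hU0, ?_, hzU⟩
    by_contra hcon
    push Not at hcon
    obtain ⟨μ', h1, h2⟩ : ∃ μ', μ < μ' ∧ μ' < U := ⟨(μ + U) / 2, by linarith, by linarith⟩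
    have hUκ : 0 < U - κ := by linarith
    obtain ⟨s, hs⟩ : ∃ s, s = (μ' - κ) / (U - κ) := ⟨_, rfl⟩
    have hs0 : 0 ≤ s := by rw [hs]; exact (div_pos (by linarith) hUκ).le
    have hs1 : s ≤ 1 := by rw [hs, div_le_one hUκ]; linarith
    have hsm : s * (U - κ) = μ' - κ := by rw [hs]; exact div_mul_cancel₀ _ hUκ.ne'
    have hw0 : (1 - s) • (x + κ • v) + s • P i = x + μ' • v := by
      rw [hzU]
      have : μ' = κ + s * (U - κ) := by linarith
      rw [this]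
      module
    have hlw := hw_lim i s
    rw [hw0] at hlw
    have hev1 := hlw.eventually (S.near_at (show 0 < μ' by linarith) (by linarith))
    have hev2 : ∀ᶠ m in atTop, μ < g ((1 - s) • y m + s • Q m i - x) := by
      have h3 : Continuous (fun w : Plane => g (w - x)) := by fun_prop
      have h4 := (h3.tendsto (x + μ' • v)).comp hlw
      refine h4.eventually_const_lt ?_
      rw [add_sub_cancel_left, map_smul, S.gv, smul_eq_mul, mul_one]
      exact h1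
    obtain ⟨m, h3, h4, h5⟩ := (hev1.and (hev2.and hi)).exists
    have hwHP : (1 - s) • y m + s • Q m i ∈ HP x f g μ (T (φ m)) :=
      convex_HP x f g μ (T (φ m)) (hyHP m) (hQW m i) (by linarith) hs0 (by ring)
    have h6 : f ((1 - s) • y m + s • Q m i) < f x := by
      have h7 : f ((1 - s) • y m + s • Q m i - x) +
        T (φ m) * (g ((1 - s) • y m + s • Q m i - x) - μ) ≤ 0 := hwHP
      have h8 := mul_pos (hT0 (φ m)) (sub_pos.2 h4)
      rw [map_sub f] at h7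
      linarith
    exact hout' m i h5 s hs0 hs1 (interior_subset (h3 h6))
  exact ⟨P, hPF, ⟨i₀, j₀, hij₀, hmain _ hi₀, hmain _ hj₀⟩, htri⟩

end Pool.Agent.helper47.SAlpha
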