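import Pool.Agent.helper47.SAlphaL

/-!
# Extremal configurations with two points on one half of a side
-/

open Set MeasureTheory Filter Topology

namespace Pool.Agent.helper47.SAlpha

variable {F : Set Plane} {x v n : Plane} {f g : Plane →L[ℝ] ℝ}

theorem Side.half (S : Side F x v n f g) {α : ℝ} {N : ℕ} (H : Rich F α N) :
    ∃ P : Fin N → Plane, (∀ i, P i ∈ F) ∧
      (∃ i j, i ≠ j ∧ (∃ u : ℝ, 0 ≤ u ∧ u ≤ 1 / 2 ∧ P i = x + u • v) ∧
        ∃ u : ℝ, 0 ≤ u ∧ u ≤ 1 / 2 ∧ P j = x + u • v) ∧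
      ∀ i j k, i ≠ j → i ≠ k → j ≠ k → α ≤ triArea (P i) (P j) (P k) := by
  obtain ⟨T, hT0, hT1, hTlim⟩ : ∃ T : ℕ → ℝ, (∀ j, 1 / 2 < T j) ∧ (∀ j, T j < 1) ∧
      Tendsto T atTop (𝓝 (1 / 2)) := by
    refine ⟨fun j => 1 / 2 + 1 / ((j : ℝ) + 3), fun j => ?_, fun j => ?_, ?_⟩
    · have : 0 < 1 / ((j : ℝ) + 3) := by positivity
      linarith
    · have h0 : (0:ℝ) ≤ (j : ℝ) := Nat.cast_nonneg j
      have : 1 / ((j : ℝ) + 3) ≤ 1 / 3 := by
        apply one_div_le_one_div_of_le <;> linarith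
      linarith
    · have h1 : Tendsto (fun j : ℕ => 1 / ((j : ℝ) + 3)) atTop (𝓝 0) := by
        refine Tendsto.div_atTop tendsto_const_nhds ?_
        exact tendsto_atTop_add_const_right _ _ tendsto_natCast_atTop_atTop
      have h2 := (tendsto_const_nhds (x := (1 / 2 : ℝ))).add h1
      rw [add_zero] at h2
      exact h2
  have hdata : ∀ m : ℕ, ∃ D : (Fin N × Fin N) × (ℝ × ℝ) × (Fin N → Plane),
      D ∈ (univ : Set (Fin N × Fin N)) ×ˢ (Icc (0:ℝ) 1 ×ˢ Icc (0:ℝ) 1) ×ˢ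
        (Set.pi univ (fun _ : Fin N => F)) ∧
      D.1.1 ≠ D.1.2 ∧ D.2.1.1 ≤ T m ∧ D.2.1.2 ≤ T m ∧
      D.2.2 D.1.1 = x + D.2.1.1 • v ∧ D.2.2 D.1.2 = x + D.2.1.2 • v ∧
      (∀ i j k, i ≠ j → i ≠ k → j ≠ k → α ≤ triArea (D.2.2 i) (D.2.2 j) (D.2.2 k)) := by
    intro m
    obtain ⟨P, hP, ⟨i, j, hij, ⟨u, hu0, hu1, hPi⟩, ⟨w, hw0, hw1, hPj⟩⟩, hα⟩ :=
      S.two_points H (hT0 m) (hT1 m)
    have h1 := hT1 m
    exact ⟨((i, j), (u, w), P), ⟨mem_univ _, ⟨⟨hu0, by linarith⟩, ⟨hw0, by linarith⟩⟩,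
      fun i _ => hP i⟩, hij, hu1, hw1, hPi, hPj, hα⟩
  choose D hDK hD0 hD1 hD2 hD3 hD4 hD5 using hdata
  have hK : IsCompact ((univ : Set (Fin N × Fin N)) ×ˢ (Icc (0:ℝ) 1 ×ˢ Icc (0:ℝ) 1) ×ˢ
      (Set.pi univ (fun _ : Fin N => F))) :=
    isCompact_univ.prod ((isCompact_Icc.prod isCompact_Icc).prod
      (isCompact_univ_pi fun _ => S.fig.compact))
  obtain ⟨L, hL, φ, hφ, hlim⟩ := hK.tendsto_subseq hDK
  have hidx : ∀ᶠ m in atTop, (D (φ m)).1 = L.1 := by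
    have h1 : Tendsto (fun m => (D (φ m)).1) atTop (𝓝 L.1) :=
      (continuous_fst.tendsto _).comp hlim
    rw [nhds_discrete, tendsto_pure] at h1
    exact h1
  have hidx0 : L.1.1 ≠ L.1.2 := by
    obtain ⟨m, hm⟩ := hidx.exists
    rw [← hm]
    exact hD0 _
  have hl2 : Tendsto (fun m => (D (φ m)).2) atTop (𝓝 L.2) :=
    (continuous_snd.tendsto _).comp hlim
  have hu : Tendsto (fun m => (D (φ m)).2.1.1) atTop (𝓝 L.2.1.1) :=
    ((continuous_fst.comp continuous_fst).tendsto _).comp hl2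
  have hw : Tendsto (fun m => (D (φ m)).2.1.2) atTop (𝓝 L.2.1.2) :=
    ((continuous_snd.comp continuous_fst).tendsto _).comp hl2
  have hP : ∀ i, Tendsto (fun m => (D (φ m)).2.2 i) atTop (𝓝 (L.2.2 i)) := fun i =>
    (((continuous_apply i).comp continuous_snd).tendsto _).comp hl2
  have hTφ : Tendsto (fun m => T (φ m)) atTop (𝓝 (1 / 2)) := hTlim.comp hφ.tendsto_atTop
  refine ⟨L.2.2, fun i => hL.2.2 i (mem_univ i), ⟨L.1.1, L.1.2, hidx0,
    ⟨L.2.1.1, hL.2.1.1.1, le_of_tendsto_of_tendsto' hu hTφ (fun m => hD1 _), ?_⟩,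
    ⟨L.2.1.2, hL.2.1.2.1, le_of_tendsto_of_tendsto' hw hTφ (fun m => hD2 _), ?_⟩⟩, ?_⟩
  · have h1 : Tendsto (fun m => x + (D (φ m)).2.1.1 • v) atTop (𝓝 (x + L.2.1.1 • v)) :=
      tendsto_const_nhds.add (hu.smul_const v)
    refine tendsto_nhds_unique_of_eventuallyEq (hP L.1.1) h1 (hidx.mono fun m hm => ?_)
    have := hD3 (φ m)
    rw [hm] at this
    exact this
  · have h1 : Tendsto (fun m => x + (D (φ m)).2.1.2 • v) atTop (𝓝 (x + L.2.1.2 • v)) :=
      tendsto_const_nhds.add (hw.smul_const v)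
    refine tendsto_nhds_unique_of_eventuallyEq (hP L.1.2) h1 (hidx.mono fun m hm => ?_)
    have := hD4 (φ m)
    rw [hm] at this
    exact this
  · intro i j k hij hik hjk
    have h2 : Tendsto (fun m => triArea ((D (φ m)).2.2 i) ((D (φ m)).2.2 j)
        ((D (φ m)).2.2 k)) atTop (𝓝 (triArea (L.2.2 i) (L.2.2 j) (L.2.2 k))) := by
      have h3 := (continuous_triArea.tendsto (L.2.2 i, L.2.2 j, L.2.2 k)).comp
        ((hP i).prodMk_nhds ((hP j).prodMk_nhds (hP k)))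
      exact h3
    exact ge_of_tendsto' h2 (fun m => hD5 (φ m) i j k hij hik hjk)

/-- Each half of each side contains two points of an extremal configuration. -/
theorem half_side {F : Set Plane} (hF : IsFigure F) {α : ℝ} (hα : 0 < α) {N : ℕ} (hN : 3 ≤ N)
    (H : Rich F α N) {x b : Plane}
    (hx : x ∈ F.extremePoints ℝ) (hb : b ∈ F.extremePoints ℝ) (hne : x ≠ b)
    (hs : segment ℝ x b ⊆ frontier F) :
    ∃ t : Finset Plane, (t : Set Plane) ⊆ F ∧ t.card = N ∧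
      (∀ p ∈ t, ∀ q ∈ t, ∀ r ∈ t, p ≠ q → p ≠ r → q ≠ r → α ≤ triArea p q r) ∧
      ∃ p ∈ t, ∃ q ∈ t, p ≠ q ∧ p ∈ segment ℝ x (midpoint ℝ x b) ∧
        q ∈ segment ℝ x (midpoint ℝ x b) := by
  classical
  have hm : (1 / 2 : ℝ) • x + (1 / 2 : ℝ) • b ∈ frontier F :=
    hs ⟨1 / 2, 1 / 2, by norm_num, by norm_num, by norm_num, rfl⟩
  obtain ⟨f, hf1, hf2⟩ := support hF hm
  have hc' : f ((1 / 2 : ℝ) • x + (1 / 2 : ℝ) • b) = 1 / 2 * f x + 1 / 2 * f b := by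
    rw [map_add, map_smul, map_smul, smul_eq_mul, smul_eq_mul]
  rw [hc'] at hf1 hf2
  have hxb : f b = f x := by have := hf2 x hx.1; have := hf2 b hb.1; linarith
  have hcc : 1 / 2 * f x + 1 / 2 * f b = f x := by rw [hxb]; ring
  rw [hcc] at hf1 hf2
  obtain ⟨o, ho⟩ := hF.interior_nonempty
  obtain ⟨g, n, hgv, hgn, hfn, hdec⟩ := coords (f := f) (v := b - x) (o := o - x)
    (sub_ne_zero.2 (Ne.symm hne)) (by rw [map_sub, hxb, sub_self])
    (by
      have := hf1 o ho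
      rw [map_sub]
      intro h
      linarith)
  have S : Side F x (b - x) n f g :=
    { fig := hF
      v0 := sub_ne_zero.2 (Ne.symm hne)
      hx := hx
      hb := by rw [add_sub_cancel]; exact hb
      fv := by rw [map_sub, hxb, sub_self]
      fn := hfn
      gv := hgv
      gn := hgn
      dec := hdec
      lt := hf1
      le := hf2 }
  obtain ⟨P, hP, ⟨i, j, hij, ⟨u, hu0, hu1, hPi⟩, ⟨w, hw0, hw1, hPj⟩⟩, h3⟩ := S.half H
  have hinj : Function.Injective P := by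
    intro a b' hab
    by_contra hne'
    obtain ⟨k, hk⟩ : ∃ k : Fin N, k ∉ ({a, b'} : Finset (Fin N)) := by
      by_contra hcon
      push Not at hcon
      have h5 : (Finset.univ : Finset (Fin N)) ⊆ {a, b'} := fun k _ => hcon k
      have h6 := Finset.card_le_card h5
      have h7 := Finset.card_le_two (a := a) (b := b')
      rw [Finset.card_univ, Fintype.card_fin] at h6
      omega
    simp only [Finset.mem_insert, Finset.mem_singleton, not_or] at hk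
    have h4 := h3 a b' k hne' (Ne.symm hk.1) (Ne.symm hk.2)
    have h5 := triArea_le (P a) (P b') (P k)
    rw [hab, dist_self, zero_mul, zero_div] at h5
    rw [hab] at h4
    linarith
  have hmem : ∀ s : ℝ, 0 ≤ s → s ≤ 1 / 2 → x + s • (b - x) ∈ segment ℝ x (midpoint ℝ x b) := by
    intro s hs0 hs1
    refine ⟨1 - 2 * s, 2 * s, by linarith, by linarith, by ring, ?_⟩
    rw [midpoint_eq_smul_add, invOf_eq_inv]
    module
  refine ⟨Finset.univ.image P, ?_, ?_, ?_, P i, ?_, P j, ?_, fun h => hij (hinj h), ?_, ?_⟩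
  · intro z hz
    rw [Finset.mem_coe, Finset.mem_image] at hz
    obtain ⟨k, -, rfl⟩ := hz
    exact hP k
  · rw [Finset.card_image_of_injective _ hinj, Finset.card_univ, Fintype.card_fin]
  · intro p hp q hq r hr hpq hpr hqr
    obtain ⟨k1, -, rfl⟩ := Finset.mem_image.1 hp
    obtain ⟨k2, -, rfl⟩ := Finset.mem_image.1 hq
    obtain ⟨k3, -, rfl⟩ := Finset.mem_image.1 hr
    exact h3 _ _ _ (fun h => hpq (by rw [h])) (fun h => hpr (by rw [h]))
      (fun h => hqr (by rw [h]))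
  · exact Finset.mem_image_of_mem _ (Finset.mem_univ _)
  · exact Finset.mem_image_of_mem _ (Finset.mem_univ _)
  · rw [hPi]; exact hmem u hu0 hu1
  · rw [hPj]; exact hmem w hw0 hw1

end Pool.Agent.helper47.SAlpha
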