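import Pool.Agent.helper47.SAlphaM

/-!
# A minimal figure with the property of the half sides is not a triangle
-/

open Set MeasureTheory Filter Topology

namespace Pool.Agent.helper47.SAlpha

/-- The point with coordinates `s`, `t`. -/
noncomputable def tp (a b c : Plane) (s t : ℝ) : Plane := c + s • (a - c) + t • (b - c)

lemma mem_triangle {a b c z : Plane} :
    z ∈ convexHull ℝ ({a, b, c} : Set Plane) ↔
      ∃ s t : ℝ, 0 ≤ s ∧ 0 ≤ t ∧ s + t ≤ 1 ∧ z = tp a b c s t := by
  constructor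
  · intro hz
    rw [convexHull_insert (insert_nonempty _ _), convexHull_pair, mem_convexJoin] at hz
    obtain ⟨a', ha', w, ⟨p, q, hp, hq, hpq, rfl⟩, ⟨r, s, hr, hs, hrs, rfl⟩⟩ := hz
    rw [mem_singleton_iff] at ha'
    subst ha'
    refine ⟨r, s * p, hr, mul_nonneg hs hp, ?_, ?_⟩
    · nlinarith
    · unfold tp
      have h1 : r = 1 - s := by linarith
      have h2 : q = 1 - p := by linarith
      subst h1 h2
      module
  · rintro ⟨s, t, hs, ht, hst, rfl⟩
    have ha : a ∈ convexHull ℝ ({a, b, c} : Set Plane) := subset_convexHull ℝ _ (by simp)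
    have hb : b ∈ convexHull ℝ ({a, b, c} : Set Plane) := subset_convexHull ℝ _ (by simp)
    have hc : c ∈ convexHull ℝ ({a, b, c} : Set Plane) := subset_convexHull ℝ _ (by simp)
    have h2 := (convex_convexHull ℝ ({a, b, c} : Set Plane)).sum_mem
      (t := Finset.univ) (w := ![1 - s - t, s, t]) (z := ![c, a, b])
      (by intro i _; fin_cases i <;> simp <;> linarith)
      (by simp [Fin.sum_univ_three]; ring)
      (by intro i _; fin_cases i <;> simp [ha, hb, hc])
    have h3 : ∑ i : Fin 3, (![1 - s - t, s, t] : Fin 3 → ℝ) i • (![c, a, b] : Fin 3 → Plane) i =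
        tp a b c s t := by
      unfold tp
      simp [Fin.sum_univ_three]
      module
    rw [h3] at h2
    exact h2

lemma triArea_tp (a b c : Plane) (s₁ t₁ s₂ t₂ s₃ t₃ : ℝ) :
    triArea (tp a b c s₁ t₁) (tp a b c s₂ t₂) (tp a b c s₃ t₃) =
      |(s₂ - s₁) * (t₃ - t₁) - (s₃ - s₁) * (t₂ - t₁)| * triArea c a b := by
  unfold tp
  rw [triArea_affine]
  congr 2 <;> abel

lemma tp_inj {a b c : Plane} (h : 0 < triArea c a b) {s t s' t' : ℝ}
    (he : tp a b c s t = tp a b c s' t') : s = s' ∧ t = t' := by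
  have h1 := triArea_tp a b c s' t' s t (s' + 1) t'
  have h2 := triArea_tp a b c s' t' s t s' (t' + 1)
  rw [he] at h1 h2
  have h0 : ∀ p q : Plane, triArea p p q = 0 := fun p q => by
    unfold triArea
    simp
  rw [h0] at h1 h2
  have h3 := (mul_eq_zero.1 h1.symm).resolve_right h.ne'
  have h4 := (mul_eq_zero.1 h2.symm).resolve_right h.ne'
  rw [abs_eq_zero] at h3 h4
  constructor <;> linarith

theorem not_triangle {F : Set Plane} (hF : IsFigure F) {α : ℝ} (hα : 0 < α) {n : ℕ}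
    (hn : 2 ≤ n) (h : Forced n F α) (H : Rich F α (n + 1)) {a b c : Plane}
    (hFe : F = convexHull ℝ ({a, b, c} : Set Plane)) : False := by
  classical
  have hmem : ∀ z, z ∈ F ↔ ∃ s t : ℝ, 0 ≤ s ∧ 0 ≤ t ∧ s + t ≤ 1 ∧ z = tp a b c s t := by
    intro z
    rw [hFe]
    exact mem_triangle
  -- the triangle is not degenerate
  have harea : 0 < triArea c a b := by
    obtain ⟨o, ho⟩ := hF.interior_nonempty
    rw [mem_interior_iff_mem_nhds, Metric.mem_nhds_iff] at ho
    obtain ⟨δ, hδ, hball⟩ := ho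
    have h1 : o ∈ F := hball (Metric.mem_ball_self hδ)
    have hin : ∀ i : Fin 2, o + EuclideanSpace.single i (δ / 2) ∈ F := by
      intro i
      apply hball
      rw [Metric.mem_ball, dist_eq_norm, add_sub_cancel_left, PiLp.norm_single,
        Real.norm_of_nonneg (by linarith)]
      linarith
    obtain ⟨s₁, t₁, -, -, -, e1⟩ := (hmem _).1 h1
    obtain ⟨s₂, t₂, -, -, -, e2⟩ := (hmem _).1 (hin 0)
    obtain ⟨s₃, t₃, -, -, -, e3⟩ := (hmem _).1 (hin 1)
    have h2 := triArea_tp a b c s₁ t₁ s₂ t₂ s₃ t₃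
    rw [← e1, ← e2, ← e3] at h2
    have h3 : triArea o (o + EuclideanSpace.single 0 (δ / 2))
        (o + EuclideanSpace.single 1 (δ / 2)) = (δ / 2) ^ 2 / 2 := by
      unfold triArea
      simp
      ring
    rw [h3] at h2
    by_contra hcon
    have h4 : triArea c a b = 0 := le_antisymm (not_lt.1 hcon) (triArea_nonneg _ _ _)
    rw [h4, mul_zero] at h2
    have : 0 < (δ / 2) ^ 2 / 2 := by positivity
    linarith
  have ea : a = tp a b c 1 0 := by unfold tp; module
  have eb : b = tp a b c 0 1 := by unfold tp; module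
  have hcomb : ∀ (s t s' t' k l : ℝ), k + l = 1 →
      k • tp a b c s t + l • tp a b c s' t' = tp a b c (k * s + l * s') (k * t + l * t') := by
    intro s t s' t' k l hkl
    have : k = 1 - l := by linarith
    subst this
    unfold tp
    module
  have hne : a ≠ b := by
    intro hab
    have hab' : tp a b c 1 0 = tp a b c 0 1 := by rw [← ea, ← eb]; exact hab
    have := (tp_inj harea hab').1
    norm_num at this
  have hext : ∀ s t : ℝ, ((s = 1 ∧ t = 0) ∨ (s = 0 ∧ t = 1)) →
      tp a b c s t ∈ F.extremePoints ℝ := by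
    intro s t hst
    refine ⟨(hmem _).2 ⟨s, t, ?_, ?_, ?_, rfl⟩, ?_⟩
    · rcases hst with ⟨h1, h2⟩ | ⟨h1, h2⟩ <;> linarith
    · rcases hst with ⟨h1, h2⟩ | ⟨h1, h2⟩ <;> linarith
    · rcases hst with ⟨h1, h2⟩ | ⟨h1, h2⟩ <;> linarith
    · intro z₁ hz₁ z₂ hz₂ hz
      obtain ⟨s₁, t₁, hs₁, ht₁, hst₁, rfl⟩ := (hmem _).1 hz₁
      obtain ⟨s₂, t₂, hs₂, ht₂, hst₂, rfl⟩ := (hmem _).1 hz₂
      obtain ⟨k, l, hk, hl, hkl, he⟩ := hz
      rw [hcomb _ _ _ _ _ _ hkl] at he
      obtain ⟨h1, h2⟩ := tp_inj harea he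
      have hl' : l = 1 - k := by linarith
      subst hl'
      rcases hst with ⟨h3, h4⟩ | ⟨h3, h4⟩
      · rw [h3] at h1
        have h5 : s₁ = 1 := by
          by_contra hcon
          have : s₁ < 1 := lt_of_le_of_ne (by linarith) hcon
          nlinarith
        have h6 : t₁ = 0 := by linarith
        rw [h3, h4, h5, h6]
      · rw [h4] at h2
        have h5 : t₁ = 1 := by
          by_contra hcon
          have : t₁ < 1 := lt_of_le_of_ne (by linarith) hcon
          nlinarith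
        have h6 : s₁ = 0 := by linarith
        rw [h3, h4, h5, h6]
  have haE : a ∈ F.extremePoints ℝ := by
    have := hext 1 0 (Or.inl ⟨rfl, rfl⟩)
    rwa [← ea] at this
  have hbE : b ∈ F.extremePoints ℝ := by
    have := hext 0 1 (Or.inr ⟨rfl, rfl⟩)
    rwa [← eb] at this
  have hfr : segment ℝ a b ⊆ frontier F := by
    intro z hz
    refine ⟨subset_closure (hF.convex.segment_subset haE.1 hbE.1 hz), fun hint => ?_⟩
    obtain ⟨k, l, hk, hl, hkl, rfl⟩ := hz
    have h1 : Tendsto (fun e : ℝ => tp a b c (k + e) (l + e)) (𝓝[>] 0)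
        (𝓝 (k • a + l • b)) := by
      have h2 : Continuous (fun e : ℝ => tp a b c (k + e) (l + e)) := by unfold tp; fun_prop
      have h3 := h2.tendsto 0
      have h4 : tp a b c (k + 0) (l + 0) = k • a + l • b := by
        have : k = 1 - l := by linarith
        subst this
        unfold tp
        module
      rw [h4] at h3
      exact h3.mono_left nhdsWithin_le_nhds
    have h2 := h1.eventually (mem_interior_iff_mem_nhds.1 hint)
    obtain ⟨e, h3, h4⟩ := (h2.and self_mem_nhdsWithin).exists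
    have h4' : (0:ℝ) < e := h4
    obtain ⟨s, t, -, -, hst, he⟩ := (hmem _).1 h3
    obtain ⟨h5, h6⟩ := tp_inj harea he
    linarith
  obtain ⟨T, hTF, hTc, hTα, p, hp, q, hq, hpq, hps, hqs⟩ :=
    half_side hF hα (by omega : 3 ≤ n + 1) H haE hbE hne hfr
  -- coordinates of the two points
  have hhalf : ∀ z ∈ segment ℝ a (midpoint ℝ a b), ∃ u : ℝ, 0 ≤ u ∧ u ≤ 1 / 2 ∧
      z = tp a b c (1 - u) u := by
    rintro z ⟨k, l, hk, hl, hkl, rfl⟩
    refine ⟨l / 2, by linarith, by linarith, ?_⟩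
    rw [midpoint_eq_smul_add, invOf_eq_inv]
    have : k = 1 - l := by linarith
    subst this
    unfold tp
    module
  obtain ⟨u, hu0, hu1, hpu⟩ := hhalf p hps
  obtain ⟨w, hw0, hw1, hqw⟩ := hhalf q hqs
  -- one of them is not the midpoint
  have key : ∀ p q : Plane, p ∈ T → q ∈ T → p ≠ q → ∀ u w : ℝ, 0 ≤ u → u < 1 / 2 →
      p = tp a b c (1 - u) u → q = tp a b c (1 - w) w → False := by
    intro p q hp hq hpq u w hu0 hu1 hpu hqw
    have hco : ∀ r : Plane, ∃ x : ℝ × ℝ, r ∈ T → (0 ≤ x.1 ∧ 0 ≤ x.2 ∧ x.1 + x.2 ≤ 1 ∧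
        r = tp a b c x.1 x.2) := by
      intro r
      by_cases hr : r ∈ T
      · obtain ⟨s, t, h1, h2, h3, h4⟩ := (hmem _).1 (hTF hr)
        exact ⟨(s, t), fun _ => ⟨h1, h2, h3, h4⟩⟩
      · exact ⟨(0, 0), fun h => absurd h hr⟩
    choose X hX using hco
    have hev : ∀ᶠ e : ℝ in 𝓝[>] 0, ∀ r ∈ T.erase q,
        (X r).1 * (1 - e) + (X r).2 * (1 + e) ≤ 1 - e ^ 2 := by
      rw [Filter.eventually_all_finset]
      intro r hr
      rw [Finset.mem_erase] at hr
      obtain ⟨h1, h2, h3, h4⟩ := hX r hr.2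
      by_cases hrp : r = p
      · -- the point `p`
        have h5 : tp a b c (X r).1 (X r).2 = tp a b c (1 - u) u := by rw [← h4, hrp, hpu]
        obtain ⟨h6, h7⟩ := tp_inj harea h5
        have h8 : ∀ᶠ e : ℝ in 𝓝[>] 0, e ∈ Ioo (0:ℝ) (1 - 2 * u) :=
          Ioo_mem_nhdsGT (by linarith)
        refine h8.mono fun e he => ?_
        rw [h6, h7]
        nlinarith [he.1, he.2]
      · have h5 := hTα p hp q hq r hr.2 hpq (Ne.symm hrp) (Ne.symm hr.1)
        have h6 : (X r).1 + (X r).2 < 1 := by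
          refine lt_of_le_of_ne h3 fun h7 => ?_
          rw [hpu, hqw, h4, triArea_tp] at h5
          have h8 : (X r).1 = 1 - (X r).2 := by linarith
          rw [h8] at h5
          have h9 : (1 - w - (1 - u)) * ((X r).2 - u) - (1 - (X r).2 - (1 - u)) * (w - u) = 0 := by
            ring
          rw [h9, abs_zero, zero_mul] at h5
          linarith
        have h8 : ∀ᶠ e : ℝ in 𝓝[>] 0, e ∈ Ioo (0:ℝ) (min 1 ((1 - (X r).1 - (X r).2) / 2)) :=
          Ioo_mem_nhdsGT (lt_min one_pos (by linarith))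
        refine h8.mono fun e he => ?_
        have h9 := he.1
        have h10 : e < 1 := lt_of_lt_of_le he.2 (min_le_left _ _)
        have h11 : e < (1 - (X r).1 - (X r).2) / 2 := lt_of_lt_of_le he.2 (min_le_right _ _)
        nlinarith
    have hev2 : ∀ᶠ e : ℝ in 𝓝[>] 0, e ∈ Ioo (0:ℝ) 1 := Ioo_mem_nhdsGT one_pos
    obtain ⟨e, he, he0, he1⟩ := (hev.and hev2).exists
    have hd1 : 0 < 1 + e := by linarith
    have hd2 : 0 < 1 - e := by linarith
    set B : Plane → Plane := fun r => tp a b c ((X r).1 / (1 + e)) ((X r).2 / (1 - e)) with hB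
    have hinj : Set.InjOn B (T.erase q : Finset Plane) := by
      intro r hr r' hr' hrr
      rw [Finset.mem_coe, Finset.mem_erase] at hr hr'
      obtain ⟨h1, h2⟩ := tp_inj harea hrr
      rw [div_left_inj' hd1.ne'] at h1
      rw [div_left_inj' hd2.ne'] at h2
      rw [(hX r hr.2).2.2.2, (hX r' hr'.2).2.2.2, h1, h2]
    have hcard : ((T.erase q).image B).card = n := by
      rw [Finset.card_image_of_injOn hinj, Finset.card_erase_of_mem hq, hTc]
      rfl
    have hsub : (((T.erase q).image B : Finset Plane) : Set Plane) ⊆ F := by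
      intro z hz
      rw [Finset.mem_coe, Finset.mem_image] at hz
      obtain ⟨r, hr, rfl⟩ := hz
      have h5 := he r hr
      rw [Finset.mem_erase] at hr
      obtain ⟨h1, h2, h3, h4⟩ := hX r hr.2
      refine (hmem _).2 ⟨_, _, div_nonneg h1 hd1.le, div_nonneg h2 hd2.le, ?_, rfl⟩
      rw [div_add_div _ _ hd1.ne' hd2.ne', div_le_one (mul_pos hd1 hd2)]
      nlinarith
    obtain ⟨x₁, hx₁, x₂, hx₂, x₃, hx₃, h12, h13, h23, hle⟩ := h _ hsub hcard
    obtain ⟨r₁, hr₁, rfl⟩ := Finset.mem_image.1 hx₁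
    obtain ⟨r₂, hr₂, rfl⟩ := Finset.mem_image.1 hx₂
    obtain ⟨r₃, hr₃, rfl⟩ := Finset.mem_image.1 hx₃
    have hr₁' := (Finset.mem_erase.1 hr₁).2
    have hr₂' := (Finset.mem_erase.1 hr₂).2
    have hr₃' := (Finset.mem_erase.1 hr₃).2
    have h5 := hTα r₁ hr₁' r₂ hr₂' r₃ hr₃' (fun h => h12 (by rw [h])) (fun h => h13 (by rw [h]))
      (fun h => h23 (by rw [h]))
    rw [(hX r₁ hr₁').2.2.2, (hX r₂ hr₂').2.2.2, (hX r₃ hr₃').2.2.2, triArea_tp] at h5
    simp only [hB] at hle
    rw [triArea_tp] at hle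
    have h6 : ((X r₂).1 / (1 + e) - (X r₁).1 / (1 + e)) *
        ((X r₃).2 / (1 - e) - (X r₁).2 / (1 - e)) -
        ((X r₃).1 / (1 + e) - (X r₁).1 / (1 + e)) *
        ((X r₂).2 / (1 - e) - (X r₁).2 / (1 - e)) =
        (((X r₂).1 - (X r₁).1) * ((X r₃).2 - (X r₁).2) -
          ((X r₃).1 - (X r₁).1) * ((X r₂).2 - (X r₁).2)) / (1 - e ^ 2) := by
      have hd3 : 1 - e ^ 2 ≠ 0 := by nlinarith
      have hd1' := hd1.ne'
      have hd2' := hd2.ne'
      rw [show 1 - e ^ 2 = (1 + e) * (1 - e) by ring]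
      field_simp
    rw [h6, abs_div] at hle
    have hd4 : 0 < 1 - e ^ 2 := by nlinarith
    rw [abs_of_pos hd4, div_mul_eq_mul_div, div_le_iff₀ hd4] at hle
    nlinarith [mul_pos hα (mul_pos he0 he0)]
  by_cases hu : u < 1 / 2
  · exact key p q hp hq hpq u w hu0 hu hpu hqw
  · have hw : w < 1 / 2 := by
      by_contra hcon
      apply hpq
      have h1 : u = 1 / 2 := by linarith
      have h2 : w = 1 / 2 := by linarith
      rw [hpu, hqw, h1, h2]
    exact key q p hq hp (Ne.symm hpq) w u hw0 hw hqw hpu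

end Pool.Agent.helper47.SAlpha
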